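import Mathlib

section

/-!
# Conditions from the boxes
-/

end

section

/-!
# Left ramps of the hinges of a ring, heights `≤ 0`, shift `π / 2` (block A)

`LR.lo_flat`, `LR.lo_P4`, `LR.lo_P5`, `LR.lo_X4`, `LR.lo_X5`.
-/

end

section

/-!
# Tails: regions and minorants

`RgA .. RgK`: regions which contain all positions `(X, Y)` (in the own frame of the untouched region
`C`) of the second variable of `C`.
-/

namespace Pool.Agent.Work.MP_b30479_gtS.G2



namespace TL

/-- class one next to class one -/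
def RgA (X Y : ℝ) : Prop := 0 ≤ X ∧ X ≤ 8 / 10 ∧ Y ≤ 85 / 100 * X ∧ Y ≤ 136 / 1000 ∧
  Y ≤ 3091 / 10000 * (8 / 10 - X) ∧ -(64 / 100) * X ≤ Y ∧ -(96 / 1000) ≤ Y ∧
  -(48 / 100) * (8 / 10 - X) ≤ Y

/-- class one next to class two -/
def RgB (X Y : ℝ) : Prop := 0 ≤ X ∧ X ≤ 86 / 100 ∧ Y ≤ 907 / 1000 * X ∧ Y ≤ 145 / 1000 ∧
  Y ≤ 29 / 100 * (86 / 100 - X) ∧ -(62 / 100) * X ≤ Y ∧ -(93 / 1000) ≤ Y ∧
  -(465 / 1000) * (86 / 100 - X) ≤ Y

/-- class one next to class three, the other neighbour is of class one or two -/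
def RgC (X Y : ℝ) : Prop := 0 ≤ X ∧ X ≤ 86 / 100 ∧ Y ≤ 52 / 100 * X ∧ Y ≤ 77 / 1000 ∧
  Y ≤ 25 / 100 * (86 / 100 - X) ∧ -(607 / 1000) * X ≤ Y ∧ -(91 / 1000) ≤ Y ∧
  -(455 / 1000) * (86 / 100 - X) ≤ Y

/-- class one between class three and class two at an end -/
def RgE (X Y : ℝ) : Prop := 8 / 100 ≤ X ∧ X ≤ 7 / 10 ∧ Y ≤ 0 ∧ -(322 / 1000) * X ≤ Y ∧
  -(45 / 1000) ≤ Y ∧ -(129 / 1000) * (7 / 10 - X) ≤ Y

/-- class two -/
def RgD (X Y : ℝ) : Prop := 0 ≤ X ∧ X ≤ 6 / 10 ∧ Y ≤ 77 / 100 * X ∧ Y ≤ 96 / 1000 ∧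
  Y ≤ 32 / 100 * (6 / 10 - X) + 125 / 10000 ∧ -(85 / 100) * X ≤ Y ∧ -(985 / 10000) ≤ Y ∧
  -(34 / 100) * (8 / 10 - X) ≤ Y

/-- inner variable of an interior three, the slot `0` is moved -/
def RgL (X Y : ℝ) : Prop := 2 / 10 ≤ X ∧ X ≤ 8 / 10 ∧ Y ≤ 5 / 1000 ∧ Y ≤ 1 / 10 * (8 / 10 - X) ∧
  -(123 / 1000) ≤ Y ∧ -(246 / 100) * (8 / 10 - X) ≤ Y

/-- inner variable of an interior three, the slot `2` is moved -/
def RgK (X Y : ℝ) : Prop := 0 ≤ X ∧ X ≤ 8 / 10 ∧ Y ≤ 5 / 1000 ∧ Y ≤ 1 / 10 * X ∧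
  Y ≤ 1 / 10 * (8 / 10 - X) ∧ -(123 / 1000) ≤ Y ∧ -(246 / 100) * X ≤ Y ∧
  -(246 / 100) * (8 / 10 - X) ≤ Y

end TL

end Pool.Agent.Work.MP_b30479_gtS.G2

end

section

/-!
# Verified numerics for the kernel, part 1: fixed point numbers and first order affine forms

Scale `D = 2 ^ 36`.  Only `Nat` operations are used (the kernel evaluates `Nat.add`, `Nat.sub`,
`Nat.mul`, `Nat.div`, `Nat.mod`, `Nat.pow`, `Nat.log2`, `Nat.ble`, `Nat.beq` with big integers); a
signed number is a pair `(p, q)`, standing for `(p - q) / D`.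

An affine form `⟨p, q, r, g⟩` encloses `x` (for noise symbols `ε i ∈ [-1, 1]`) if
`|x * D - ((p - q) + ∑ g i * ε i)| ≤ r`.
-/

namespace Pool.Agent.Work.NumIs

/-- `cond` in a form which the kernel evaluates quickly -/
def cnd {α : Type} (b : Bool) (x y : α) : α := Bool.casesOn (motive := fun _ => α) b y x

theorem cnd_eq {α : Type} (b : Bool) (x y : α) : cnd b x y = cond b x y := by cases b <;> rfl


/-- the scale, as a real number -/
noncomputable def DR : ℝ := 68719476736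

lemma DR_pos : 0 < DR := by unfold DR; norm_num
lemma DR_ne : DR ≠ 0 := DR_pos.ne'
lemma DN_cast : ((68719476736 : ℕ) : ℝ) = DR := by unfold DR; norm_num

lemma ndiv_le (a b : ℕ) : ((a / b : ℕ) : ℝ) ≤ (a : ℝ) / b := Nat.cast_div_le

lemma lt_ndiv (a : ℕ) {b : ℕ} (hb : 0 < b) : (a : ℝ) / b < ((a / b : ℕ) : ℝ) + 1 := by
  have hb' : (0 : ℝ) < b := by exact_mod_cast hb
  rw [div_lt_iff₀ hb']
  exact_mod_cast Nat.lt_succ_mul_div_self' a hb
where
  Nat.lt_succ_mul_div_self' (a : ℕ) {b : ℕ} (hb : 0 < b) : a < (a / b + 1) * b := by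
    have := Nat.lt_mul_div_succ a hb
    rwa [mul_comm] at this

/-- truncated differences give a signed normal form -/
lemma sub_sub_cast (P Q : ℕ) : ((P - Q : ℕ) : ℝ) - ((Q - P : ℕ) : ℝ) = (P : ℝ) - Q := by
  rcases le_total P Q with h | h
  · rw [Nat.sub_eq_zero_of_le h, Nat.cast_sub h]; simp
  · rw [Nat.sub_eq_zero_of_le h, Nat.cast_sub h]; simp

lemma add_sub_cast (P Q : ℕ) : ((P - Q : ℕ) : ℝ) + ((Q - P : ℕ) : ℝ) = |(P : ℝ) - Q| := by
  rcases le_total P Q with h | h
  · have h' : (P : ℝ) ≤ Q := by exact_mod_cast h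
    rw [Nat.sub_eq_zero_of_le h, Nat.cast_sub h, abs_of_nonpos (by linarith)]; simp
  · have h' : (Q : ℝ) ≤ P := by exact_mod_cast h
    rw [Nat.sub_eq_zero_of_le h, Nat.cast_sub h, abs_of_nonneg (by linarith)]; simp

/-- the rounding error of the signed division is at most one unit -/
lemma sdiv_err (P Q : ℕ) {b : ℕ} (hb : 0 < b) :
    |(((P - Q) / b : ℕ) : ℝ) - (((Q - P) / b : ℕ) : ℝ) - ((P : ℝ) - Q) / b| ≤ 1 := by
  have hb' : (0 : ℝ) < b := by exact_mod_cast hb
  rw [← sub_sub_cast P Q, sub_div]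
  have h1 := ndiv_le (P - Q) b
  have h2 := lt_ndiv (P - Q) hb
  have h3 := ndiv_le (Q - P) b
  have h4 := lt_ndiv (Q - P) hb
  rcases le_total P Q with h | h
  · have h0 : P - Q = 0 := Nat.sub_eq_zero_of_le h
    rw [h0] at h1 h2 ⊢
    simp only [Nat.cast_zero, zero_div, Nat.zero_div] at h1 h2 ⊢
    rw [abs_le]; constructor <;> linarith
  · have h0 : Q - P = 0 := Nat.sub_eq_zero_of_le h
    rw [h0] at h3 h4 ⊢
    simp only [Nat.cast_zero, zero_div, Nat.zero_div] at h3 h4 ⊢
    rw [abs_le]; constructor <;> linarith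

/-- coefficients of the noise symbols: `z` is a coefficient zero, `c p q` is `p - q` -/
inductive G where
  | nil : G
  | z : G → G
  | c : ℕ → ℕ → G → G

namespace G

/-- the value of the linear part -/
noncomputable def ev : G → (ℕ → ℝ) → ℝ
  | nil, _ => 0
  | z t, ε => t.ev (fun n => ε (n + 1))
  | c p q t, ε => ((p : ℝ) - q) * ε 0 + t.ev (fun n => ε (n + 1))

/-- sum of the absolute values of the coefficients -/
def nrm : G → ℕ
  | nil => 0
  | z t => t.nrm
  | c p q t => Nat.add (Nat.add p q) t.nrm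

/-- number of nonzero coefficients -/
def len : G → ℕ
  | nil => 0
  | z t => t.len
  | c _ _ t => Nat.add t.len 1

lemma abs_ev_le : ∀ (g : G) {ε : ℕ → ℝ}, (∀ i, |ε i| ≤ 1) → |g.ev ε| ≤ (g.nrm : ℝ)
  | nil, ε, _ => by simp [ev, nrm]
  | z t, ε, h => abs_ev_le t (fun i => h (i + 1))
  | c p q t, ε, h => by
    have ih := abs_ev_le t (fun i => h (i + 1))
    have e : ((c p q t).nrm : ℝ) = (p : ℝ) + q + t.nrm := by
      change ((p + q + t.nrm : ℕ) : ℝ) = _
      push_cast; ring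
    rw [e]
    unfold ev
    refine (abs_add_le _ _).trans (add_le_add ?_ ih)
    rw [abs_mul]
    have h1 : |(p : ℝ) - q| ≤ p + q := by
      have hp : (0 : ℝ) ≤ p := Nat.cast_nonneg _
      have hq : (0 : ℝ) ≤ q := Nat.cast_nonneg _
      rw [abs_le]; constructor <;> linarith
    calc |(p : ℝ) - q| * |ε 0| ≤ |(p : ℝ) - q| * 1 :=
          mul_le_mul_of_nonneg_left (h 0) (abs_nonneg _)
      _ ≤ _ := by rw [mul_one]; exact h1

/-- addition -/
def add : G → G → G
  | nil, h => h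
  | z s, nil => z s
  | z s, z t => z (add s t)
  | z s, c p q t => c p q (add s t)
  | c p q s, nil => c p q s
  | c p q s, z t => c p q (add s t)
  | c p q s, c p' q' t => c (Nat.sub (Nat.add p p') (Nat.add q q')) (Nat.sub (Nat.add q q') (Nat.add p p')) (add s t)

lemma ev_add : ∀ (s t : G) (ε : ℕ → ℝ), (add s t).ev ε = s.ev ε + t.ev ε
  | nil, h, ε => by simp [add, ev]
  | z s, nil, ε => by simp [add, ev]
  | z s, z t, ε => by simp [add, ev, ev_add s t]
  | z s, c p q t, ε => by simp only [add, ev, ev_add s t]; ring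
  | c p q s, nil, ε => by simp [add, ev]
  | c p q s, z t, ε => by simp only [add, ev, ev_add s t]; ring
  | c p q s, c p' q' t, ε => by
    simp only [add, ev, ev_add s t]
    have e : ((Nat.sub (Nat.add p p') (Nat.add q q') : ℕ) : ℝ) - ((Nat.sub (Nat.add q q') (Nat.add p p') : ℕ) : ℝ) =
        ((p : ℝ) - q) + ((p' : ℝ) - q') := by
      have := sub_sub_cast (p + p') (q + q')
      push_cast at this
      change (((p + p') - (q + q') : ℕ) : ℝ) - (((q + q') - (p + p') : ℕ) : ℝ) = _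
      rw [this]; ring
    rw [e]; ring

def neg : G → G
  | nil => nil
  | z t => z t.neg
  | c p q t => c q p t.neg

lemma ev_neg : ∀ (s : G) (ε : ℕ → ℝ), s.neg.ev ε = -s.ev ε
  | nil, ε => by simp [neg, ev]
  | z s, ε => by simp [neg, ev, ev_neg s]
  | c p q s, ε => by simp only [neg, ev, ev_neg s]; ring

/-- multiplication by `(s - t) / D` -/
def scl (s t : ℕ) : G → G
  | nil => nil
  | z u => z (scl s t u)
  | c p q u => c (Nat.div (Nat.sub (Nat.add (Nat.mul p s) (Nat.mul q t)) (Nat.add (Nat.mul p t) (Nat.mul q s))) 68719476736)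
      (Nat.div (Nat.sub (Nat.add (Nat.mul p t) (Nat.mul q s)) (Nat.add (Nat.mul p s) (Nat.mul q t))) 68719476736) (scl s t u)

lemma len_scl (s t : ℕ) : ∀ g : G, (scl s t g).len = g.len
  | nil => rfl
  | z u => len_scl s t u
  | c p q u => by
    change (scl s t u).len + 1 = u.len + 1
    rw [len_scl s t u]

lemma scl_err (s t : ℕ) : ∀ (g : G) {ε : ℕ → ℝ}, (∀ i, |ε i| ≤ 1) →
    |(scl s t g).ev ε - ((s : ℝ) - t) / DR * g.ev ε| ≤ (g.len : ℝ)
  | nil, ε, _ => by simp [scl, ev, len]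
  | z u, ε, h => scl_err s t u (fun i => h (i + 1))
  | c p q u, ε, h => by
    have ih := scl_err s t u (fun i => h (i + 1))
    have e : ((c p q u).len : ℝ) = 1 + u.len := by
      change ((u.len + 1 : ℕ) : ℝ) = _
      push_cast; ring
    rw [e]
    have k := sdiv_err (p * s + q * t) (p * t + q * s) (b := 68719476736) (by norm_num)
    rw [DN_cast] at k
    change |((((p * s + q * t - (p * t + q * s)) / 68719476736 : ℕ) : ℝ) -
      (((p * t + q * s - (p * s + q * t)) / 68719476736 : ℕ) : ℝ)) * ε 0 +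
      (scl s t u).ev (fun n => ε (n + 1)) -
      ((s : ℝ) - t) / DR * (((p : ℝ) - q) * ε 0 + u.ev (fun n => ε (n + 1)))| ≤ _
    push_cast at k
    set X := (((p * s + q * t - (p * t + q * s)) / 68719476736 : ℕ) : ℝ)
    set Y := (((p * t + q * s - (p * s + q * t)) / 68719476736 : ℕ) : ℝ)
    set U := (scl s t u).ev (fun n => ε (n + 1))
    set W := u.ev (fun n => ε (n + 1))
    have e2 : (X - Y) * ε 0 + U - ((s : ℝ) - t) / DR * (((p : ℝ) - q) * ε 0 + W) =
        (X - Y - ((p : ℝ) * s + q * t - (p * t + q * s)) / DR) * ε 0 +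
        (U - ((s : ℝ) - t) / DR * W) := by ring
    rw [e2]
    refine (abs_add_le _ _).trans (add_le_add ?_ ih)
    rw [abs_mul]
    calc _ ≤ 1 * |ε 0| := mul_le_mul_of_nonneg_right k (abs_nonneg _)
      _ ≤ 1 := by rw [one_mul]; exact h 0

/-- `(s - t) / D * g + (s' - t') / D * g'` -/
def lin (s t s' t' : ℕ) : G → G → G
  | nil, h => scl s' t' h
  | z u, nil => z (scl s t u)
  | z u, z v => z (lin s t s' t' u v)
  | z u, c p q v => c (Nat.div (Nat.sub (Nat.add (Nat.mul p s') (Nat.mul q t')) (Nat.add (Nat.mul p t') (Nat.mul q s'))) 68719476736)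
      (Nat.div (Nat.sub (Nat.add (Nat.mul p t') (Nat.mul q s')) (Nat.add (Nat.mul p s') (Nat.mul q t'))) 68719476736) (lin s t s' t' u v)
  | c p q u, nil => scl s t (c p q u)
  | c p q u, z v => c (Nat.div (Nat.sub (Nat.add (Nat.mul p s) (Nat.mul q t)) (Nat.add (Nat.mul p t) (Nat.mul q s))) 68719476736)
      (Nat.div (Nat.sub (Nat.add (Nat.mul p t) (Nat.mul q s)) (Nat.add (Nat.mul p s) (Nat.mul q t))) 68719476736) (lin s t s' t' u v)
  | c p q u, c p' q' v =>
      c (Nat.div (Nat.sub (Nat.add (Nat.add (Nat.mul p s) (Nat.mul q t)) (Nat.add (Nat.mul p' s') (Nat.mul q' t'))) (Nat.add (Nat.add (Nat.mul p t) (Nat.mul q s)) (Nat.add (Nat.mul p' t') (Nat.mul q' s')))) 68719476736)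
        (Nat.div (Nat.sub (Nat.add (Nat.add (Nat.mul p t) (Nat.mul q s)) (Nat.add (Nat.mul p' t') (Nat.mul q' s'))) (Nat.add (Nat.add (Nat.mul p s) (Nat.mul q t)) (Nat.add (Nat.mul p' s') (Nat.mul q' t')))) 68719476736) (lin s t s' t' u v)

/-- one step of the error estimate -/
lemma step_err {P Q : ℕ} {x A B W L : ℝ} {ε0 : ℝ} (h0 : |ε0| ≤ 1)
    (hx : ((P : ℝ) - Q) / DR = x) (ih : |A - B| ≤ L) (hW : W = x * ε0 + B) :
    |((((P - Q) / 68719476736 : ℕ) : ℝ) - (((Q - P) / 68719476736 : ℕ) : ℝ)) * ε0 + A - W| ≤ 1 + L := by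
  have k := sdiv_err P Q (b := 68719476736) (by norm_num)
  rw [DN_cast, hx] at k
  rw [hW]
  set X := (((P - Q) / 68719476736 : ℕ) : ℝ)
  set Y := (((Q - P) / 68719476736 : ℕ) : ℝ)
  have e2 : (X - Y) * ε0 + A - (x * ε0 + B) = (X - Y - x) * ε0 + (A - B) := by ring
  rw [e2]
  refine (abs_add_le _ _).trans (add_le_add ?_ ih)
  rw [abs_mul]
  calc _ ≤ 1 * |ε0| := mul_le_mul_of_nonneg_right k (abs_nonneg _)
    _ ≤ 1 := by rw [one_mul]; exact h0

lemma lin_err (s t s' t' : ℕ) : ∀ (g g' : G) {ε : ℕ → ℝ}, (∀ i, |ε i| ≤ 1) →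
    |(lin s t s' t' g g').ev ε - (((s : ℝ) - t) / DR * g.ev ε + ((s' : ℝ) - t') / DR * g'.ev ε)| ≤
      ((lin s t s' t' g g').len : ℝ)
  | nil, g', ε, h => by
    have := scl_err s' t' g' h
    simp only [lin, ev, mul_zero, zero_add, len_scl]
    exact this
  | z u, nil, ε, h => by
    have := scl_err s t u (fun i => h (i + 1))
    simp only [lin, ev, mul_zero, add_zero, len, len_scl]
    exact this
  | z u, z v, ε, h => lin_err s t s' t' u v (fun i => h (i + 1))
  | z u, c p q v, ε, h => by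
    have ih := lin_err s t s' t' u v (fun i => h (i + 1))
    have e : ((lin s t s' t' (z u) (c p q v)).len : ℝ) = 1 + (lin s t s' t' u v).len := by
      change (((lin s t s' t' u v).len + 1 : ℕ) : ℝ) = _
      push_cast; ring
    rw [e]
    refine step_err (P := p * s' + q * t') (Q := p * t' + q * s')
      (x := ((s' : ℝ) - t') / DR * ((p : ℝ) - q)) (h 0) ?_ ih ?_
    · push_cast; ring
    · simp only [ev]; ring
  | c p q u, nil, ε, h => by
    have := scl_err s t (c p q u) h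
    have e : lin s t s' t' (c p q u) nil = scl s t (c p q u) := rfl
    rw [e, len_scl]
    simpa only [ev, mul_zero, add_zero] using this
  | c p q u, z v, ε, h => by
    have ih := lin_err s t s' t' u v (fun i => h (i + 1))
    have e : ((lin s t s' t' (c p q u) (z v)).len : ℝ) = 1 + (lin s t s' t' u v).len := by
      change (((lin s t s' t' u v).len + 1 : ℕ) : ℝ) = _
      push_cast; ring
    rw [e]
    refine step_err (P := p * s + q * t) (Q := p * t + q * s)
      (x := ((s : ℝ) - t) / DR * ((p : ℝ) - q)) (h 0) ?_ ih ?_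
    · push_cast; ring
    · simp only [ev]; ring
  | c p q u, c p' q' v, ε, h => by
    have ih := lin_err s t s' t' u v (fun i => h (i + 1))
    have e : ((lin s t s' t' (c p q u) (c p' q' v)).len : ℝ) = 1 + (lin s t s' t' u v).len := by
      change (((lin s t s' t' u v).len + 1 : ℕ) : ℝ) = _
      push_cast; ring
    rw [e]
    refine step_err (P := p * s + q * t + (p' * s' + q' * t')) (Q := p * t + q * s + (p' * t' + q' * s'))
      (x := ((s : ℝ) - t) / DR * ((p : ℝ) - q) + ((s' : ℝ) - t') / DR * ((p' : ℝ) - q')) (h 0) ?_ ih ?_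
    · push_cast; ring
    · simp only [ev]; ring

end G

end Pool.Agent.Work.NumIs

end

section

/-!
# Verified numerics for the kernel, part 2: the ring operations on affine forms
-/

namespace Pool.Agent.Work.NumIs

/-- an affine form -/
structure A where
  p : ℕ
  q : ℕ
  r : ℕ
  g : G

namespace A

/-- `a` encloses `x` for the values `ε` of the noise symbols -/
def Encl (a : A) (ε : ℕ → ℝ) (x : ℝ) : Prop :=
  |x * DR - ((a.p : ℝ) - a.q + a.g.ev ε)| ≤ (a.r : ℝ)

/-- total radius -/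
def tot (a : A) : ℕ := Nat.add a.g.nrm a.r

/-- `x * D` is within `tot` of the centre -/
lemma Encl.tot {a : A} {ε : ℕ → ℝ} {x : ℝ} (h : a.Encl ε x) (hε : ∀ i, |ε i| ≤ 1) :
    |x * DR - ((a.p : ℝ) - a.q)| ≤ (a.tot : ℝ) := by
  have h1 := a.g.abs_ev_le hε
  have e : (a.tot : ℝ) = a.g.nrm + a.r := by
    change ((a.g.nrm + a.r : ℕ) : ℝ) = _
    push_cast; ring
  rw [e]
  have e2 : x * DR - ((a.p : ℝ) - a.q) = a.g.ev ε + (x * DR - ((a.p : ℝ) - a.q + a.g.ev ε)) := by ring
  rw [e2]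
  exact (abs_add_le _ _).trans (add_le_add h1 h)

def add (a b : A) : A :=
  ⟨Nat.sub (Nat.add a.p b.p) (Nat.add a.q b.q), Nat.sub (Nat.add a.q b.q) (Nat.add a.p b.p), Nat.add a.r b.r, a.g.add b.g⟩

lemma Encl.add {a b : A} {ε : ℕ → ℝ} {x y : ℝ} (hx : a.Encl ε x) (hy : b.Encl ε y) :
    (a.add b).Encl ε (x + y) := by
  unfold Encl at *
  have k := sub_sub_cast (a.p + b.p) (a.q + b.q)
  change |(x + y) * DR - (((a.p + b.p - (a.q + b.q) : ℕ) : ℝ) - ((a.q + b.q - (a.p + b.p) : ℕ) : ℝ)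
    + (a.g.add b.g).ev ε)| ≤ ((a.r + b.r : ℕ) : ℝ)
  rw [k, G.ev_add]
  push_cast
  have e : (x + y) * DR - ((a.p : ℝ) + b.p - (a.q + b.q) + (a.g.ev ε + b.g.ev ε)) =
      (x * DR - ((a.p : ℝ) - a.q + a.g.ev ε)) + (y * DR - ((b.p : ℝ) - b.q + b.g.ev ε)) := by ring
  rw [e]
  exact (abs_add_le _ _).trans (add_le_add hx hy)

def neg (a : A) : A := ⟨a.q, a.p, a.r, a.g.neg⟩

lemma Encl.neg {a : A} {ε : ℕ → ℝ} {x : ℝ} (hx : a.Encl ε x) : (a.neg).Encl ε (-x) := by
  unfold Encl at *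
  change |(-x) * DR - ((a.q : ℝ) - a.p + a.g.neg.ev ε)| ≤ (a.r : ℝ)
  rw [G.ev_neg]
  have e : (-x) * DR - ((a.q : ℝ) - a.p + -a.g.ev ε) = -(x * DR - ((a.p : ℝ) - a.q + a.g.ev ε)) := by
    ring
  rw [e, abs_neg]
  exact hx

def sub (a b : A) : A := a.add b.neg

lemma Encl.sub {a b : A} {ε : ℕ → ℝ} {x y : ℝ} (hx : a.Encl ε x) (hy : b.Encl ε y) :
    (a.sub b).Encl ε (x - y) := by
  rw [sub_eq_add_neg]
  exact hx.add hy.neg

/-- product -/
def mul (a b : A) : A :=
  let g := G.lin a.p a.q b.p b.q b.g a.g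
  let P := Nat.add (Nat.mul a.p b.p) (Nat.mul a.q b.q)
  let Q := Nat.add (Nat.mul a.p b.q) (Nat.mul a.q b.p)
  ⟨Nat.div (Nat.sub P Q) 68719476736, Nat.div (Nat.sub Q P) 68719476736,
    Nat.add (Nat.add (Nat.div (Nat.add (Nat.add (Nat.mul (Nat.add a.p a.q) b.r) (Nat.mul (Nat.add b.p b.q) a.r)) (Nat.mul a.tot b.tot)) 68719476736) g.len) 2, g⟩

lemma abs_pq (p q : ℕ) : |(p : ℝ) - q| ≤ (p : ℝ) + q := by
  have hp : (0 : ℝ) ≤ p := Nat.cast_nonneg _
  have hq : (0 : ℝ) ≤ q := Nat.cast_nonneg _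
  rw [abs_le]; constructor <;> linarith only []

lemma Encl.mul {a b : A} {ε : ℕ → ℝ} {x y : ℝ} (hε : ∀ i, |ε i| ≤ 1) (hx : a.Encl ε x)
    (hy : b.Encl ε y) : (a.mul b).Encl ε (x * y) := by
  have hD := DR_pos
  have tx := hx.tot hε
  have ty := hy.tot hε
  unfold Encl at hx hy
  have hl := G.lin_err a.p a.q b.p b.q b.g a.g hε
  have k := sdiv_err (a.p * b.p + a.q * b.q) (a.p * b.q + a.q * b.p) (b := 68719476736) (by norm_num)
  rw [DN_cast] at k
  have kr := lt_ndiv ((a.p + a.q) * b.r + (b.p + b.q) * a.r + a.tot * b.tot)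
    (b := 68719476736) (by norm_num)
  rw [DN_cast] at kr
  unfold Encl
  change |x * y * DR - ((((a.p * b.p + a.q * b.q - (a.p * b.q + a.q * b.p)) / 68719476736 : ℕ) : ℝ) -
    (((a.p * b.q + a.q * b.p - (a.p * b.p + a.q * b.q)) / 68719476736 : ℕ) : ℝ) +
    (G.lin a.p a.q b.p b.q b.g a.g).ev ε)| ≤
    ((((a.p + a.q) * b.r + (b.p + b.q) * a.r + a.tot * b.tot) / 68719476736 +
      (G.lin a.p a.q b.p b.q b.g a.g).len + 2 : ℕ) : ℝ)
  push_cast at k kr ⊢
  set X := (((a.p * b.p + a.q * b.q - (a.p * b.q + a.q * b.p)) / 68719476736 : ℕ) : ℝ)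
  set Y := (((a.p * b.q + a.q * b.p - (a.p * b.p + a.q * b.q)) / 68719476736 : ℕ) : ℝ)
  set R := ((((a.p + a.q) * b.r + (b.p + b.q) * a.r + a.tot * b.tot) / 68719476736 : ℕ) : ℝ)
  set L := (G.lin a.p a.q b.p b.q b.g a.g).ev ε
  set n := ((G.lin a.p a.q b.p b.q b.g a.g).len : ℝ)
  set c1 : ℝ := (a.p : ℝ) - a.q with hc1
  set c2 : ℝ := (b.p : ℝ) - b.q with hc2
  set G1 := a.g.ev ε
  set G2 := b.g.ev ε
  set ρ1 := x * DR - (c1 + G1) with hρ1
  set ρ2 := y * DR - (c2 + G2) with hρ2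
  set u1 := x * DR - c1 with hu1
  set u2 := y * DR - c2 with hu2
  have e : x * y * DR - (X - Y + L) =
      -(X - Y - ((a.p : ℝ) * b.p + a.q * b.q - (a.p * b.q + a.q * b.p)) / DR) +
      (-(L - (c1 / DR * G2 + c2 / DR * G1))) + (c1 * ρ2 + c2 * ρ1 + u1 * u2) / DR := by
    rw [hρ1, hρ2, hu1, hu2, hc1, hc2]
    field_simp
    ring
  rw [e]
  have m1 : |c1 * ρ2| ≤ ((a.p : ℝ) + a.q) * b.r := by
    rw [abs_mul]
    exact mul_le_mul (abs_pq _ _) hy (abs_nonneg _) (by positivity)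
  have m2 : |c2 * ρ1| ≤ ((b.p : ℝ) + b.q) * a.r := by
    rw [abs_mul]
    exact mul_le_mul (abs_pq _ _) hx (abs_nonneg _) (by positivity)
  have m3 : |u1 * u2| ≤ (a.tot : ℝ) * b.tot := by
    rw [abs_mul]
    exact mul_le_mul tx ty (abs_nonneg _) (by positivity)
  have m4 : |(c1 * ρ2 + c2 * ρ1 + u1 * u2) / DR| ≤
      (((a.p : ℝ) + a.q) * b.r + (b.p + b.q) * a.r + a.tot * b.tot) / DR := by
    rw [abs_div, abs_of_pos hD]
    gcongr
    exact (abs_add_three _ _ _).trans (by linarith only [m1, m2, m3])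
  have k' : |-(X - Y - ((a.p : ℝ) * b.p + a.q * b.q - (a.p * b.q + a.q * b.p)) / DR)| ≤ 1 := by
    rw [abs_neg]; exact k
  have hl' : |-(L - (c1 / DR * G2 + c2 / DR * G1))| ≤ n := by rw [abs_neg]; exact hl
  refine (abs_add_three _ _ _).trans ?_
  linarith only [kr, m4, k', hl']

/-- square -/
def sq (a : A) : A :=
  let g := G.scl (Nat.mul 2 a.p) (Nat.mul 2 a.q) a.g
  let t := a.tot
  ⟨Nat.div (Nat.add (Nat.mul 2 (Nat.mul (Nat.add a.p a.q) (Nat.add a.p a.q))) (Nat.mul t t)) 137438953472, 0,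
    Nat.add (Nat.add (Nat.div (Nat.add (Nat.mul (Nat.mul 4 (Nat.add a.p a.q)) a.r) (Nat.mul t t)) 137438953472) g.len) 2, g⟩

lemma Encl.sq {a : A} {ε : ℕ → ℝ} {x : ℝ} (hε : ∀ i, |ε i| ≤ 1) (hx : a.Encl ε x)
    (hn : a.p = 0 ∨ a.q = 0) : (a.sq).Encl ε (x ^ 2) := by
  have hD := DR_pos
  have tx := hx.tot hε
  unfold Encl at hx
  have hl := G.scl_err (2 * a.p) (2 * a.q) a.g hε
  have k1 := ndiv_le (2 * ((a.p + a.q) * (a.p + a.q)) + a.tot * a.tot) 137438953472
  have k2 := lt_ndiv (2 * ((a.p + a.q) * (a.p + a.q)) + a.tot * a.tot) (b := 137438953472) (by norm_num)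
  have kr := lt_ndiv (4 * (a.p + a.q) * a.r + a.tot * a.tot) (b := 137438953472) (by norm_num)
  have hDD : ((137438953472 : ℕ) : ℝ) = 2 * DR := by unfold DR; norm_num
  rw [hDD] at k1 k2 kr
  unfold Encl
  change |x ^ 2 * DR - ((((2 * ((a.p + a.q) * (a.p + a.q)) + a.tot * a.tot) / 137438953472 : ℕ) : ℝ) -
    ((0 : ℕ) : ℝ) + (G.scl (2 * a.p) (2 * a.q) a.g).ev ε)| ≤
    (((4 * (a.p + a.q) * a.r + a.tot * a.tot) / 137438953472 +
      (G.scl (2 * a.p) (2 * a.q) a.g).len + 2 : ℕ) : ℝ)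
  rw [G.len_scl]
  push_cast at k1 k2 kr hl ⊢
  set X := (((2 * ((a.p + a.q) * (a.p + a.q)) + a.tot * a.tot) / 137438953472 : ℕ) : ℝ)
  set R := (((4 * (a.p + a.q) * a.r + a.tot * a.tot) / 137438953472 : ℕ) : ℝ)
  set L := (G.scl (2 * a.p) (2 * a.q) a.g).ev ε
  set n := (a.g.len : ℝ)
  set T := (a.tot : ℝ)
  have hpq : ((a.p : ℝ) + a.q) * (a.p + a.q) = ((a.p : ℝ) - a.q) * (a.p - a.q) := by
    rcases hn with h | h <;> rw [h] <;> push_cast <;> ring
  rw [hpq] at k1 k2
  have hp := abs_pq a.p a.q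
  set c1 : ℝ := (a.p : ℝ) - a.q with hc1
  set G1 := a.g.ev ε
  set ρ1 := x * DR - (c1 + G1) with hρ1
  set u1 := x * DR - c1 with hu1
  have e : x ^ 2 * DR - (X - 0 + L) =
      ((2 * (c1 * c1) + T * T) / (2 * DR) - X) +
      (-(L - ((2 * (a.p : ℝ) - 2 * a.q) / DR * G1))) + (2 * c1 * ρ1) / DR +
      (2 * u1 ^ 2 - T * T) / (2 * DR) := by
    rw [hρ1, hu1, hc1]
    field_simp
    ring
  rw [e]
  have hu : 0 ≤ u1 ^ 2 := sq_nonneg _
  have hu2 : u1 ^ 2 ≤ T * T := by
    have := mul_le_mul tx tx (abs_nonneg _) ((abs_nonneg _).trans tx)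
    rw [← abs_mul, abs_of_nonneg (mul_self_nonneg _)] at this
    nlinarith only [this]
  have m1 : |(2 * c1 * ρ1) / DR| ≤ (4 * ((a.p : ℝ) + a.q) * a.r) / (2 * DR) := by
    rw [abs_div, abs_of_pos hD, div_le_div_iff₀ hD (by positivity)]
    rw [abs_mul, abs_mul]
    have : |c1| * |ρ1| ≤ ((a.p : ℝ) + a.q) * a.r :=
      mul_le_mul hp hx (abs_nonneg _) (by positivity)
    rw [abs_two]
    nlinarith only [hD, this]
  have m2 : |(2 * u1 ^ 2 - T * T) / (2 * DR)| ≤ T * T / (2 * DR) := by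
    rw [abs_div, abs_of_pos (by positivity : 0 < 2 * DR)]
    gcongr
    rw [abs_le]; constructor <;> linarith only [hu, hu2]
  have m3 : |(2 * (c1 * c1) + T * T) / (2 * DR) - X| ≤ 1 := by
    rw [abs_le]; constructor <;> linarith only [k1, k2]
  have m4 : |-(L - ((2 * (a.p : ℝ) - 2 * a.q) / DR * G1))| ≤ n := by rw [abs_neg]; exact hl
  have s1 := abs_add_le (((2 * (c1 * c1) + T * T) / (2 * DR) - X) +
      (-(L - ((2 * (a.p : ℝ) - 2 * a.q) / DR * G1))) + (2 * c1 * ρ1) / DR)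
      ((2 * u1 ^ 2 - T * T) / (2 * DR))
  have s2 := abs_add_three ((2 * (c1 * c1) + T * T) / (2 * DR) - X)
      (-(L - ((2 * (a.p : ℝ) - 2 * a.q) / DR * G1))) ((2 * c1 * ρ1) / DR)
  have s3 : (4 * ((a.p : ℝ) + a.q) * a.r + T * T) / (2 * DR) =
      (4 * ((a.p : ℝ) + a.q) * a.r) / (2 * DR) + T * T / (2 * DR) := by ring
  rw [s3] at kr
  linarith only [kr, m1, m2, m3, m4, s1, s2]

/-- normal form of a centre -/
def nf (a : A) : A := ⟨Nat.sub a.p a.q, Nat.sub a.q a.p, a.r, a.g⟩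

lemma Encl.nf {a : A} {ε : ℕ → ℝ} {x : ℝ} (hx : a.Encl ε x) : (a.nf).Encl ε x := by
  unfold Encl at *
  have := sub_sub_cast a.p a.q
  change |x * DR - (((a.p - a.q : ℕ) : ℝ) - ((a.q - a.p : ℕ) : ℝ) + a.g.ev ε)| ≤ _
  rw [this]
  exact hx

/-- the general rule for a function of one variable: `F = f(c)`, error `e0`; `F' = f'(c)`,
error `e1`; second order remainder at most `k2` -/
def app (a : A) (F1 F2 e0 S1 S2 e1 k2 : ℕ) : A :=
  ⟨F1, F2, Nat.add (Nat.add (Nat.add (Nat.add e0 (Nat.div (Nat.add (Nat.mul (Nat.add S1 S2) a.r) (Nat.mul e1 a.tot)) 68719476736)) k2) a.g.len) 1,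
    G.scl S1 S2 a.g⟩

lemma Encl.app {a : A} {ε : ℕ → ℝ} {x : ℝ} (hε : ∀ i, |ε i| ≤ 1) (hx : a.Encl ε x)
    (f : ℝ → ℝ) (d : ℝ) {F1 F2 e0 S1 S2 e1 k2 : ℕ}
    (h0 : |f (((a.p : ℝ) - a.q) / DR) * DR - ((F1 : ℝ) - F2)| ≤ e0)
    (h1 : |d * DR - ((S1 : ℝ) - S2)| ≤ e1)
    (h2 : ∀ δ : ℝ, |δ| ≤ (a.tot : ℝ) →
      |f (((a.p : ℝ) - a.q + δ) / DR) * DR - f (((a.p : ℝ) - a.q) / DR) * DR - d * δ| ≤ k2) :
    (a.app F1 F2 e0 S1 S2 e1 k2).Encl ε (f x) := by
  have hD := DR_pos
  have tx := hx.tot hε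
  have k2' := h2 _ tx
  have hxx : ((a.p : ℝ) - a.q + (x * DR - (a.p - a.q))) / DR = x := by field_simp; ring
  rw [hxx] at k2'
  have hl := G.scl_err S1 S2 a.g hε
  have kr := lt_ndiv ((S1 + S2) * a.r + e1 * a.tot) (b := 68719476736) (by norm_num)
  rw [DN_cast] at kr
  unfold Encl at hx
  unfold Encl
  change |f x * DR - ((F1 : ℝ) - F2 + (G.scl S1 S2 a.g).ev ε)| ≤
    ((e0 + ((S1 + S2) * a.r + e1 * a.tot) / 68719476736 + k2 + a.g.len + 1 : ℕ) : ℝ)
  push_cast at kr ⊢
  set R := ((((S1 + S2) * a.r + e1 * a.tot) / 68719476736 : ℕ) : ℝ)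
  set L := (G.scl S1 S2 a.g).ev ε
  set n := (a.g.len : ℝ)
  set T := (a.tot : ℝ)
  set c1 : ℝ := (a.p : ℝ) - a.q with hc1
  set G1 := a.g.ev ε
  set ρ1 := x * DR - (c1 + G1) with hρ1
  set u1 := x * DR - c1 with hu1
  set S : ℝ := (S1 : ℝ) - S2 with hS
  have e : f x * DR - ((F1 : ℝ) - F2 + L) =
      (f x * DR - f (c1 / DR) * DR - d * u1) + (f (c1 / DR) * DR - ((F1 : ℝ) - F2)) +
      (-(L - S / DR * G1)) + ((d * DR - S) * u1 + S * ρ1) / DR := by
    rw [hρ1, hu1]
    field_simp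
    ring
  rw [e]
  have m1 : |((d * DR - S) * u1 + S * ρ1) / DR| ≤ (((S1 : ℝ) + S2) * a.r + e1 * T) / DR := by
    rw [abs_div, abs_of_pos hD]
    gcongr
    have a1 : |(d * DR - S) * u1| ≤ e1 * T := by
      rw [abs_mul]; exact mul_le_mul h1 tx (abs_nonneg _) (by positivity)
    have a2 : |S * ρ1| ≤ ((S1 : ℝ) + S2) * a.r := by
      rw [abs_mul]; exact mul_le_mul (abs_pq _ _) hx (abs_nonneg _) (by positivity)
    exact (abs_add_le _ _).trans (by linarith only [a1, a2])
  have m3 : |-(L - S / DR * G1)| ≤ n := by rw [abs_neg]; exact hl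
  have s1 := abs_add_le ((f x * DR - f (c1 / DR) * DR - d * u1) + (f (c1 / DR) * DR - ((F1 : ℝ) - F2)) +
      (-(L - S / DR * G1))) (((d * DR - S) * u1 + S * ρ1) / DR)
  have s2 := abs_add_three (f x * DR - f (c1 / DR) * DR - d * u1) (f (c1 / DR) * DR - ((F1 : ℝ) - F2))
      (-(L - S / DR * G1))
  linarith only [kr, h0, k2', m1, m3, s1, s2]

end A

end Pool.Agent.Work.NumIs

end

section

/-!
# Verified numerics for the kernel, part 3: `cos (π x)` and `sin (π x)`
-/

set_option deprecated.oldSectionVars true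

namespace Pool.Agent.Work.NumIs

open Finset

/-- `9!`-free Taylor bounds for cosine and sine on `|y| ≤ 4/5`, degree 12. -/
lemma cos_sin_taylor {y : ℝ} (hy : |y| ≤ 4 / 5) :
    |Real.cos y - (1 - y ^ 2 / 2 + y ^ 4 / 24 - y ^ 6 / 720 + y ^ 8 / 40320 - y ^ 10 / 3628800
      + y ^ 12 / 479001600)| ≤ 1 / 70000000000 ∧
    |Real.sin y - (y - y ^ 3 / 6 + y ^ 5 / 120 - y ^ 7 / 5040 + y ^ 9 / 362880
      - y ^ 11 / 39916800)| ≤ 1 / 70000000000 := by
  have h1 : ‖(y * Complex.I : ℂ)‖ ≤ 1 := by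
    rw [norm_mul, Complex.norm_I, mul_one, Complex.norm_real, Real.norm_eq_abs]
    linarith only [hy]
  have h2 := Complex.exp_bound h1 (n := 13) (by norm_num)
  have h3 : ‖(y * Complex.I : ℂ)‖ ^ 13 * ((Nat.succ 13 : ℕ) * ((Nat.factorial 13 : ℕ) * (13 : ℕ) : ℝ)⁻¹)
      ≤ 1 / 70000000000 := by
    rw [norm_mul, Complex.norm_I, mul_one, Complex.norm_real, Real.norm_eq_abs]
    have : |y| ^ 13 ≤ (4 / 5 : ℝ) ^ 13 := by gcongr
    have e : (Nat.factorial 13 : ℕ) = 6227020800 := by decide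
    rw [e]
    push_cast
    nlinarith only [this]
  have h4 := h2.trans h3
  have e1 : Complex.exp (y * Complex.I) = Real.cos y + Real.sin y * Complex.I := by
    rw [Complex.exp_mul_I]; simp
  have hs : ∑ m ∈ range 13, (y * Complex.I : ℂ) ^ m / (m.factorial : ℂ) =
      ((1 - y ^ 2 / 2 + y ^ 4 / 24 - y ^ 6 / 720 + y ^ 8 / 40320 - y ^ 10 / 3628800
      + y ^ 12 / 479001600 : ℝ) : ℂ) + ((y - y ^ 3 / 6 + y ^ 5 / 120 - y ^ 7 / 5040 + y ^ 9 / 362880
      - y ^ 11 / 39916800 : ℝ) : ℂ) * Complex.I := by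
    simp only [sum_range_succ, sum_range_zero, Nat.factorial]
    have I2 : Complex.I ^ 2 = -1 := Complex.I_sq
    have I3 : Complex.I ^ 3 = -Complex.I := by rw [pow_succ, I2]; ring
    have I4 : Complex.I ^ 4 = 1 := Complex.I_pow_four
    have I5 : Complex.I ^ 5 = Complex.I := by rw [pow_succ, I4]; ring
    have I6 : Complex.I ^ 6 = -1 := by rw [pow_succ, I5, ← sq, I2]
    have I7 : Complex.I ^ 7 = -Complex.I := by rw [pow_succ, I6]; ring
    have I8 : Complex.I ^ 8 = 1 := by rw [pow_succ, I7]; rw [neg_mul, ← sq, I2]; ring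
    have I9 : Complex.I ^ 9 = Complex.I := by rw [pow_succ, I8]; ring
    have I10 : Complex.I ^ 10 = -1 := by rw [pow_succ, I9, ← sq, I2]
    have I11 : Complex.I ^ 11 = -Complex.I := by rw [pow_succ, I10]; ring
    have I12 : Complex.I ^ 12 = 1 := by rw [pow_succ, I11]; rw [neg_mul, ← sq, I2]; ring
    simp only [mul_pow, I2, I3, I4, I5, I6, I7, I8, I9, I10, I11, I12]
    push_cast
    ring
  rw [e1, hs] at h4
  set c := (1 - y ^ 2 / 2 + y ^ 4 / 24 - y ^ 6 / 720 + y ^ 8 / 40320 - y ^ 10 / 3628800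
      + y ^ 12 / 479001600 : ℝ)
  set s := (y - y ^ 3 / 6 + y ^ 5 / 120 - y ^ 7 / 5040 + y ^ 9 / 362880
      - y ^ 11 / 39916800 : ℝ)
  have e2 : (Real.cos y : ℂ) + Real.sin y * Complex.I - ((c : ℂ) + (s : ℂ) * Complex.I) =
      ((Real.cos y - c : ℝ) : ℂ) + ((Real.sin y - s : ℝ) : ℂ) * Complex.I := by
    push_cast; ring
  rw [e2] at h4
  constructor
  · refine le_trans ?_ h4
    have := Complex.abs_re_le_norm (((Real.cos y - c : ℝ) : ℂ) + ((Real.sin y - s : ℝ) : ℂ) * Complex.I)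
    simpa only [Complex.add_re, Complex.ofReal_re, Complex.mul_re, Complex.I_re, mul_zero,
      Complex.ofReal_im, Complex.I_im, zero_mul, sub_zero, add_zero] using this
  · refine le_trans ?_ h4
    have := Complex.abs_im_le_norm (((Real.cos y - c : ℝ) : ℂ) + ((Real.sin y - s : ℝ) : ℂ) * Complex.I)
    simpa only [Complex.add_im, Complex.ofReal_re, Complex.mul_im, Complex.I_re, mul_zero,
      Complex.ofReal_im, Complex.I_im, zero_mul, sub_zero, add_zero, zero_add, mul_one] using this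


/-- the numerator of the degree 12 polynomial of cosine, `Z = Y ^ 2`, over `12! * D ^ 12` -/
def cosN (Z : ℕ) : ℕ :=
  Nat.sub 5312452879021523644167342878668926891519915429617346963252719967526930359331948649748578417931730498127901383505799396607174191825394073600 (Nat.mul Z (
  Nat.sub 562477827408399277146112914515523649526097871009581735690292753514741287282168813896310681072350812191110852299980800 (Nat.mul Z (
  Nat.sub 9925776081561085718793981061413509055060944040073784683763756236424434505174946122238944870400 (Nat.mul Z (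
  Nat.sub 70062161401257725166390905457392265213114529068077312735268007135150080 (Nat.mul Z (
  Nat.sub 264932852958543802921444333079062534691047342080 (Nat.mul Z (
  Nat.sub 623352375738793168207872 Z))))))))))

/-- the numerator of `sin y / y`, over `11! * D ^ 10` -/
def sinN (Z : ℕ) : ℕ :=
  Nat.sub 93746304568066546191018819085920608254349645168263622615048792252456881213694802316051780178725135365185142049996800 (Nat.mul Z (
  Nat.sub 3308592027187028572931327020471169685020314680024594894587918745474811501724982040746314956800 (Nat.mul Z (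
  Nat.sub 35031080700628862583195452728696132606557264534038656367634003567575040 (Nat.mul Z (
  Nat.sub 176621901972362535280962888719375023127364894720 (Nat.mul Z (
  Nat.sub 519460313115660973506560 Z))))))))

lemma sub_cast_step {Z C C' i : ℕ} {v : ℝ} (h : i ≤ C') (hZ : Z * C' ≤ C) (hi : (i : ℝ) = v) :
    Nat.sub C (Nat.mul Z i) ≤ C ∧ ((Nat.sub C (Nat.mul Z i) : ℕ) : ℝ) = C - Z * v := by
  have h1 : Z * i ≤ C := (Nat.mul_le_mul_left Z h).trans hZ
  refine ⟨Nat.sub_le _ _, ?_⟩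
  change ((C - Z * i : ℕ) : ℝ) = _
  rw [Nat.cast_sub h1, Nat.cast_mul, hi]

lemma sub_cast_base {Z C : ℕ} (hZ : Z ≤ C) : Nat.sub C Z ≤ C ∧ ((Nat.sub C Z : ℕ) : ℝ) = C - Z := by
  refine ⟨Nat.sub_le _ _, ?_⟩
  change ((C - Z : ℕ) : ℝ) = _
  rw [Nat.cast_sub hZ]


lemma cosN_cast {Z : ℕ} (hZ : Z ≤ 4722366482869645213696) :
    ((cosN Z : ℕ) : ℝ) = 479001600 * DR ^ 12 - Z * (239500800 * DR ^ 10 - Z * (19958400 * DR ^ 8 -
      Z * (665280 * DR ^ 6 - Z * (11880 * DR ^ 4 - Z * (132 * DR ^ 2 - Z))))) := by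
  obtain ⟨a1, b1⟩ := sub_cast_base (Z := Z) (C := 623352375738793168207872) (hZ.trans (by norm_num))
  obtain ⟨a2, b2⟩ := sub_cast_step (Z := Z) (C := 264932852958543802921444333079062534691047342080) a1
    ((Nat.mul_le_mul_right _ hZ).trans (by norm_num)) b1
  obtain ⟨a3, b3⟩ := sub_cast_step (Z := Z) (C := 70062161401257725166390905457392265213114529068077312735268007135150080) a2
    ((Nat.mul_le_mul_right _ hZ).trans (by norm_num)) b2
  obtain ⟨a4, b4⟩ := sub_cast_step (Z := Z) (C := 9925776081561085718793981061413509055060944040073784683763756236424434505174946122238944870400) a3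
    ((Nat.mul_le_mul_right _ hZ).trans (by norm_num)) b3
  obtain ⟨a5, b5⟩ := sub_cast_step (Z := Z) (C := 562477827408399277146112914515523649526097871009581735690292753514741287282168813896310681072350812191110852299980800) a4
    ((Nat.mul_le_mul_right _ hZ).trans (by norm_num)) b4
  obtain ⟨a6, b6⟩ := sub_cast_step (Z := Z) (C := 5312452879021523644167342878668926891519915429617346963252719967526930359331948649748578417931730498127901383505799396607174191825394073600) a5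
    ((Nat.mul_le_mul_right _ hZ).trans (by norm_num)) b5
  unfold cosN
  rw [b6]
  unfold DR
  push_cast
  norm_num

lemma sinN_cast {Z : ℕ} (hZ : Z ≤ 4722366482869645213696) :
    ((sinN Z : ℕ) : ℝ) = 39916800 * DR ^ 10 - Z * (6652800 * DR ^ 8 - Z * (332640 * DR ^ 6 -
      Z * (7920 * DR ^ 4 - Z * (110 * DR ^ 2 - Z)))) := by
  obtain ⟨a1, b1⟩ := sub_cast_base (Z := Z) (C := 519460313115660973506560) (hZ.trans (by norm_num))
  obtain ⟨a2, b2⟩ := sub_cast_step (Z := Z) (C := 176621901972362535280962888719375023127364894720) a1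
    ((Nat.mul_le_mul_right _ hZ).trans (by norm_num)) b1
  obtain ⟨a3, b3⟩ := sub_cast_step (Z := Z) (C := 35031080700628862583195452728696132606557264534038656367634003567575040) a2
    ((Nat.mul_le_mul_right _ hZ).trans (by norm_num)) b2
  obtain ⟨a4, b4⟩ := sub_cast_step (Z := Z) (C := 3308592027187028572931327020471169685020314680024594894587918745474811501724982040746314956800) a3
    ((Nat.mul_le_mul_right _ hZ).trans (by norm_num)) b3
  obtain ⟨a5, b5⟩ := sub_cast_step (Z := Z) (C := 93746304568066546191018819085920608254349645168263622615048792252456881213694802316051780178725135365185142049996800) a4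
    ((Nat.mul_le_mul_right _ hZ).trans (by norm_num)) b4
  unfold sinN
  rw [b5]
  unfold DR
  push_cast
  norm_num

/-- fixed point approximation of `π r` -/
def piN (r : ℕ) : ℕ := Nat.div (Nat.mul 314159265358979323846 r) 100000000000000000000

lemma piN_err {r : ℕ} (hr : (r : ℝ) ≤ 2 * DR) : |Real.pi * r - (piN r : ℝ)| ≤ 2 := by
  have h1 := ndiv_le (314159265358979323846 * r) 100000000000000000000
  have h2 := lt_ndiv (314159265358979323846 * r) (b := 100000000000000000000) (by norm_num)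
  have h3 := Real.pi_gt_d20
  have h4 := Real.pi_lt_d20
  have hr0 : (0 : ℝ) ≤ r := Nat.cast_nonneg _
  have h5 : (Real.pi - 3.14159265358979323846) * r ≤ 0.00000000000000000001 * (2 * DR) := by
    have : Real.pi - 3.14159265358979323846 ≤ 0.00000000000000000001 := by linarith only [h4]
    gcongr
  have h6 : 0 ≤ (Real.pi - 3.14159265358979323846) * r := by
    apply mul_nonneg _ hr0
    linarith only [h3]
  have h7 : (0.00000000000000000001 : ℝ) * (2 * DR) ≤ 0.00001 := by unfold DR; norm_num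
  change |Real.pi * r - ((314159265358979323846 * r / 100000000000000000000 : ℕ) : ℝ)| ≤ 2
  push_cast at h1 h2
  rw [abs_le]
  constructor <;> linarith only [h3, h4, h6, h1, h5, h7, h2]

lemma piN_zero : piN 0 = 0 := by decide +kernel

/-- `cos (π r / D) * D`, `sin (π r / D) * D` for `r ≤ D / 4` -/
def cosC (r : ℕ) : ℕ := Nat.div (cosN (Nat.mul (piN r) (piN r))) 77306363950214634593683045803757368288933000143404161837719147552371292248891384948344470728359454342395494801251325357693337600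
def sinC (r : ℕ) : ℕ := Nat.div (Nat.mul (piN r) (sinN (Nat.mul (piN r) (piN r)))) 93746304568066546191018819085920608254349645168263622615048792252456881213694802316051780178725135365185142049996800

lemma scC_spec {r : ℕ} (hr : (r : ℝ) ≤ DR / 4) :
    |Real.cos (Real.pi * r / DR) * DR - (cosC r : ℝ)| ≤ 4 ∧
    |Real.sin (Real.pi * r / DR) * DR - (sinC r : ℝ)| ≤ 4 := by
  have hD := DR_pos
  have hr0 : (0 : ℝ) ≤ r := Nat.cast_nonneg _
  have hY := piN_err (r := r) (by linarith only [hr, hD])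
  set Y := piN r with hYdef
  set y : ℝ := (Y : ℝ) / DR with hy
  have hYy : (Y : ℝ) = y * DR := by rw [hy]; field_simp
  have h0 : |Real.pi * r / DR - y| ≤ 2 / DR := by
    rw [hy, ← sub_div, abs_div, abs_of_pos hD]; gcongr
  have hyb : |y| ≤ 4 / 5 := by
    have h1 : |Real.pi * r / DR| ≤ Real.pi / 4 := by
      rw [abs_div, abs_mul, abs_of_pos hD, abs_of_pos Real.pi_pos, div_le_iff₀ hD, abs_of_nonneg hr0]
      have := Real.pi_pos
      nlinarith only [hr, this]
    have h2 : |y| ≤ |Real.pi * r / DR| + |Real.pi * r / DR - y| := by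
      have := abs_sub_abs_le_abs_sub y (Real.pi * r / DR)
      rw [abs_sub_comm y] at this; linarith only [this]
    have h3 : 2 / DR ≤ 0.001 := by unfold DR; norm_num
    have h4 := Real.pi_lt_d2
    linarith only [h0, h1, h2, h3, h4]
  have hyn : 0 ≤ y := by rw [hy]; positivity
  have hYD : Y ≤ 68719476736 := by
    have : (Y : ℝ) ≤ ((68719476736 : ℕ) : ℝ) := by
      rw [hYy, DN_cast]
      have := (le_abs_self y).trans hyb
      nlinarith only [hr, hD, this]
    exact_mod_cast this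
  have hZ : Y * Y ≤ 4722366482869645213696 :=
    (Nat.mul_le_mul hYD hYD).trans (by norm_num)
  obtain ⟨hc, hs⟩ := cos_sin_taylor hyb
  have lipc : |Real.cos (Real.pi * r / DR) - Real.cos y| ≤ 2 / DR :=
    (Real.abs_cos_sub_cos_le _ _).trans h0
  have lips : |Real.sin (Real.pi * r / DR) - Real.sin y| ≤ 2 / DR :=
    (Real.abs_sin_sub_sin_le _ _).trans h0
  have tr : (1 : ℝ) / 70000000000 * DR ≤ 1 := by unfold DR; norm_num
  have e2 : 2 / DR * DR = 2 := by field_simp
  constructor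
  · have hn := ndiv_le (cosN (Y * Y)) 77306363950214634593683045803757368288933000143404161837719147552371292248891384948344470728359454342395494801251325357693337600
    have hn' := lt_ndiv (cosN (Y * Y)) (b := 77306363950214634593683045803757368288933000143404161837719147552371292248891384948344470728359454342395494801251325357693337600) (by norm_num)
    have hK : ((77306363950214634593683045803757368288933000143404161837719147552371292248891384948344470728359454342395494801251325357693337600 : ℕ) : ℝ) =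
        479001600 * DR ^ 11 := by unfold DR; norm_num
    have e : ((cosN (Y * Y) : ℕ) : ℝ) / ((77306363950214634593683045803757368288933000143404161837719147552371292248891384948344470728359454342395494801251325357693337600 : ℕ) : ℝ) =
        (1 - y ^ 2 / 2 + y ^ 4 / 24 - y ^ 6 / 720 + y ^ 8 / 40320 - y ^ 10 / 3628800
          + y ^ 12 / 479001600) * DR := by
      rw [hK, cosN_cast hZ]
      push_cast
      rw [hYy]
      field_simp
      ring
    rw [e] at hn hn'
    change |Real.cos (Real.pi * r / DR) * DR - ((cosN (Y * Y) / 77306363950214634593683045803757368288933000143404161837719147552371292248891384948344470728359454342395494801251325357693337600 : ℕ) : ℝ)| ≤ 4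
    have a1 := abs_le.1 lipc
    have a2 := abs_le.1 hc
    set P := (1 - y ^ 2 / 2 + y ^ 4 / 24 - y ^ 6 / 720 + y ^ 8 / 40320 - y ^ 10 / 3628800
          + y ^ 12 / 479001600)
    have b1 : (Real.cos (Real.pi * r / DR) - P) * DR ≤ 3 := by
      have : Real.cos (Real.pi * r / DR) - P ≤ 2 / DR + 1 / 70000000000 := by linarith only [a1, a2, a1.2, a2.2]
      calc _ ≤ (2 / DR + 1 / 70000000000) * DR := by gcongr
        _ ≤ 3 := by rw [add_mul, e2]; linarith only [tr]
    have b2 : -3 ≤ (Real.cos (Real.pi * r / DR) - P) * DR := by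
      have : -(2 / DR + 1 / 70000000000) ≤ Real.cos (Real.pi * r / DR) - P := by linarith only [a1, a2, a1.1, a2.1]
      calc (-3 : ℝ) ≤ -(2 / DR + 1 / 70000000000) * DR := by rw [neg_mul, add_mul, e2]; linarith only [tr]
        _ ≤ _ := by gcongr
    rw [abs_le]
    constructor <;> nlinarith only [hn, b2, hn', b1]
  · have hn := ndiv_le (Y * sinN (Y * Y)) 93746304568066546191018819085920608254349645168263622615048792252456881213694802316051780178725135365185142049996800
    have hn' := lt_ndiv (Y * sinN (Y * Y)) (b := 93746304568066546191018819085920608254349645168263622615048792252456881213694802316051780178725135365185142049996800) (by norm_num)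
    have hK : ((93746304568066546191018819085920608254349645168263622615048792252456881213694802316051780178725135365185142049996800 : ℕ) : ℝ) =
        39916800 * DR ^ 10 := by unfold DR; norm_num
    have e : ((Y * sinN (Y * Y) : ℕ) : ℝ) / ((93746304568066546191018819085920608254349645168263622615048792252456881213694802316051780178725135365185142049996800 : ℕ) : ℝ) =
        (y - y ^ 3 / 6 + y ^ 5 / 120 - y ^ 7 / 5040 + y ^ 9 / 362880
          - y ^ 11 / 39916800) * DR := by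
      rw [hK, Nat.cast_mul, sinN_cast hZ]
      push_cast
      rw [hYy]
      field_simp
      ring
    rw [e] at hn hn'
    change |Real.sin (Real.pi * r / DR) * DR - ((Y * sinN (Y * Y) / 93746304568066546191018819085920608254349645168263622615048792252456881213694802316051780178725135365185142049996800 : ℕ) : ℝ)| ≤ 4
    have a1 := abs_le.1 lips
    have a2 := abs_le.1 hs
    set P := (y - y ^ 3 / 6 + y ^ 5 / 120 - y ^ 7 / 5040 + y ^ 9 / 362880
          - y ^ 11 / 39916800)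
    have b1 : (Real.sin (Real.pi * r / DR) - P) * DR ≤ 3 := by
      have : Real.sin (Real.pi * r / DR) - P ≤ 2 / DR + 1 / 70000000000 := by linarith only [a1, a2, a1.2, a2.2]
      calc _ ≤ (2 / DR + 1 / 70000000000) * DR := by gcongr
        _ ≤ 3 := by rw [add_mul, e2]; linarith only [tr]
    have b2 : -3 ≤ (Real.sin (Real.pi * r / DR) - P) * DR := by
      have : -(2 / DR + 1 / 70000000000) ≤ Real.sin (Real.pi * r / DR) - P := by linarith only [a1, a2, a1.1, a2.1]
      calc (-3 : ℝ) ≤ -(2 / DR + 1 / 70000000000) * DR := by rw [neg_mul, add_mul, e2]; linarith only [tr]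
        _ ≤ _ := by gcongr
    rw [abs_le]
    constructor <;> nlinarith only [hn, b2, hn', b1]

/-- `cos` and `sin` as signed numbers -/
structure S4 where
  cp : ℕ
  cq : ℕ
  sp : ℕ
  sq : ℕ

def S4.Good (s : S4) (θ : ℝ) : Prop :=
  |Real.cos θ * DR - ((s.cp : ℝ) - s.cq)| ≤ 4 ∧ |Real.sin θ * DR - ((s.sp : ℝ) - s.sq)| ≤ 4 ∧
  (s.cp = 0 ∨ s.cq = 0) ∧ (s.sp = 0 ∨ s.sq = 0)

/-- a quarter turn -/
def S4.rot (s : S4) : S4 := ⟨s.sq, s.sp, s.cp, s.cq⟩
def S4.conj (s : S4) : S4 := ⟨s.cp, s.cq, s.sq, s.sp⟩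

lemma S4.Good.rot {s : S4} {θ : ℝ} (h : s.Good θ) : s.rot.Good (θ + Real.pi / 2) := by
  obtain ⟨h1, h2, h3, h4⟩ := h
  refine ⟨?_, ?_, h4.symm, h3⟩
  · rw [Real.cos_add_pi_div_two]
    change |(-Real.sin θ) * DR - ((s.sq : ℝ) - s.sp)| ≤ 4
    rw [← abs_neg]
    convert h2 using 2
    ring
  · rw [Real.sin_add_pi_div_two]
    exact h1

lemma S4.Good.conj {s : S4} {θ : ℝ} (h : s.Good θ) : s.conj.Good (-θ) := by
  obtain ⟨h1, h2, h3, h4⟩ := h
  refine ⟨?_, ?_, h3, h4.symm⟩
  · rw [Real.cos_neg]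
    exact h1
  · rw [Real.sin_neg]
    change |(-Real.sin θ) * DR - ((s.sq : ℝ) - s.sp)| ≤ 4
    rw [← abs_neg]
    convert h2 using 2
    ring

/-- first quadrant -/
def scQ (b : ℕ) : S4 :=
  cnd (Nat.ble b 17179869184) ⟨cosC b, 0, sinC b, 0⟩
    ⟨sinC (Nat.sub 34359738368 b), 0, cosC (Nat.sub 34359738368 b), 0⟩

lemma scQ_good {b : ℕ} (hb : b ≤ 34359738368) : (scQ b).Good (Real.pi * b / DR) := by
  have hD := DR_pos
  unfold scQ
  simp only [cnd_eq]
  rcases hle : Nat.ble b 17179869184 with _ | _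
  · have h1 : 17179869184 < b := by
      by_contra hc
      rw [Nat.ble_eq_true_of_le (not_lt.1 hc)] at hle
      exact absurd hle (by decide)
    have h2 : ((34359738368 - b : ℕ) : ℝ) = DR / 2 - b := by
      rw [Nat.cast_sub hb]
      unfold DR; norm_num
    have h3 : ((34359738368 - b : ℕ) : ℝ) ≤ DR / 4 := by
      rw [h2]
      have : ((17179869184 : ℕ) : ℝ) ≤ b := by exact_mod_cast h1.le
      have h4 : ((17179869184 : ℕ) : ℝ) = DR / 4 := by unfold DR; norm_num
      rw [h4] at this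
      linarith only [this]
    obtain ⟨h5, h6⟩ := scC_spec h3
    have h7 : Real.pi * ((34359738368 - b : ℕ) : ℝ) / DR = Real.pi / 2 - Real.pi * b / DR := by
      rw [h2]; field_simp
    rw [h7, Real.cos_pi_div_two_sub] at h5
    rw [h7, Real.sin_pi_div_two_sub] at h6
    change S4.Good ⟨sinC (34359738368 - b), 0, cosC (34359738368 - b), 0⟩ _
    refine ⟨?_, ?_, Or.inr rfl, Or.inr rfl⟩
    · simpa using h6
    · simpa using h5
  · have h1 : b ≤ 17179869184 := Nat.le_of_ble_eq_true hle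
    have h3 : (b : ℝ) ≤ DR / 4 := by
      have : (b : ℝ) ≤ ((17179869184 : ℕ) : ℝ) := by exact_mod_cast h1
      have h4 : ((17179869184 : ℕ) : ℝ) = DR / 4 := by unfold DR; norm_num
      rw [h4] at this
      linarith only [this]
    obtain ⟨h5, h6⟩ := scC_spec h3
    change S4.Good ⟨cosC b, 0, sinC b, 0⟩ _
    refine ⟨?_, ?_, Or.inr rfl, Or.inr rfl⟩
    · simpa using h5
    · simpa using h6

/-- `h` quarter turns, `h < 4` -/
def S4.rots (s : S4) (h : ℕ) : S4 :=
  cnd (Nat.beq h 0) s (cnd (Nat.beq h 1) s.rot (cnd (Nat.beq h 2) s.rot.rot s.rot.rot.rot))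

/-- `cos (π m / D)` and `sin (π m / D)` for a natural number `m` -/
def scN (m : ℕ) : S4 :=
  (scQ (Nat.mod m 34359738368)).rots (Nat.mod (Nat.div m 34359738368) 4)

lemma scN_good (m : ℕ) : (scN m).Good (Real.pi * m / DR) := by
  have hD := DR_pos
  have hb : m % 34359738368 ≤ 34359738368 := (Nat.mod_lt _ (by norm_num)).le
  have h0 := scQ_good hb
  set b := m % 34359738368 with hbdef
  set h := m / 34359738368 % 4 with hhdef
  have hh : h < 4 := Nat.mod_lt _ (by norm_num)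
  have hm : m = b + h * 34359738368 + (m / 34359738368 / 4) * 137438953472 := by
    have e1 := Nat.div_add_mod m 34359738368
    have e2 := Nat.div_add_mod (m / 34359738368) 4
    omega
  have hm' : Real.pi * m / DR = Real.pi * b / DR + h * (Real.pi / 2) +
      ((m / 34359738368 / 4 : ℕ) : ℝ) * (2 * Real.pi) := by
    have : (m : ℝ) = b + h * (DR / 2) + ((m / 34359738368 / 4 : ℕ) : ℝ) * (2 * DR) := by
      have e1 : ((34359738368 : ℕ) : ℝ) = DR / 2 := by unfold DR; norm_num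
      have e2 : ((137438953472 : ℕ) : ℝ) = 2 * DR := by unfold DR; norm_num
      rw [← e1, ← e2]
      exact_mod_cast hm
    rw [this]; field_simp
  have hgood : ∀ (s : S4) (θ : ℝ) (n : ℕ), s.Good θ → s.Good (θ + n * (2 * Real.pi)) := by
    intro s θ n hs
    unfold S4.Good at *
    rwa [Real.cos_add_nat_mul_two_pi, Real.sin_add_nat_mul_two_pi]
  rw [hm']
  apply hgood
  change ((scQ b).rots h).Good _
  unfold S4.rots
  simp only [cnd_eq]
  interval_cases h
  · simpa using h0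
  · have := h0.rot
    have e : Real.pi * b / DR + ((1 : ℕ) : ℝ) * (Real.pi / 2) =
        Real.pi * b / DR + Real.pi / 2 := by push_cast; ring
    rw [e]; exact this
  · have := h0.rot.rot
    have e : Real.pi * b / DR + ((2 : ℕ) : ℝ) * (Real.pi / 2) =
        Real.pi * b / DR + Real.pi / 2 + Real.pi / 2 := by push_cast; ring
    rw [e]; exact this
  · have := h0.rot.rot.rot
    have e : Real.pi * b / DR + ((3 : ℕ) : ℝ) * (Real.pi / 2) =
        Real.pi * b / DR + Real.pi / 2 + Real.pi / 2 + Real.pi / 2 := by push_cast; ring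
    rw [e]; exact this

/-- the signed version (`p = 0` or `q = 0`) -/
def scS (p q : ℕ) : S4 := cnd (Nat.beq q 0) (scN p) (scN q).conj

lemma scS_good {p q : ℕ} (h : p = 0 ∨ q = 0) : (scS p q).Good (Real.pi * (((p : ℝ) - q) / DR)) := by
  unfold scS
  simp only [cnd_eq]
  rcases hq : Nat.beq q 0 with _ | _
  · have hq0 : q ≠ 0 := fun h0 => by rw [h0] at hq; exact absurd hq (by decide)
    have hp : p = 0 := h.resolve_right hq0
    rw [hp]
    have := (scN_good q).conj
    have e : Real.pi * ((((0 : ℕ) : ℝ) - q) / DR) = -(Real.pi * q / DR) := by push_cast; ring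
    rw [e]; exact this
  · have hq0 : q = 0 := Nat.eq_of_beq_eq_true hq
    rw [hq0]
    have := scN_good p
    have e : Real.pi * (((p : ℝ) - ((0 : ℕ) : ℝ)) / DR) = Real.pi * p / DR := by push_cast; ring
    rw [e]; exact this

lemma piN_signed {s t : ℕ} {x : ℝ} (h : s = 0 ∨ t = 0) (hx : |x * DR - ((s : ℝ) - t)| ≤ 4)
    (hx1 : |x| ≤ 1) : |(Real.pi * x) * DR - ((piN s : ℝ) - piN t)| ≤ 20 := by
  have hD := DR_pos
  have hD4 : (4 : ℝ) ≤ DR := by unfold DR; norm_num
  have hxD : |x * DR| ≤ DR := by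
    rw [abs_mul, abs_of_pos hD]
    nlinarith only [hx1, hD]
  have hst : |(s : ℝ) - t| ≤ 2 * DR := by
    have e : (s : ℝ) - t = x * DR - (x * DR - ((s : ℝ) - t)) := by ring
    rw [e]
    exact (abs_sub _ _).trans (by linarith only [hx, hD4, hxD])
  have hpi : |Real.pi * (x * DR - ((s : ℝ) - t))| ≤ 13 := by
    rw [abs_mul, abs_of_pos Real.pi_pos]
    have := Real.pi_lt_d2
    have := Real.pi_pos
    nlinarith [abs_nonneg (x * DR - ((s : ℝ) - t))]
  rcases h with h | h
  · rw [h] at hst hpi ⊢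
    rw [piN_zero]
    have ht : (t : ℝ) ≤ 2 * DR := by simpa using hst
    have h3 := piN_err ht
    have e : Real.pi * x * DR - (((0 : ℕ) : ℝ) - (piN t : ℝ)) =
        Real.pi * (x * DR - (((0 : ℕ) : ℝ) - t)) - (Real.pi * t - piN t) := by push_cast; ring
    rw [e]
    exact (abs_sub _ _).trans (by linarith only [hpi, h3])
  · rw [h] at hst hpi ⊢
    rw [piN_zero]
    have ht : (s : ℝ) ≤ 2 * DR := by simpa using hst
    have h3 := piN_err ht
    have e : Real.pi * x * DR - ((piN s : ℝ) - ((0 : ℕ) : ℝ)) =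
        Real.pi * (x * DR - ((s : ℝ) - ((0 : ℕ) : ℝ))) + (Real.pi * s - piN s) := by push_cast; ring
    rw [e]
    exact (abs_add_le _ _).trans (by linarith only [hpi, h3])

/-- Taylor's formula with a Lipschitz derivative -/
lemma second_order_pos {f f' : ℝ → ℝ} {a t M : ℝ} (ht : 0 ≤ t) (hf : ∀ x, HasDerivAt f (f' x) x)
    (hL : ∀ x y, |f' x - f' y| ≤ M * |x - y|) : |f (a + t) - f a - f' a * t| ≤ M * t ^ 2 / 2 := by
  have key := image_norm_le_of_norm_deriv_right_le_deriv_boundary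
    (f := fun s => f (a + s) - f a - f' a * s) (f' := fun s => f' (a + s) - f' a)
    (a := 0) (b := t) (B := fun s => M * s ^ 2 / 2) (B' := fun s => M * s)
  have h1 : ∀ s, HasDerivAt (fun s => f (a + s) - f a - f' a * s) (f' (a + s) - f' a) s := by
    intro s
    have := (((hf (a + s)).comp_const_add a s).sub_const (f a)).sub
      ((hasDerivAt_id s).const_mul (f' a))
    exact this.congr_deriv (by simp)
  have h2 := key (fun s _ => (h1 s).continuousAt.continuousWithinAt)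
    (fun s _ => (h1 s).hasDerivWithinAt) (by simp)
    (fun s => by
      have := ((hasDerivAt_pow 2 s).const_mul M).div_const 2
      refine this.congr_deriv ?_
      push_cast
      ring)
    (fun s hs => by
      rw [Real.norm_eq_abs]
      have := hL (a + s) a
      rwa [add_sub_cancel_left, abs_of_nonneg hs.1] at this)
    (Set.right_mem_Icc.2 ht)
  simpa [Real.norm_eq_abs] using h2

lemma second_order {f f' : ℝ → ℝ} {M : ℝ} (a t : ℝ) (hf : ∀ x, HasDerivAt f (f' x) x)
    (hL : ∀ x y, |f' x - f' y| ≤ M * |x - y|) : |f (a + t) - f a - f' a * t| ≤ M * t ^ 2 / 2 := by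
  rcases le_total 0 t with h | h
  · exact second_order_pos h hf hL
  · have h1 := second_order_pos (f := fun x => f (-x)) (f' := fun x => -f' (-x)) (a := -a) (t := -t)
      (M := M) (by linarith only [h]) (fun x => by
        have := (hf (-x)).scomp x (hasDerivAt_neg x)
        exact this.congr_deriv (by simp)) (fun x y => by
        have := hL (-y) (-x)
        have e : -y - -x = x - y := by ring
        rw [e] at this
        convert this using 2
        ring)
    have e1 : -(-a + -t) = a + t := by ring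
    simp only [neg_neg, e1, neg_mul_neg, even_two, Even.neg_pow] at h1
    exact h1

lemma cos_second (a t : ℝ) : |Real.cos (a + t) - Real.cos a - -Real.sin a * t| ≤ 1 * t ^ 2 / 2 :=
  second_order a t (f' := fun x => -Real.sin x) Real.hasDerivAt_cos (fun x y => by
    rw [one_mul, neg_sub_neg, abs_sub_comm]; exact Real.abs_sin_sub_sin_le _ _)

lemma sin_second (a t : ℝ) : |Real.sin (a + t) - Real.sin a - Real.cos a * t| ≤ 1 * t ^ 2 / 2 :=
  second_order a t Real.hasDerivAt_sin (fun x y => by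
    rw [one_mul]; exact Real.abs_cos_sub_cos_le _ _)

lemma pi_sq_lt : Real.pi ^ 2 ≤ 10 := by
  have h1 := Real.pi_lt_d2
  have h2 := Real.pi_pos
  nlinarith only [h1, h2]

/-- from second order in the angle to fixed point units -/
lemma pi_remainder {f f' : ℝ → ℝ} (h : ∀ a t, |f (a + t) - f a - f' a * t| ≤ 1 * t ^ 2 / 2)
    {c δ : ℝ} {T : ℕ} (hδ : |δ| ≤ (T : ℝ)) :
    |f (Real.pi * ((c + δ) / DR)) * DR - f (Real.pi * (c / DR)) * DR -
      (Real.pi * f' (Real.pi * (c / DR))) * δ| ≤ ((Nat.add (Nat.div (Nat.mul 5 (Nat.mul T T)) 68719476736) 1 : ℕ) : ℝ) := by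
  have hD := DR_pos
  have h1 := h (Real.pi * (c / DR)) (Real.pi * (δ / DR))
  have e1 : Real.pi * (c / DR) + Real.pi * (δ / DR) = Real.pi * ((c + δ) / DR) := by ring
  rw [e1] at h1
  have k := lt_ndiv (5 * (T * T)) (b := 68719476736) (by norm_num)
  rw [DN_cast] at k
  change _ ≤ ((5 * (T * T) / 68719476736 + 1 : ℕ) : ℝ)
  push_cast at k ⊢
  have e2 : f (Real.pi * ((c + δ) / DR)) * DR - f (Real.pi * (c / DR)) * DR -
      (Real.pi * f' (Real.pi * (c / DR))) * δ =
      (f (Real.pi * ((c + δ) / DR)) - f (Real.pi * (c / DR)) -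
        f' (Real.pi * (c / DR)) * (Real.pi * (δ / DR))) * DR := by
    field_simp
  rw [e2, abs_mul, abs_of_pos hD]
  refine le_trans (mul_le_mul_of_nonneg_right h1 hD.le) ?_
  refine le_trans ?_ k.le
  have e3 : 1 * (Real.pi * (δ / DR)) ^ 2 / 2 * DR = Real.pi ^ 2 * (δ ^ 2) / 2 / DR := by
    field_simp
  rw [e3]
  have h3 : δ ^ 2 ≤ (T : ℝ) * T := by
    rw [← sq, ← sq_abs δ]; gcongr
  have h4 := pi_sq_lt
  gcongr
  nlinarith only [h3, h4, sq_nonneg δ, sq_nonneg Real.pi]

namespace A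

def cosPi (a : A) : A :=
  let n := a.nf
  let s := scS n.p n.q
  let T := n.tot
  n.app s.cp s.cq 4 (piN s.sq) (piN s.sp) 20 (Nat.add (Nat.div (Nat.mul 5 (Nat.mul T T)) 68719476736) 1)

def sinPi (a : A) : A :=
  let n := a.nf
  let s := scS n.p n.q
  let T := n.tot
  n.app s.sp s.sq 4 (piN s.cp) (piN s.cq) 20 (Nat.add (Nat.div (Nat.mul 5 (Nat.mul T T)) 68719476736) 1)

lemma nf_normal (a : A) : a.nf.p = 0 ∨ a.nf.q = 0 := by
  change a.p - a.q = 0 ∨ a.q - a.p = 0
  omega

lemma Encl.cosPi {a : A} {ε : ℕ → ℝ} {x : ℝ} (hε : ∀ i, |ε i| ≤ 1) (hx : a.Encl ε x) :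
    (a.cosPi).Encl ε (Real.cos (Real.pi * x)) := by
  have hg := scS_good (nf_normal a)
  refine hx.nf.app hε (fun x => Real.cos (Real.pi * x))
    (Real.pi * -Real.sin (Real.pi * (((a.nf.p : ℝ) - a.nf.q) / DR))) ?_ ?_ ?_
  · exact_mod_cast hg.1
  · have h1 := hg.2.1
    have := piN_signed (s := (scS a.nf.p a.nf.q).sq) (t := (scS a.nf.p a.nf.q).sp)
      (x := -Real.sin (Real.pi * (((a.nf.p : ℝ) - a.nf.q) / DR))) hg.2.2.2.symm
      (by rw [← abs_neg]; convert h1 using 2; ring)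
      (by rw [abs_neg]; exact Real.abs_sin_le_one _)
    exact_mod_cast this
  · intro δ hδ
    exact pi_remainder (f := Real.cos) (f' := fun x => -Real.sin x) cos_second hδ

lemma Encl.sinPi {a : A} {ε : ℕ → ℝ} {x : ℝ} (hε : ∀ i, |ε i| ≤ 1) (hx : a.Encl ε x) :
    (a.sinPi).Encl ε (Real.sin (Real.pi * x)) := by
  have hg := scS_good (nf_normal a)
  refine hx.nf.app hε (fun x => Real.sin (Real.pi * x))
    (Real.pi * Real.cos (Real.pi * (((a.nf.p : ℝ) - a.nf.q) / DR))) ?_ ?_ ?_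
  · exact_mod_cast hg.2.1
  · have := piN_signed (s := (scS a.nf.p a.nf.q).cp) (t := (scS a.nf.p a.nf.q).cq)
      (x := Real.cos (Real.pi * (((a.nf.p : ℝ) - a.nf.q) / DR))) hg.2.2.1
      hg.1 (Real.abs_cos_le_one _)
    exact_mod_cast this
  · intro δ hδ
    exact pi_remainder (f := Real.sin) (f' := Real.cos) sin_second hδ

end A

end Pool.Agent.Work.NumIs

end

section

/-!
# Verified numerics for the kernel, part 6: `arctan`
-/

namespace Pool.Agent.Work.NumIs

/-- a guess for `arctan (m / D) / π * D`, `m ≤ D` -/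
def atG0 (m : ℕ) : ℕ :=
  let w := Nat.div (Nat.mul m m) 68719476736
  Nat.div (Nat.mul m (Nat.sub 21871157691 (Nat.div (Nat.mul w (Nat.sub 7225000600 (Nat.div (Nat.mul w (Nat.sub 3940420234 (Nat.div (Nat.mul w (Nat.sub 1862206803 (Nat.div (Nat.mul w 455748828) 68719476736))) 68719476736))) 68719476736))) 68719476736))) 68719476736

def atG (m : ℕ) : ℕ :=
  cnd (Nat.ble m 68719476736) (atG0 m) (Nat.sub 34359738368 (atG0 (Nat.div 4722366482869645213696 m)))

/-- `arctan (m / D) * D` up to `13`, if the checks succeed -/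
def atN (m : ℕ) : Option (ℕ × ℕ) :=
  let G := atG m
  let s := scN G
  let NP := Nat.add (Nat.mul m s.cp) (Nat.mul 68719476736 s.sq)
  let NQ := Nat.add (Nat.mul m s.cq) (Nat.mul 68719476736 s.sp)
  let DP := Nat.add (Nat.mul 68719476736 s.cp) (Nat.mul m s.sp)
  let DQ := Nat.add (Nat.mul 68719476736 s.cq) (Nat.mul m s.sq)
  let Den := Nat.sub DP DQ
  let ZP := Nat.div (Nat.mul (Nat.sub NP NQ) 68719476736) Den
  let ZQ := Nat.div (Nat.mul (Nat.sub NQ NP) 68719476736) Den
  cnd (Nat.ble G 34359738368)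
    (cnd (Nat.ble (Nat.add (Nat.mul 68719476736 (Nat.add 68719476736 m)) (Nat.mul 8 (Nat.add 68719476736 m))) (Nat.mul 2 Den))
      (cnd (Nat.ble (Nat.add ZP ZQ) 4194304) (some (Nat.add (piN G) ZP, ZQ)) none) none) none

lemma arctan_sub_self (z : ℝ) : |Real.arctan z - z| ≤ |z| ^ 3 := by
  have pos : ∀ t : ℝ, 0 ≤ t → |Real.arctan t - t| ≤ t ^ 3 := by
    intro t ht
    have h1 : ∀ s : ℝ, HasDerivAt (fun s => Real.arctan s - s) (1 / (1 + s ^ 2) - 1) s := fun s =>
      (Real.hasDerivAt_arctan s).sub (hasDerivAt_id s)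
    have key := image_norm_le_of_norm_deriv_right_le_deriv_boundary
      (f := fun s => Real.arctan s - s) (f' := fun s => 1 / (1 + s ^ 2) - 1)
      (a := 0) (b := t) (B := fun s => s ^ 3) (B' := fun s => 3 * s ^ 2)
    have h2 := key (fun s _ => (h1 s).continuousAt.continuousWithinAt)
      (fun s _ => (h1 s).hasDerivWithinAt) (by simp)
      (fun s => by simpa using hasDerivAt_pow 3 s)
      (fun s hs => by
        rw [Real.norm_eq_abs]
        have e : 1 / (1 + s ^ 2) - 1 = -(s ^ 2 / (1 + s ^ 2)) := by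
          field_simp
          ring
        rw [e, abs_neg, abs_of_nonneg (by positivity), div_le_iff₀ (by positivity)]
        nlinarith only [sq_nonneg s, sq_nonneg (s ^ 2)])
      (Set.right_mem_Icc.2 ht)
    simpa [Real.norm_eq_abs] using h2
  rcases le_total 0 z with h | h
  · rw [abs_of_nonneg h]; exact pos z h
  · have := pos (-z) (by linarith only [h])
    rw [Real.arctan_neg] at this
    rw [abs_of_nonpos h, ← abs_neg]
    convert this using 2
    ring

/-- the correction formula -/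
lemma arctan_correction {v θ : ℝ} (hv : 0 ≤ v) (h0 : 0 ≤ θ) (h1 : θ ≤ Real.pi / 2)
    (hd : 0 < Real.cos θ + v * Real.sin θ) :
    Real.arctan v - θ = Real.arctan ((v * Real.cos θ - Real.sin θ) / (Real.cos θ + v * Real.sin θ)) := by
  set α := Real.arctan v with hα
  have hcα : 0 < Real.cos α := Real.cos_arctan_pos v
  have hvα : v = Real.sin α / Real.cos α := by
    rw [← Real.tan_eq_sin_div_cos, hα, Real.tan_arctan]
  have hα0 : 0 ≤ α := Real.arctan_nonneg.2 hv
  have hα1 : α < Real.pi / 2 := Real.arctan_lt_pi_div_two v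
  have e1 : v * Real.cos θ - Real.sin θ = Real.sin (α - θ) / Real.cos α := by
    rw [Real.sin_sub, hvα]; field_simp
  have e2 : Real.cos θ + v * Real.sin θ = Real.cos (α - θ) / Real.cos α := by
    rw [Real.cos_sub, hvα]; field_simp
  rw [e2] at hd
  have hcd : 0 < Real.cos (α - θ) := by
    have := mul_pos hd hcα
    rwa [div_mul_cancel₀ _ hcα.ne'] at this
  have hgt : -(Real.pi / 2) < α - θ := by
    rcases lt_or_eq_of_le (by linarith only [h1, hα0] : -(Real.pi / 2) ≤ α - θ) with h | h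
    · exact h
    · rw [← h, Real.cos_neg, Real.cos_pi_div_two] at hcd
      exact absurd hcd (lt_irrefl _)
  rw [e1, e2, div_div_div_cancel_right₀ hcα.ne', ← Real.tan_eq_sin_div_cos, Real.arctan_tan hgt (by linarith only [h0, hα1])]

lemma atN_spec {m : ℕ} {r : ℕ × ℕ} (h : atN m = some r) :
    |Real.arctan ((m : ℝ) / DR) * DR - ((r.1 : ℝ) - r.2)| ≤ 13 := by
  have hD := DR_pos
  unfold atN at h
  simp only [cnd_eq] at h
  set G := atG m
  have hgood := scN_good G
  set s := scN G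
  rcases h1 : Nat.ble G 34359738368 with _ | _
  · rw [h1] at h; exact absurd h (by simp)
  rw [h1, cond_true] at h
  set NP := Nat.add (Nat.mul m s.cp) (Nat.mul 68719476736 s.sq) with hNP
  set NQ := Nat.add (Nat.mul m s.cq) (Nat.mul 68719476736 s.sp) with hNQ
  set DP := Nat.add (Nat.mul 68719476736 s.cp) (Nat.mul m s.sp) with hDP
  set DQ := Nat.add (Nat.mul 68719476736 s.cq) (Nat.mul m s.sq) with hDQ
  set Den := Nat.sub DP DQ with hDen
  rcases h2 : Nat.ble (Nat.add (Nat.mul 68719476736 (Nat.add 68719476736 m)) (Nat.mul 8 (Nat.add 68719476736 m))) (Nat.mul 2 Den) with _ | _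
  · rw [h2] at h; exact absurd h (by simp)
  rw [h2, cond_true] at h
  set ZP := Nat.div (Nat.mul (Nat.sub NP NQ) 68719476736) Den with hZP
  set ZQ := Nat.div (Nat.mul (Nat.sub NQ NP) 68719476736) Den with hZQ
  rcases h3 : Nat.ble (Nat.add ZP ZQ) 4194304 with _ | _
  · rw [h3] at h; exact absurd h (by simp)
  rw [h3, cond_true] at h
  have h := Option.some.inj h
  rw [← h]
  obtain ⟨gc, gs, -, -⟩ := hgood
  have hG : (G : ℝ) ≤ DR / 2 := by
    have := Nat.le_of_ble_eq_true h1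
    have h16 : ((34359738368 : ℕ) : ℝ) = DR / 2 := by unfold DR; norm_num
    rw [← h16]; exact_mod_cast this
  set θ := Real.pi * G / DR with hθ
  have hθ0 : 0 ≤ θ := by rw [hθ]; positivity
  have hθ1 : θ ≤ Real.pi / 2 := by
    rw [hθ, div_le_iff₀ hD]
    have := Real.pi_pos
    nlinarith only [hG, this]
  have h2' := Nat.le_of_ble_eq_true h2
  have hDenpos : 0 < Den := by
    by_contra hc
    have : Den = 0 := by omega
    rw [this] at h2'
    change 68719476736 * (68719476736 + m) + 8 * (68719476736 + m) ≤ 2 * 0 at h2'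
    omega
  have hDPQ : DQ ≤ DP := by
    by_contra hc
    have : Den = 0 := Nat.sub_eq_zero_of_le (not_le.1 hc).le
    omega
  have hDenr : (Den : ℝ) = DR * ((s.cp : ℝ) - s.cq) + m * ((s.sp : ℝ) - s.sq) := by
    have e0 : (Den : ℝ) = (DP : ℝ) - DQ := Nat.cast_sub hDPQ
    have e1 : (DP : ℝ) = DR * s.cp + m * s.sp := by
      change ((68719476736 * s.cp + m * s.sp : ℕ) : ℝ) = _
      rw [Nat.cast_add, Nat.cast_mul, Nat.cast_mul, DN_cast]
    have e2 : (DQ : ℝ) = DR * s.cq + m * s.sq := by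
      change ((68719476736 * s.cq + m * s.sq : ℕ) : ℝ) = _
      rw [Nat.cast_add, Nat.cast_mul, Nat.cast_mul, DN_cast]
    rw [e0, e1, e2]; ring
  have hNr : (NP : ℝ) - NQ = m * ((s.cp : ℝ) - s.cq) - DR * ((s.sp : ℝ) - s.sq) := by
    have e1 : (NP : ℝ) = m * s.cp + DR * s.sq := by
      change ((m * s.cp + 68719476736 * s.sq : ℕ) : ℝ) = _
      rw [Nat.cast_add, Nat.cast_mul, Nat.cast_mul, DN_cast]
    have e2 : (NQ : ℝ) = m * s.cq + DR * s.sp := by
      change ((m * s.cq + 68719476736 * s.sp : ℕ) : ℝ) = _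
      rw [Nat.cast_add, Nat.cast_mul, Nat.cast_mul, DN_cast]
    rw [e1, e2]; ring
  have h2r : DR * (DR + m) + 8 * (DR + m) ≤ 2 * Den := by
    have : ((68719476736 * (68719476736 + m) + 8 * (68719476736 + m) : ℕ) : ℝ) ≤ ((2 * Den : ℕ) : ℝ) := by
      exact_mod_cast h2'
    rw [Nat.cast_add, Nat.cast_mul, Nat.cast_mul, Nat.cast_mul, Nat.cast_add, DN_cast] at this
    exact_mod_cast this
  have hm0 : (0 : ℝ) ≤ m := Nat.cast_nonneg _
  set v : ℝ := (m : ℝ) / DR with hv
  have hv0 : 0 ≤ v := by rw [hv]; positivity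
  have hmv : (m : ℝ) = v * DR := by rw [hv]; field_simp
  set C := Real.cos θ
  set S := Real.sin θ
  set c : ℝ := (s.cp : ℝ) - s.cq
  set t : ℝ := (s.sp : ℝ) - s.sq
  have gc' := abs_le.1 gc
  have gs' := abs_le.1 gs
  set Dt := C + v * S with hDt
  set Nt := v * C - S with hNt
  -- errors of numerator and denominator
  have eD : |Dt * (DR * DR) - Den| ≤ 4 * (DR + m) := by
    have e : Dt * (DR * DR) - Den = DR * (C * DR - c) + m * (S * DR - t) := by
      rw [hDenr, hDt, hmv]; ring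
    rw [e]
    refine (abs_add_le _ _).trans ?_
    rw [abs_mul, abs_mul, abs_of_pos hD, abs_of_nonneg hm0]
    nlinarith only [hD, gc, gs]
  have eN : |Nt * (DR * DR) - ((NP : ℝ) - NQ)| ≤ 4 * (DR + m) := by
    have e : Nt * (DR * DR) - ((NP : ℝ) - NQ) = m * (C * DR - c) - DR * (S * DR - t) := by
      rw [hNr, hNt, hmv]; ring
    rw [e]
    refine (abs_sub _ _).trans ?_
    rw [abs_mul, abs_mul, abs_of_pos hD, abs_of_nonneg hm0]
    nlinarith only [hD, gc, gs]
  have hDtpos : DR * (DR + m) / 2 ≤ Dt * (DR * DR) := by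
    have := (abs_le.1 eD).1
    linarith only [h2r, this]
  have hDt0 : 0 < Dt := by
    have : 0 < DR * (DR + m) / 2 := by positivity
    have h5 := this.trans_le hDtpos
    by_contra hc
    have := mul_nonpos_of_nonpos_of_nonneg (not_lt.1 hc) (by positivity : 0 ≤ DR * DR)
    linarith only [h5, this]
  have hDenR : (0 : ℝ) < Den := by exact_mod_cast hDenpos
  set z : ℝ := ((NP : ℝ) - NQ) / Den with hz
  have hzerr : |(ZP : ℝ) - ZQ - z * DR| ≤ 1 := by
    have k := sdiv_err (NP * 68719476736) (NQ * 68719476736) (b := Den) hDenpos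
    have e1 : NP * 68719476736 - NQ * 68719476736 = (NP - NQ) * 68719476736 := (Nat.sub_mul _ _ _).symm
    have e2 : NQ * 68719476736 - NP * 68719476736 = (NQ - NP) * 68719476736 := (Nat.sub_mul _ _ _).symm
    rw [e1, e2, Nat.cast_mul, Nat.cast_mul, DN_cast] at k
    have e3 : ((NP : ℝ) * DR - NQ * DR) / Den = z * DR := by rw [hz]; ring
    rw [e3] at k
    exact k
  have hZsmall : |(ZP : ℝ) - ZQ| ≤ 4194304 := by
    have h4 := Nat.le_of_ble_eq_true h3
    have h5 : (ZP : ℝ) + ZQ ≤ 4194304 := by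
      have : ZP + ZQ ≤ 4194304 := h4
      exact_mod_cast this
    exact (A.abs_pq _ _).trans h5
  have hzD : |z * DR| ≤ 4194305 := by
    have e : z * DR = ((ZP : ℝ) - ZQ) - ((ZP : ℝ) - ZQ - z * DR) := by ring
    rw [e]
    exact (abs_sub _ _).trans (by linarith only [hzerr, hZsmall])
  have hz1 : |z| ≤ 1 / 16000 := by
    rw [abs_mul, abs_of_pos hD] at hzD
    have : DR * (1 / 16000) ≥ 4194305 := by unfold DR; norm_num
    nlinarith only [hD, hzD, this]
  set zt : ℝ := Nt / Dt with hzt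
  have hzz : |zt - z| * DR ≤ 8 * (1 + |z|) := by
    have e : zt - z = ((Nt * (DR * DR) - ((NP : ℝ) - NQ)) - z * (Dt * (DR * DR) - Den)) /
        (Dt * (DR * DR)) := by
      rw [hzt, eq_div_iff (by positivity), hz]
      field_simp
      ring
    rw [e, abs_div, abs_of_pos (by positivity : 0 < Dt * (DR * DR)), div_mul_eq_mul_div,
      div_le_iff₀ (by positivity)]
    have h6 : |(Nt * (DR * DR) - ((NP : ℝ) - NQ)) - z * (Dt * (DR * DR) - Den)| ≤
        4 * (DR + m) * (1 + |z|) := by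
      refine (abs_sub _ _).trans ?_
      rw [abs_mul]
      have := mul_le_mul_of_nonneg_left eD (abs_nonneg z)
      nlinarith only [eN, this]
    calc _ ≤ 4 * (DR + m) * (1 + |z|) * DR := by gcongr
      _ = 8 * (1 + |z|) * (DR * (DR + m) / 2) := by ring
      _ ≤ _ := by gcongr
  have hzt1 : |zt| ≤ 1 / 15000 := by
    have h7 : |zt - z| ≤ 1 / 1000000 := by
      have h8 : 8 * (1 + |z|) ≤ 1 / 1000000 * DR := by
        have : (9 : ℝ) ≤ 1 / 1000000 * DR := by unfold DR; norm_num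
        nlinarith only [hz1, this]
      exact le_of_mul_le_mul_right (hzz.trans h8) hD
    have e : zt = z + (zt - z) := by ring
    rw [e]
    refine (abs_add_le _ _).trans ?_
    linarith only [hz1, h7]
  have hcorr := arctan_correction hv0 hθ0 hθ1 hDt0
  have hat := arctan_sub_self zt
  have hcube : |zt| ^ 3 * DR ≤ 1 := by
    calc |zt| ^ 3 * DR ≤ (1 / 15000) ^ 3 * DR := by gcongr
      _ ≤ 1 := by unfold DR; norm_num
  have hpi := piN_err (r := G) (by linarith only [hD, hG])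
  have hθD : θ * DR = Real.pi * G := by rw [hθ]; field_simp
  have e : Real.arctan v * DR - (((Nat.add (piN G) ZP : ℕ) : ℝ) - ZQ) =
      (Real.arctan zt - zt) * DR + (zt - z) * DR + -((ZP : ℝ) - ZQ - z * DR) +
      (Real.pi * G - piN G) := by
    have e1 : ((Nat.add (piN G) ZP : ℕ) : ℝ) = (piN G : ℝ) + ZP := by
      change ((piN G + ZP : ℕ) : ℝ) = _
      push_cast; ring
    rw [e1, ← hθD, hzt, hNt, hDt, ← hcorr]
    ring
  rw [e]
  have b1 : |(Real.arctan zt - zt) * DR| ≤ 1 := by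
    rw [abs_mul, abs_of_pos hD]
    exact (mul_le_mul_of_nonneg_right hat hD.le).trans hcube
  have b2 : |(zt - z) * DR| ≤ 9 := by
    rw [abs_mul, abs_of_pos hD]
    refine hzz.trans ?_
    linarith only [hz1]
  have b3 : |-((ZP : ℝ) - ZQ - z * DR)| ≤ 1 := by rw [abs_neg]; exact hzerr
  refine (abs_add_le _ _).trans ?_
  have := abs_add_three ((Real.arctan zt - zt) * DR) ((zt - z) * DR) (-((ZP : ℝ) - ZQ - z * DR))
  linarith only [hpi, b1, b2, b3, this]

lemma arctan_lip (x y : ℝ) : |1 / (1 + x ^ 2) - 1 / (1 + y ^ 2)| ≤ 1 * |x - y| := by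
  have e : 1 / (1 + x ^ 2) - 1 / (1 + y ^ 2) = -(((x + y) / ((1 + x ^ 2) * (1 + y ^ 2))) * (x - y)) := by
    have h1 : 1 + x ^ 2 ≠ 0 := by positivity
    have h2 : 1 + y ^ 2 ≠ 0 := by positivity
    field_simp
    ring
  rw [e, abs_neg, abs_mul]
  gcongr
  rw [abs_div, abs_of_pos (by positivity : 0 < (1 + x ^ 2) * (1 + y ^ 2)), div_le_one (by positivity)]
  rw [abs_le]
  constructor <;> nlinarith only [sq_nonneg (x - 1), sq_nonneg (x + 1), sq_nonneg (y - 1), sq_nonneg (y + 1),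
    sq_nonneg (x * y), sq_nonneg x, sq_nonneg y]

namespace A

def atan (a : A) : Option A :=
  let n := a.nf
  let m := Nat.add n.p n.q
  let T := n.tot
  let d := Nat.div 324518553658426726783156020576256 (Nat.add 4722366482869645213696 (Nat.mul m m))
  let k := Nat.add (Nat.div (Nat.mul T T) 137438953472) 1
  match atN m with
  | none => none
  | some r => cond (Nat.beq n.q 0) (some (n.app r.1 r.2 13 d 0 1 k)) (some (n.app r.2 r.1 13 d 0 1 k))

lemma Encl.atan {a b : A} {ε : ℕ → ℝ} {x : ℝ} (hε : ∀ i, |ε i| ≤ 1) (hx : a.Encl ε x)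
    (h : a.atan = some b) : b.Encl ε (Real.arctan x) := by
  have hD := DR_pos
  have hn := nf_normal a
  have hx := hx.nf
  unfold A.atan at h
  set n := a.nf
  simp only at h
  set m := Nat.add n.p n.q with hm
  rcases hr : atN m with _ | r
  · rw [hr] at h; exact absurd h (by simp)
  rw [hr] at h
  have hs := atN_spec hr
  have hDD : ((4722366482869645213696 : ℕ) : ℝ) = DR * DR := by unfold DR; norm_num
  have hDDD : ((324518553658426726783156020576256 : ℕ) : ℝ) = DR * DR * DR := by unfold DR; norm_num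
  have hd : |1 / (1 + (((n.p : ℝ) - n.q) / DR) ^ 2) * DR -
      (((Nat.div 324518553658426726783156020576256 (Nat.add 4722366482869645213696 (Nat.mul m m)) : ℕ) : ℝ) - ((0 : ℕ) : ℝ))| ≤ ((1 : ℕ) : ℝ) := by
    have k1 := ndiv_le 324518553658426726783156020576256 (4722366482869645213696 + m * m)
    have k2 := lt_ndiv 324518553658426726783156020576256 (b := 4722366482869645213696 + m * m) (by positivity)
    rw [hDDD, Nat.cast_add, hDD, Nat.cast_mul] at k1 k2
    have hmm : (m : ℝ) * m = ((n.p : ℝ) - n.q) ^ 2 := by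
      have e1 : (m : ℝ) = n.p + n.q := by
        rw [hm]
        change ((n.p + n.q : ℕ) : ℝ) = _
        push_cast; ring
      rw [e1]
      rcases hn with h0 | h0 <;> rw [h0] <;> push_cast <;> ring
    rw [hmm] at k1 k2
    have e : 1 / (1 + (((n.p : ℝ) - n.q) / DR) ^ 2) * DR =
        DR * DR * DR / (DR * DR + ((n.p : ℝ) - n.q) ^ 2) := by
      have : DR * DR + ((n.p : ℝ) - n.q) ^ 2 ≠ 0 := by positivity
      have : 1 + (((n.p : ℝ) - n.q) / DR) ^ 2 ≠ 0 := by positivity
      field_simp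
    change |1 / (1 + (((n.p : ℝ) - n.q) / DR) ^ 2) * DR -
      (((324518553658426726783156020576256 / (4722366482869645213696 + m * m) : ℕ) : ℝ) - ((0 : ℕ) : ℝ))| ≤ ((1 : ℕ) : ℝ)
    rw [e, Nat.cast_zero, sub_zero, Nat.cast_one, abs_le]
    constructor <;> linarith only [k1, k2]
  have hk : ∀ δ : ℝ, |δ| ≤ (n.tot : ℝ) →
      |Real.arctan (((n.p : ℝ) - n.q + δ) / DR) * DR - Real.arctan (((n.p : ℝ) - n.q) / DR) * DR -
        1 / (1 + (((n.p : ℝ) - n.q) / DR) ^ 2) * δ| ≤
      ((Nat.add (Nat.div (Nat.mul n.tot n.tot) 137438953472) 1 : ℕ) : ℝ) := by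
    intro δ hδ
    have k := lt_ndiv (n.tot * n.tot) (b := 137438953472) (by norm_num)
    have h2D : ((137438953472 : ℕ) : ℝ) = 2 * DR := by unfold DR; norm_num
    rw [h2D] at k
    change _ ≤ ((n.tot * n.tot / 137438953472 + 1 : ℕ) : ℝ)
    push_cast at k ⊢
    refine le_trans ?_ k.le
    have h1 := second_order (f := Real.arctan) (f' := fun x => 1 / (1 + x ^ 2))
      (((n.p : ℝ) - n.q) / DR) (δ / DR) Real.hasDerivAt_arctan arctan_lip
    rw [← add_div] at h1
    have e : Real.arctan (((n.p : ℝ) - n.q + δ) / DR) * DR - Real.arctan (((n.p : ℝ) - n.q) / DR) * DR -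
        1 / (1 + (((n.p : ℝ) - n.q) / DR) ^ 2) * δ =
        (Real.arctan (((n.p : ℝ) - n.q + δ) / DR) - Real.arctan (((n.p : ℝ) - n.q) / DR) -
        1 / (1 + (((n.p : ℝ) - n.q) / DR) ^ 2) * (δ / DR)) * DR := by
      field_simp
    rw [e, abs_mul, abs_of_pos hD]
    refine (mul_le_mul_of_nonneg_right h1 hD.le).trans ?_
    have h3 : δ ^ 2 ≤ (n.tot : ℝ) * n.tot := by
      rw [← pow_two, ← sq_abs δ]; gcongr
    have e2 : 1 * (δ / DR) ^ 2 / 2 * DR = δ ^ 2 / (2 * DR) := by field_simp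
    rw [e2]
    gcongr
  rcases hq : Nat.beq n.q 0 with _ | _
  · simp only [hq, cond_false] at h
    have hq0 : n.q ≠ 0 := fun h0 => by rw [h0] at hq; exact absurd hq (by decide)
    have hp : n.p = 0 := hn.resolve_right hq0
    have h := Option.some.inj h
    rw [← h]
    refine hx.app hε Real.arctan _ ?_ hd hk
    have e : (m : ℝ) / DR = -(((n.p : ℝ) - n.q) / DR) := by
      rw [hm]
      change (((n.p + n.q : ℕ) : ℝ) / DR) = _
      rw [hp]; push_cast; ring
    rw [e, Real.arctan_neg] at hs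
    rw [← abs_neg]
    have : -(Real.arctan (((n.p : ℝ) - n.q) / DR) * DR - ((r.2 : ℝ) - r.1)) =
        -Real.arctan (((n.p : ℝ) - n.q) / DR) * DR - ((r.1 : ℝ) - r.2) := by ring
    rw [this]
    exact_mod_cast hs
  · simp only [hq, cond_true] at h
    have hq0 : n.q = 0 := Nat.eq_of_beq_eq_true hq
    have h := Option.some.inj h
    rw [← h]
    refine hx.app hε Real.arctan _ ?_ hd hk
    have e : (m : ℝ) / DR = (((n.p : ℝ) - n.q) / DR) := by
      rw [hm]
      change (((n.p + n.q : ℕ) : ℝ) / DR) = _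
      rw [hq0]; push_cast; ring
    rw [e] at hs
    exact_mod_cast hs

end A

end Pool.Agent.Work.NumIs

end

section

/-!
# Verified numerics for the kernel, part 4: `exp`, `cosh`, `sinh`
-/

namespace Pool.Agent.Work.NumIs

open Finset

noncomputable def SR : ℝ := 281474976710656

lemma SR_pos : 0 < SR := by unfold SR; norm_num
lemma SR_DR : SR = 4096 * DR := by unfold SR DR; norm_num
lemma SN_cast : ((281474976710656 : ℕ) : ℝ) = SR := by unfold SR; norm_num

lemma exp_taylor {r : ℝ} (h0 : 0 ≤ r) (h1 : r ≤ 1 / 4) :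
    (1 + r + r ^ 2 / 2 + r ^ 3 / 6 + r ^ 4 / 24 + r ^ 5 / 120 + r ^ 6 / 720 + r ^ 7 / 5040 +
      r ^ 8 / 40320 + r ^ 9 / 362880) ≤ Real.exp r ∧
    Real.exp r ≤ (1 + r + r ^ 2 / 2 + r ^ 3 / 6 + r ^ 4 / 24 + r ^ 5 / 120 + r ^ 6 / 720 +
      r ^ 7 / 5040 + r ^ 8 / 40320 + r ^ 9 / 362880) + 3 / 10000000000000 := by
  have e : ∑ m ∈ range 10, r ^ m / (m.factorial : ℝ) =
      (1 + r + r ^ 2 / 2 + r ^ 3 / 6 + r ^ 4 / 24 + r ^ 5 / 120 + r ^ 6 / 720 + r ^ 7 / 5040 +
      r ^ 8 / 40320 + r ^ 9 / 362880) := by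
    simp only [sum_range_succ, sum_range_zero, Nat.factorial]
    push_cast
    ring
  constructor
  · rw [← e]
    exact Real.sum_le_exp_of_nonneg h0 10
  · have h2 := Real.exp_bound' h0 (by linarith only [h1] : r ≤ 1) (n := 10) (by norm_num)
    rw [e] at h2
    refine h2.trans ?_
    have h3 : r ^ 10 ≤ (1 / 4 : ℝ) ^ 10 := by gcongr
    have e2 : (Nat.factorial 10 : ℕ) = 3628800 := by decide
    rw [e2]
    push_cast
    nlinarith only [h3]

/-- Horner numerator of the degree 9 Taylor polynomial at `m / M`, `M = 64 D`, over `9! M ^ 9` -/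
def expN (m : ℕ) : ℕ :=
  Nat.add 223409375133556697133622157367814290274802121663539082607266823602073242444389184166718889665197471683373580705039646720 (Nat.mul m (
  Nat.add 50797410752592599495442790923292316227798919877281851451531752809858799638366050241238301547400049385799680 (Nat.mul m (
  Nat.add 5774996992908268054571043526640587086580912896042929270553458173919670984829059562029931560960 (Nat.mul m (
  Nat.add 437694097317055218701098323332840291685360542036121332069149667549911630038958080 (Nat.mul m (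
  Nat.add 24880028906696635357383134040267139635338966288379727533830968442880 (Nat.mul m (
  Nat.add 1131412723529894508709873391138314201968522242549612544 (Nat.mul m (
  Nat.add 42875578232038246396385200536402794643456 (Nat.mul m (
  Nat.add 1392682544196052809261514752 (Nat.mul m (
  Nat.add 39582418599936 m))))))))))))))))

def sqLo (a : ℕ) : ℕ := Nat.div (Nat.mul a a) 281474976710656
def sqHi (a : ℕ) : ℕ := Nat.add (Nat.div (Nat.mul a a) 281474976710656) 1

def exp0 (m : ℕ) : ℕ := Nat.div (Nat.mul 281474976710656 (expN m)) 223409375133556697133622157367814290274802121663539082607266823602073242444389184166718889665197471683373580705039646720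

/-- lower and upper bound of `exp (m / D) * D` -/
def expLo (m : ℕ) : ℕ := Nat.div (sqLo (sqLo (sqLo (sqLo (sqLo (sqLo (exp0 m))))))) 4096
def expHi (m : ℕ) : ℕ := Nat.add (Nat.div (sqHi (sqHi (sqHi (sqHi (sqHi (sqHi (Nat.add (exp0 m) 90))))))) 4096) 1

lemma sqLo_spec {a : ℕ} {x : ℝ} (h : (a : ℝ) ≤ Real.exp x * SR) :
    (sqLo a : ℝ) ≤ Real.exp (2 * x) * SR := by
  have hS := SR_pos
  change ((a * a / 281474976710656 : ℕ) : ℝ) ≤ _
  refine (ndiv_le _ _).trans ?_
  rw [SN_cast, two_mul, Real.exp_add, div_le_iff₀ hS]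
  push_cast
  have h0' : (0 : ℝ) ≤ a := Nat.cast_nonneg _
  calc (a : ℝ) * a ≤ (Real.exp x * SR) * (Real.exp x * SR) := by gcongr
    _ = _ := by ring

lemma sqHi_spec {a : ℕ} {x : ℝ} (h : Real.exp x * SR ≤ (a : ℝ)) :
    Real.exp (2 * x) * SR ≤ (sqHi a : ℝ) := by
  have hS := SR_pos
  have h1 := lt_ndiv (a * a) (b := 281474976710656) (by norm_num)
  have h2 : Real.exp (2 * x) * SR ≤ ((a * a : ℕ) : ℝ) / ((281474976710656 : ℕ) : ℝ) := by
    rw [SN_cast, two_mul, Real.exp_add, le_div_iff₀ hS]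
    push_cast
    have : 0 ≤ Real.exp x * SR := by positivity
    have haa : (0 : ℝ) ≤ a := this.trans h
    calc Real.exp x * Real.exp x * SR * SR = (Real.exp x * SR) * (Real.exp x * SR) := by ring
      _ ≤ (a : ℝ) * a := by gcongr
  change _ ≤ ((a * a / 281474976710656 + 1 : ℕ) : ℝ)
  push_cast at h1 h2 ⊢
  linarith only [h1, h2]

lemma expN_real (m : ℕ) :
    ((281474976710656 * expN m : ℕ) : ℝ) / ((223409375133556697133622157367814290274802121663539082607266823602073242444389184166718889665197471683373580705039646720 : ℕ) : ℝ) =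
    (1 + ((m : ℝ) / (64 * DR)) + ((m : ℝ) / (64 * DR)) ^ 2 / 2 + ((m : ℝ) / (64 * DR)) ^ 3 / 6 +
      ((m : ℝ) / (64 * DR)) ^ 4 / 24 + ((m : ℝ) / (64 * DR)) ^ 5 / 120 +
      ((m : ℝ) / (64 * DR)) ^ 6 / 720 + ((m : ℝ) / (64 * DR)) ^ 7 / 5040 +
      ((m : ℝ) / (64 * DR)) ^ 8 / 40320 + ((m : ℝ) / (64 * DR)) ^ 9 / 362880) * SR := by
  have e : expN m = 223409375133556697133622157367814290274802121663539082607266823602073242444389184166718889665197471683373580705039646720 + m * (50797410752592599495442790923292316227798919877281851451531752809858799638366050241238301547400049385799680 + m * (5774996992908268054571043526640587086580912896042929270553458173919670984829059562029931560960 + m * (437694097317055218701098323332840291685360542036121332069149667549911630038958080 + m * (24880028906696635357383134040267139635338966288379727533830968442880 + m * (1131412723529894508709873391138314201968522242549612544 + m * (42875578232038246396385200536402794643456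 + m * (1392682544196052809261514752 + m * (39582418599936 + m)))))))) := rfl
  rw [e]
  unfold DR SR
  push_cast
  field_simp
  ring

lemma exp_spec {m : ℕ} (h1 : (m : ℝ) ≤ 16 * DR) :
    (expLo m : ℝ) ≤ Real.exp ((m : ℝ) / DR) * DR ∧
    Real.exp ((m : ℝ) / DR) * DR ≤ (expHi m : ℝ) := by
  have hD := DR_pos
  have hS := SR_pos
  set r : ℝ := (m : ℝ) / (64 * DR) with hr
  have hr0 : 0 ≤ r := by rw [hr]; positivity
  have hr1 : r ≤ 1 / 4 := by
    rw [hr, div_le_iff₀ (by positivity)]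
    linarith only [h1]
  obtain ⟨t1, t2⟩ := exp_taylor hr0 hr1
  have hN := expN_real m
  rw [← hr] at hN
  set P := (1 + r + r ^ 2 / 2 + r ^ 3 / 6 + r ^ 4 / 24 + r ^ 5 / 120 + r ^ 6 / 720 + r ^ 7 / 5040 +
      r ^ 8 / 40320 + r ^ 9 / 362880)
  have q1 := ndiv_le (281474976710656 * expN m) 223409375133556697133622157367814290274802121663539082607266823602073242444389184166718889665197471683373580705039646720
  have q2 := lt_ndiv (281474976710656 * expN m) (b := 223409375133556697133622157367814290274802121663539082607266823602073242444389184166718889665197471683373580705039646720) (by norm_num)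
  rw [hN] at q1 q2
  have hE : Real.exp ((m : ℝ) / DR) = Real.exp (2 * (2 * (2 * (2 * (2 * (2 * r)))))) := by
    congr 1; rw [hr]; field_simp; ring
  have hA : exp0 m = 281474976710656 * expN m / 223409375133556697133622157367814290274802121663539082607266823602073242444389184166718889665197471683373580705039646720 := rfl
  rw [← hA] at q1 q2
  have l0 : ((exp0 m : ℕ) : ℝ) ≤ Real.exp r * SR := q1.trans (by gcongr)
  have u0 : Real.exp r * SR ≤ ((exp0 m + 90 : ℕ) : ℝ) := by
    have : (3 / 10000000000000 : ℝ) * SR ≤ 85 := by unfold SR; norm_num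
    have h5 : Real.exp r * SR ≤ (P + 3 / 10000000000000) * SR := by gcongr
    push_cast
    nlinarith only [q2, this, h5]
  constructor
  · have l6 := sqLo_spec (sqLo_spec (sqLo_spec (sqLo_spec (sqLo_spec (sqLo_spec l0)))))
    change ((sqLo (sqLo (sqLo (sqLo (sqLo (sqLo (exp0 m)))))) / 4096 : ℕ) : ℝ) ≤ _
    refine (ndiv_le _ _).trans ?_
    rw [hE, div_le_iff₀ (by norm_num)]
    rw [SR_DR] at l6
    push_cast
    linarith only [l6]
  · have v6 := sqHi_spec (sqHi_spec (sqHi_spec (sqHi_spec (sqHi_spec (sqHi_spec u0)))))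
    change _ ≤ ((sqHi (sqHi (sqHi (sqHi (sqHi (sqHi (exp0 m + 90)))))) / 4096 + 1 : ℕ) : ℝ)
    have := lt_ndiv (sqHi (sqHi (sqHi (sqHi (sqHi (sqHi (exp0 m + 90))))))) (b := 4096) (by norm_num)
    rw [hE]
    rw [SR_DR] at v6
    push_cast at this ⊢
    rw [div_lt_iff₀ (by norm_num)] at this
    linarith only [v6, this]

/-- bounds of `exp (m / D) * D` and of `exp (-m / D) * D` -/
structure E4 where
  a : ℕ
  b : ℕ
  c : ℕ
  d : ℕ

def E4.Good (s : E4) (x : ℝ) : Prop :=
  (s.a : ℝ) ≤ Real.exp x * DR ∧ Real.exp x * DR ≤ s.b ∧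
  (s.c : ℝ) ≤ Real.exp (-x) * DR ∧ Real.exp (-x) * DR ≤ s.d

def ex4 (m : ℕ) : E4 :=
  ⟨expLo m, expHi m, Nat.div 4722366482869645213696 (expHi m), Nat.add (Nat.div 4722366482869645213696 (expLo m)) 1⟩

lemma ex4_good {m : ℕ} (h1 : (m : ℝ) ≤ 16 * DR) (h2 : 0 < expLo m) : (ex4 m).Good ((m : ℝ) / DR) := by
  have hD := DR_pos
  obtain ⟨l, u⟩ := exp_spec h1
  have hlo : (0 : ℝ) < (expLo m : ℝ) := by exact_mod_cast h2
  have hhi : (0 : ℝ) < (expHi m : ℝ) := lt_of_lt_of_le (by positivity) u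
  have hDD : ((4722366482869645213696 : ℕ) : ℝ) = DR * DR := by unfold DR; norm_num
  have hmul : Real.exp ((m : ℝ) / DR) * Real.exp (-((m : ℝ) / DR)) = 1 := by
    rw [← Real.exp_add]; simp
  have hmul2 : (Real.exp ((m : ℝ) / DR) * DR) * (Real.exp (-((m : ℝ) / DR)) * DR) = DR * DR := by
    calc _ = (Real.exp ((m : ℝ) / DR) * Real.exp (-((m : ℝ) / DR))) * (DR * DR) := by ring
      _ = _ := by rw [hmul, one_mul]
  refine ⟨l, u, ?_, ?_⟩
  · change ((4722366482869645213696 / expHi m : ℕ) : ℝ) ≤ _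
    refine (ndiv_le _ _).trans ?_
    rw [hDD, div_le_iff₀ hhi, ← hmul2, mul_comm]
    gcongr
  · change _ ≤ ((4722366482869645213696 / expLo m + 1 : ℕ) : ℝ)
    have := lt_ndiv 4722366482869645213696 (b := expLo m) h2
    rw [hDD] at this
    push_cast
    refine le_trans ?_ this.le
    rw [le_div_iff₀ hlo, ← hmul2, mul_comm]
    gcongr

lemma exp_second {t : ℝ} (ht : |t| ≤ 1) :
    |Real.exp t - 1 - t| ≤ t ^ 2 / 2 + |t| ^ 3 * (2 / 9) := by
  have h := Real.exp_bound ht (n := 3) (by norm_num)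
  have e : ∑ m ∈ range 3, t ^ m / (m.factorial : ℝ) = 1 + t + t ^ 2 / 2 := by
    simp [sum_range_succ, Nat.factorial]
  have e3 : |t| ^ 3 * ((Nat.succ 3 : ℕ) / ((Nat.factorial 3 : ℕ) * (3 : ℕ)) : ℝ) = |t| ^ 3 * (2 / 9) := by
    norm_num [Nat.factorial]
  rw [e, e3] at h
  have hc : Real.exp t - (1 + t + t ^ 2 / 2) = Real.exp t - 1 - t - t ^ 2 / 2 := by ring
  rw [hc] at h
  have b1 := abs_le.1 h
  have hn := sq_nonneg t
  rw [abs_le]; constructor <;> linarith only [b1, hn, b1.1, b1.2]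

/-- second order term `U * (T ^ 2 / 2 + 2 T ^ 3 / 9)`, in fixed point -/
def k2e (U T : ℕ) : ℕ := Nat.add (Nat.div (Nat.mul U (Nat.mul (Nat.mul T T) (Nat.add 618475290624 (Nat.mul 4 T)))) 5841333965851681082096808370372608) 1

lemma k2e_spec {U T : ℕ} {W δ : ℝ} (_hW0 : 0 ≤ W) (hW : W ≤ U) (hδ : |δ| ≤ (T : ℝ)) :
    W * ((δ / DR) ^ 2 / 2 + |δ / DR| ^ 3 * (2 / 9)) ≤ (k2e U T : ℝ) := by
  have hD := DR_pos
  have k := lt_ndiv (U * (T * T * (618475290624 + 4 * T))) (b := 5841333965851681082096808370372608) (by norm_num)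
  have hK : ((5841333965851681082096808370372608 : ℕ) : ℝ) = 18 * DR ^ 3 := by unfold DR; norm_num
  have h9 : ((618475290624 : ℕ) : ℝ) = 9 * DR := by unfold DR; norm_num
  change _ ≤ ((U * (T * T * (618475290624 + 4 * T)) / 5841333965851681082096808370372608 + 1 : ℕ) : ℝ)
  rw [hK] at k
  rw [Nat.cast_mul, Nat.cast_mul, Nat.cast_mul, Nat.cast_add, h9] at k
  push_cast
  refine le_trans ?_ k.le
  have e : W * ((δ / DR) ^ 2 / 2 + |δ / DR| ^ 3 * (2 / 9)) =
      W * (|δ| * |δ| * (9 * DR + 4 * |δ|)) / (18 * DR ^ 3) := by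
    have e2 : |δ / DR| = |δ| / DR := by rw [abs_div, abs_of_pos hD]
    have e3 : (δ / DR) ^ 2 = (|δ| / DR) ^ 2 := by rw [div_pow, div_pow, sq_abs]
    rw [e2, e3]
    field_simp
    ring
  rw [e]
  have h0 := abs_nonneg δ
  push_cast
  gcongr

namespace A

def exp (a : A) : Option A :=
  let n := a.nf
  let m := Nat.add n.p n.q
  let T := n.tot
  let s := ex4 m
  cond (Nat.ble m 1099511627776) (cond (Nat.ble 1 s.a) (cond (Nat.ble T 68719476736)
    (cond (Nat.beq n.q 0)
      (some (n.app s.a 0 (Nat.sub s.b s.a) s.a 0 (Nat.sub s.b s.a) (k2e s.b T)))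
      (some (n.app s.c 0 (Nat.sub s.d s.c) s.c 0 (Nat.sub s.d s.c) (k2e s.d T)))) none) none) none

lemma exp_app {n : A} {ε : ℕ → ℝ} {x : ℝ} (hε : ∀ i, |ε i| ≤ 1) (hx : n.Encl ε x) {lo hi : ℕ}
    (h1 : (lo : ℝ) ≤ Real.exp (((n.p : ℝ) - n.q) / DR) * DR)
    (h2 : Real.exp (((n.p : ℝ) - n.q) / DR) * DR ≤ (hi : ℝ)) (hT : (n.tot : ℝ) ≤ DR) :
    (n.app lo 0 (Nat.sub hi lo) lo 0 (Nat.sub hi lo) (k2e hi n.tot)).Encl ε (Real.exp x) := by
  have hD := DR_pos
  have hle : lo ≤ hi := by exact_mod_cast h1.trans h2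
  have hsub : ((Nat.sub hi lo : ℕ) : ℝ) = (hi : ℝ) - lo := Nat.cast_sub hle
  have hb : |Real.exp (((n.p : ℝ) - n.q) / DR) * DR - ((lo : ℝ) - ((0 : ℕ) : ℝ))| ≤
      ((Nat.sub hi lo : ℕ) : ℝ) := by
    rw [hsub, Nat.cast_zero, sub_zero, abs_le]; constructor <;> linarith only [h1, h2]
  refine hx.app hε Real.exp (Real.exp (((n.p : ℝ) - n.q) / DR)) hb hb ?_
  intro δ hδ
  have ht : |δ / DR| ≤ 1 := by
    rw [abs_div, abs_of_pos hD, div_le_one hD]; exact hδ.trans hT
  have h3 := exp_second ht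
  have e : Real.exp (((n.p : ℝ) - n.q + δ) / DR) * DR - Real.exp (((n.p : ℝ) - n.q) / DR) * DR -
      Real.exp (((n.p : ℝ) - n.q) / DR) * δ =
      (Real.exp (((n.p : ℝ) - n.q) / DR) * DR) * (Real.exp (δ / DR) - 1 - δ / DR) := by
    rw [add_div, Real.exp_add]
    field_simp
  rw [e, abs_mul, abs_of_nonneg (by positivity : 0 ≤ Real.exp (((n.p : ℝ) - n.q) / DR) * DR)]
  refine le_trans ?_ (k2e_spec (by positivity) h2 hδ)
  gcongr

lemma Encl.exp {a b : A} {ε : ℕ → ℝ} {x : ℝ} (hε : ∀ i, |ε i| ≤ 1) (hx : a.Encl ε x)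
    (h : a.exp = some b) : b.Encl ε (Real.exp x) := by
  have hn := nf_normal a
  have hx := hx.nf
  unfold A.exp at h
  set n := a.nf
  simp only at h
  rcases h1 : Nat.ble (Nat.add n.p n.q) 1099511627776 with _ | _
  · rw [h1] at h; exact absurd h (by simp)
  rw [h1, cond_true] at h
  rcases h2 : Nat.ble 1 (ex4 (Nat.add n.p n.q)).a with _ | _
  · rw [h2] at h; exact absurd h (by simp)
  rw [h2, cond_true] at h
  rcases h3 : Nat.ble n.tot 68719476736 with _ | _
  · rw [h3] at h; exact absurd h (by simp)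
  rw [h3, cond_true] at h
  have hm : (((Nat.add n.p n.q : ℕ)) : ℝ) ≤ 16 * DR := by
    have := Nat.le_of_ble_eq_true h1
    have h16 : ((1099511627776 : ℕ) : ℝ) = 16 * DR := by unfold DR; norm_num
    rw [← h16]; exact_mod_cast this
  have hlo : 0 < expLo (Nat.add n.p n.q) := Nat.le_of_ble_eq_true h2
  have hT : (n.tot : ℝ) ≤ DR := by
    rw [← DN_cast]; exact_mod_cast Nat.le_of_ble_eq_true h3
  obtain ⟨g1, g2, g3, g4⟩ := ex4_good hm hlo
  rcases hq : Nat.beq n.q 0 with _ | _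
  · rw [hq, cond_false] at h
    have hq0 : n.q ≠ 0 := fun h0 => by rw [h0] at hq; exact absurd hq (by decide)
    have hp : n.p = 0 := hn.resolve_right hq0
    have e : -(((Nat.add n.p n.q : ℕ) : ℝ) / DR) = ((n.p : ℝ) - n.q) / DR := by
      change -(((n.p + n.q : ℕ) : ℝ) / DR) = _
      rw [hp]; push_cast; ring
    rw [e] at g3 g4
    have h := Option.some.inj h
    rw [← h]
    exact exp_app hε hx g3 g4 hT
  · rw [hq, cond_true] at h
    have hq0 : n.q = 0 := Nat.eq_of_beq_eq_true hq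
    have e : (((Nat.add n.p n.q : ℕ) : ℝ) / DR) = ((n.p : ℝ) - n.q) / DR := by
      change (((n.p + n.q : ℕ) : ℝ) / DR) = _
      rw [hq0]; push_cast; ring
    rw [e] at g1 g2
    have h := Option.some.inj h
    rw [← h]
    exact exp_app hε hx g1 g2 hT

/-- `cosh` and `sinh` at `m / D`, lower bounds and errors -/
def chsh (s : E4) : E4 :=
  ⟨Nat.div (Nat.add s.a s.c) 2, Nat.sub (Nat.add (Nat.div (Nat.add s.b s.d) 2) 1) (Nat.div (Nat.add s.a s.c) 2),
   Nat.div (Nat.sub s.a s.d) 2, Nat.sub (Nat.add (Nat.div (Nat.sub s.b s.c) 2) 1) (Nat.div (Nat.sub s.a s.d) 2)⟩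

lemma chsh_good {s : E4} {x : ℝ} (hx : 0 ≤ x) (h : s.Good x) :
    |Real.cosh x * DR - (chsh s).a| ≤ (chsh s).b ∧ |Real.sinh x * DR - (chsh s).c| ≤ (chsh s).d ∧
    Real.cosh x * DR ≤ (((Nat.add (chsh s).a (chsh s).b : ℕ)) : ℝ) := by
  have hD := DR_pos
  obtain ⟨h1, h2, h3, h4⟩ := h
  have c1 : (((s.a + s.c) / 2 : ℕ) : ℝ) ≤ Real.cosh x * DR := by
    refine (ndiv_le _ _).trans ?_
    rw [Real.cosh_eq]; push_cast; linarith only [h1, h3]
  have c2 : Real.cosh x * DR ≤ (((s.b + s.d) / 2 + 1 : ℕ) : ℝ) := by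
    have := lt_ndiv (s.b + s.d) (b := 2) (by norm_num)
    rw [Real.cosh_eq]; push_cast at this ⊢; linarith only [h2, h4, this]
  have c3 : (s.a + s.c) / 2 ≤ (s.b + s.d) / 2 + 1 := by exact_mod_cast c1.trans c2
  have s0 : 0 ≤ Real.sinh x * DR := mul_nonneg (Real.sinh_nonneg_iff.2 hx) hD.le
  have s1 : (((s.a - s.d) / 2 : ℕ) : ℝ) ≤ Real.sinh x * DR := by
    refine (ndiv_le _ _).trans ?_
    rcases le_total s.d s.a with hh | hh
    · rw [Nat.cast_sub hh, Real.sinh_eq]; push_cast; linarith only [h1, h4]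
    · rw [Nat.sub_eq_zero_of_le hh]; simpa using s0
  have s2 : Real.sinh x * DR ≤ (((s.b - s.c) / 2 + 1 : ℕ) : ℝ) := by
    have h5 := lt_ndiv (s.b - s.c) (b := 2) (by norm_num)
    have h6 : (s.b : ℝ) - s.c ≤ ((s.b - s.c : ℕ) : ℝ) := by
      rcases le_total s.c s.b with hh | hh
      · rw [Nat.cast_sub hh]
      · rw [Nat.sub_eq_zero_of_le hh]
        have : (s.b : ℝ) ≤ s.c := by exact_mod_cast hh
        push_cast; linarith only [this]
    rw [Real.sinh_eq]; push_cast at h5 ⊢; linarith only [h2, h3, h5, h6]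
  have s3 : (s.a - s.d) / 2 ≤ (s.b - s.c) / 2 + 1 := by exact_mod_cast s1.trans s2
  have ea : ((chsh s).b : ℝ) = (((s.b + s.d) / 2 + 1 : ℕ) : ℝ) - (((s.a + s.c) / 2 : ℕ) : ℝ) :=
    Nat.cast_sub c3
  have eb : ((chsh s).d : ℝ) = (((s.b - s.c) / 2 + 1 : ℕ) : ℝ) - (((s.a - s.d) / 2 : ℕ) : ℝ) :=
    Nat.cast_sub s3
  have fa : ((chsh s).a : ℝ) = (((s.a + s.c) / 2 : ℕ) : ℝ) := rfl
  have fc : ((chsh s).c : ℝ) = (((s.a - s.d) / 2 : ℕ) : ℝ) := rfl
  refine ⟨?_, ?_, ?_⟩
  · rw [ea, fa, abs_le]; constructor <;> linarith only [c1, c2]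
  · rw [eb, fc, abs_le]; constructor <;> linarith only [s1, s2]
  · change _ ≤ (((chsh s).a + (chsh s).b : ℕ) : ℝ)
    rw [Nat.cast_add, ea, fa]; linarith only [c2]

lemma cosh_remainder {c δ : ℝ} (ht : |δ / DR| ≤ 1) :
    |Real.cosh ((c + δ) / DR) * DR - Real.cosh (c / DR) * DR - Real.sinh (c / DR) * δ| ≤
      (Real.cosh (c / DR) * DR) * ((δ / DR) ^ 2 / 2 + |δ / DR| ^ 3 * (2 / 9)) ∧
    |Real.sinh ((c + δ) / DR) * DR - Real.sinh (c / DR) * DR - Real.cosh (c / DR) * δ| ≤
      (Real.cosh (c / DR) * DR) * ((δ / DR) ^ 2 / 2 + |δ / DR| ^ 3 * (2 / 9)) := by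
  have hD := DR_pos
  have h1 := exp_second ht
  have h2 := exp_second (t := -(δ / DR)) (by rwa [abs_neg])
  rw [abs_neg] at h2
  have e0 : (-(δ / DR)) ^ 2 = (δ / DR) ^ 2 := by ring
  rw [e0] at h2
  set B := (δ / DR) ^ 2 / 2 + |δ / DR| ^ 3 * (2 / 9)
  have eE : Real.exp ((c + δ) / DR) = Real.exp (c / DR) * Real.exp (δ / DR) := by
    rw [← Real.exp_add, add_div]
  have eE' : Real.exp (-((c + δ) / DR)) = Real.exp (-(c / DR)) * Real.exp (-(δ / DR)) := by
    rw [← Real.exp_add, add_div]; ring_nf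
  have hδ : δ = (δ / DR) * DR := by field_simp
  have hA := Real.exp_pos (c / DR)
  have hB := Real.exp_pos (-(c / DR))
  constructor
  · have e : Real.cosh ((c + δ) / DR) * DR - Real.cosh (c / DR) * DR - Real.sinh (c / DR) * δ =
        (Real.exp (c / DR) * DR / 2) * (Real.exp (δ / DR) - 1 - δ / DR) +
        (Real.exp (-(c / DR)) * DR / 2) * (Real.exp (-(δ / DR)) - 1 - -(δ / DR)) := by
      rw [Real.cosh_eq, Real.cosh_eq, Real.sinh_eq, eE, eE']
      nth_rewrite 3 [hδ]
      ring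
    rw [e]
    refine (abs_add_le _ _).trans ?_
    rw [abs_mul, abs_mul, abs_of_pos (by positivity : 0 < Real.exp (c / DR) * DR / 2),
      abs_of_pos (by positivity : 0 < Real.exp (-(c / DR)) * DR / 2), Real.cosh_eq]
    have a1 := mul_le_mul_of_nonneg_left h1 (by positivity : 0 ≤ Real.exp (c / DR) * DR / 2)
    have a2 := mul_le_mul_of_nonneg_left h2 (by positivity : 0 ≤ Real.exp (-(c / DR)) * DR / 2)
    refine (add_le_add a1 a2).trans (le_of_eq ?_)
    ring
  · have e : Real.sinh ((c + δ) / DR) * DR - Real.sinh (c / DR) * DR - Real.cosh (c / DR) * δ =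
        (Real.exp (c / DR) * DR / 2) * (Real.exp (δ / DR) - 1 - δ / DR) +
        -((Real.exp (-(c / DR)) * DR / 2) * (Real.exp (-(δ / DR)) - 1 - -(δ / DR))) := by
      rw [Real.cosh_eq, Real.sinh_eq, Real.sinh_eq, eE, eE']
      nth_rewrite 3 [hδ]
      ring
    rw [e]
    refine (abs_add_le _ _).trans ?_
    rw [abs_neg, abs_mul, abs_mul, abs_of_pos (by positivity : 0 < Real.exp (c / DR) * DR / 2),
      abs_of_pos (by positivity : 0 < Real.exp (-(c / DR)) * DR / 2), Real.cosh_eq]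
    have a1 := mul_le_mul_of_nonneg_left h1 (by positivity : 0 ≤ Real.exp (c / DR) * DR / 2)
    have a2 := mul_le_mul_of_nonneg_left h2 (by positivity : 0 ≤ Real.exp (-(c / DR)) * DR / 2)
    refine (add_le_add a1 a2).trans (le_of_eq ?_)
    ring

/-- common part of `cosh` and `sinh`; `b = true` for `cosh` -/
def hyp (b : Bool) (a : A) : Option A :=
  let n := a.nf
  let m := Nat.add n.p n.q
  let T := n.tot
  let s := ex4 m
  let h := chsh s
  let k := k2e (Nat.add h.a h.b) T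
  cond (Nat.ble m 1099511627776) (cond (Nat.ble 1 s.a) (cond (Nat.ble T 68719476736)
    (cond (Nat.beq n.q 0)
      (cond b (some (n.app h.a 0 h.b h.c 0 h.d k)) (some (n.app h.c 0 h.d h.a 0 h.b k)))
      (cond b (some (n.app h.a 0 h.b 0 h.c h.d k)) (some (n.app 0 h.c h.d h.a 0 h.b k))))
      none) none) none

lemma Encl.hyp {a c : A} {b : Bool} {ε : ℕ → ℝ} {x : ℝ} (hε : ∀ i, |ε i| ≤ 1) (hx : a.Encl ε x)
    (h : a.hyp b = some c) : c.Encl ε (cond b (Real.cosh x) (Real.sinh x)) := by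
  have hD := DR_pos
  have hn := nf_normal a
  have hx := hx.nf
  unfold A.hyp at h
  set n := a.nf
  simp only at h
  rcases h1 : Nat.ble (Nat.add n.p n.q) 1099511627776 with _ | _
  · rw [h1] at h; exact absurd h (by simp)
  rw [h1, cond_true] at h
  rcases h2 : Nat.ble 1 (ex4 (Nat.add n.p n.q)).a with _ | _
  · rw [h2] at h; exact absurd h (by simp)
  rw [h2, cond_true] at h
  rcases h3 : Nat.ble n.tot 68719476736 with _ | _
  · rw [h3] at h; exact absurd h (by simp)
  rw [h3, cond_true] at h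
  have hm : (((Nat.add n.p n.q : ℕ)) : ℝ) ≤ 16 * DR := by
    have := Nat.le_of_ble_eq_true h1
    have h16 : ((1099511627776 : ℕ) : ℝ) = 16 * DR := by unfold DR; norm_num
    rw [← h16]; exact_mod_cast this
  have hlo : 0 < expLo (Nat.add n.p n.q) := Nat.le_of_ble_eq_true h2
  have hT : (n.tot : ℝ) ≤ DR := by
    rw [← DN_cast]; exact_mod_cast Nat.le_of_ble_eq_true h3
  obtain ⟨g1, g2, g3⟩ := chsh_good (by positivity) (ex4_good hm hlo)
  have htt : ∀ δ : ℝ, |δ| ≤ (n.tot : ℝ) → |δ / DR| ≤ 1 := by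
    intro δ hδ
    rw [abs_div, abs_of_pos hD, div_le_one hD]; exact hδ.trans hT
  set s := ex4 (Nat.add n.p n.q)
  rcases hq : Nat.beq n.q 0 with _ | _
  · rw [hq, cond_false] at h
    have hq0 : n.q ≠ 0 := fun h0 => by rw [h0] at hq; exact absurd hq (by decide)
    have hp : n.p = 0 := hn.resolve_right hq0
    have e : ((Nat.add n.p n.q : ℕ) : ℝ) / DR = -(((n.p : ℝ) - n.q) / DR) := by
      change (((n.p + n.q : ℕ) : ℝ) / DR) = _
      rw [hp]; push_cast; ring
    rw [e, Real.cosh_neg] at g1 g3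
    rw [e, Real.sinh_neg] at g2
    have g2' : |Real.sinh (((n.p : ℝ) - n.q) / DR) * DR - (((0 : ℕ) : ℝ) - ((chsh s).c : ℝ))| ≤
        (chsh s).d := by
      rw [← abs_neg]; convert g2 using 2; push_cast; ring
    cases b
    · rw [cond_false] at h ⊢
      have h := Option.some.inj h
      rw [← h]
      refine hx.app hε Real.sinh (Real.cosh (((n.p : ℝ) - n.q) / DR)) g2' (by simpa using g1) ?_
      intro δ hδ
      exact (cosh_remainder (htt δ hδ)).2.trans (k2e_spec (by positivity) g3 hδ)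
    · rw [cond_true] at h ⊢
      have h := Option.some.inj h
      rw [← h]
      refine hx.app hε Real.cosh (Real.sinh (((n.p : ℝ) - n.q) / DR)) (by simpa using g1) g2' ?_
      intro δ hδ
      exact (cosh_remainder (htt δ hδ)).1.trans (k2e_spec (by positivity) g3 hδ)
  · rw [hq, cond_true] at h
    have hq0 : n.q = 0 := Nat.eq_of_beq_eq_true hq
    have e : (((Nat.add n.p n.q : ℕ) : ℝ) / DR) = ((n.p : ℝ) - n.q) / DR := by
      change (((n.p + n.q : ℕ) : ℝ) / DR) = _
      rw [hq0]; push_cast; ring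
    rw [e] at g1 g2 g3
    cases b
    · rw [cond_false] at h ⊢
      have h := Option.some.inj h
      rw [← h]
      refine hx.app hε Real.sinh (Real.cosh (((n.p : ℝ) - n.q) / DR)) (by simpa using g2)
        (by simpa using g1) ?_
      intro δ hδ
      exact (cosh_remainder (htt δ hδ)).2.trans (k2e_spec (by positivity) g3 hδ)
    · rw [cond_true] at h ⊢
      have h := Option.some.inj h
      rw [← h]
      refine hx.app hε Real.cosh (Real.sinh (((n.p : ℝ) - n.q) / DR)) (by simpa using g1)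
        (by simpa using g2) ?_
      intro δ hδ
      exact (cosh_remainder (htt δ hδ)).1.trans (k2e_spec (by positivity) g3 hδ)

end A

end Pool.Agent.Work.NumIs

end

section

/-!
# Verified numerics for the kernel, part 8: real and imaginary part of `log (2 sin π(x + i t))`,
analytic part
-/

namespace Pool.Agent.Work.NumIs

/-- `log |2 sin π(x + i t)|` -/
noncomputable def lnA (x t : ℝ) : ℝ :=
  Real.log (4 * (Real.sin (Real.pi * x) ^ 2 + Real.sinh (Real.pi * t) ^ 2)) / 2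

/-- `arg sin π(x + i t)` -/
noncomputable def lnB (x t : ℝ) : ℝ :=
  Real.arctan (Real.cos (Real.pi * x) * Real.sinh (Real.pi * t) /
    (Real.sin (Real.pi * x) * Real.cosh (Real.pi * t)))

/-- `|sin π(x + i t)|^2` -/
noncomputable def MM (x t : ℝ) : ℝ := Real.sin (Real.pi * x) ^ 2 + Real.sinh (Real.pi * t) ^ 2

/-- real part of `cot` and minus the imaginary part of `cot` -/
noncomputable def PP (x t : ℝ) : ℝ := Real.sin (Real.pi * x) * Real.cos (Real.pi * x) / MM x t
noncomputable def QQ (x t : ℝ) : ℝ := Real.sinh (Real.pi * t) * Real.cosh (Real.pi * t) / MM x t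

lemma MM_pos {x t : ℝ} (h : 0 < Real.sin (Real.pi * x)) : 0 < MM x t := by
  unfold MM; positivity

lemma hasDerivAt_line {f f' : ℝ → ℝ} (hf : ∀ y, HasDerivAt f (f' y) y) (x a τ : ℝ) :
    HasDerivAt (fun τ => f (Real.pi * (x + τ * a))) (f' (Real.pi * (x + τ * a)) * (Real.pi * a)) τ := by
  have h1 : HasDerivAt (fun τ : ℝ => Real.pi * (x + τ * a)) (Real.pi * a) τ := by
    have := (((hasDerivAt_id τ).mul_const a).const_add x).const_mul Real.pi
    simpa using this
  exact (hf _).comp τ h1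

lemma lnA_line {x t a b τ : ℝ} (h : 0 < Real.sin (Real.pi * (x + τ * a))) :
    HasDerivAt (fun τ => lnA (x + τ * a) (t + τ * b))
      (Real.pi * (a * PP (x + τ * a) (t + τ * b) + b * QQ (x + τ * a) (t + τ * b))) τ := by
  have hM := MM_pos (t := t + τ * b) h
  have h1 := hasDerivAt_line Real.hasDerivAt_sin x a τ
  have h2 := hasDerivAt_line Real.hasDerivAt_sinh t b τ
  have h3 := ((h1.pow 2).add (h2.pow 2)).const_mul 4
  have h4 := (h3.log (by
    have : 4 * MM (x + τ * a) (t + τ * b) ≠ 0 := by positivity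
    exact this)).div_const 2
  refine h4.congr_deriv ?_
  change _ / (4 * MM (x + τ * a) (t + τ * b)) / 2 = _
  unfold PP QQ
  field_simp
  ring

lemma lnB_line {x t a b τ : ℝ} (h : 0 < Real.sin (Real.pi * (x + τ * a))) :
    HasDerivAt (fun τ => lnB (x + τ * a) (t + τ * b))
      (Real.pi * (b * PP (x + τ * a) (t + τ * b) - a * QQ (x + τ * a) (t + τ * b))) τ := by
  have hM := MM_pos (t := t + τ * b) h
  have h1 := hasDerivAt_line Real.hasDerivAt_sin x a τ
  have h1' := hasDerivAt_line (f' := fun y => -Real.sin y) Real.hasDerivAt_cos x a τ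
  have h2 := hasDerivAt_line Real.hasDerivAt_sinh t b τ
  have h2' := hasDerivAt_line Real.hasDerivAt_cosh t b τ
  have hch := Real.cosh_pos (Real.pi * (t + τ * b))
  have h3 := (h1'.mul h2).div (h1.mul h2') (mul_pos h hch).ne'
  have h4 := h3.arctan
  refine h4.congr_deriv ?_
  have e1 := Real.sin_sq_add_cos_sq (Real.pi * (x + τ * a))
  have e2 := Real.cosh_sq (Real.pi * (t + τ * b))
  unfold PP QQ
  have hMM : MM (x + τ * a) (t + τ * b) =
    Real.sin (Real.pi * (x + τ * a)) ^ 2 + Real.sinh (Real.pi * (t + τ * b)) ^ 2 := rfl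
  set s := Real.sin (Real.pi * (x + τ * a))
  set c := Real.cos (Real.pi * (x + τ * a))
  set sh := Real.sinh (Real.pi * (t + τ * b))
  set ch := Real.cosh (Real.pi * (t + τ * b))
  set M := MM (x + τ * a) (t + τ * b)
  have e3 : 1 + (c * sh / (s * ch)) ^ 2 = M / (s * ch) ^ 2 := by
    rw [eq_div_iff (by positivity), hMM]
    have : c ^ 2 = 1 - s ^ 2 := by linarith only [e1]
    field_simp
    rw [e2, this]
    ring
  change 1 / (1 + (c * sh / (s * ch)) ^ 2) * (((-s * (Real.pi * a) * sh + c * (ch * (Real.pi * b))) *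
    (s * ch) - c * sh * (c * (Real.pi * a) * ch + s * (sh * (Real.pi * b)))) / (s * ch) ^ 2) =
    Real.pi * (b * (s * c / M) - a * (sh * ch / M))
  rw [e3]
  have hc2 : c ^ 2 = 1 - s ^ 2 := by linarith only [e1]
  have hs0 : s ≠ 0 := h.ne'
  field_simp
  have e4 : s * ch * (-(s * a * sh) + ch * c * b) - sh * c * (ch * a * c + s * sh * b) =
    s * c * b * (ch ^ 2 - sh ^ 2) - ch * a * sh * (s ^ 2 + c ^ 2) := by ring
  rw [e4, e1, e2]
  ring

/-- `cot π(x + i t)` -/
noncomputable def ct (x t : ℝ) : ℂ :=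
  Complex.cos (Real.pi * x + Real.pi * t * Complex.I) / Complex.sin (Real.pi * x + Real.pi * t * Complex.I)

lemma sin_re_im (x t : ℝ) : Complex.sin (Real.pi * x + Real.pi * t * Complex.I) =
    ((Real.sin (Real.pi * x) * Real.cosh (Real.pi * t) : ℝ) : ℂ) +
      ((Real.cos (Real.pi * x) * Real.sinh (Real.pi * t) : ℝ) : ℂ) * Complex.I := by
  rw [Complex.sin_add, Complex.sin_mul_I, Complex.cos_mul_I]
  push_cast
  ring

lemma cos_re_im (x t : ℝ) : Complex.cos (Real.pi * x + Real.pi * t * Complex.I) =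
    ((Real.cos (Real.pi * x) * Real.cosh (Real.pi * t) : ℝ) : ℂ) -
      ((Real.sin (Real.pi * x) * Real.sinh (Real.pi * t) : ℝ) : ℂ) * Complex.I := by
  rw [Complex.cos_add, Complex.sin_mul_I, Complex.cos_mul_I]
  push_cast
  ring

lemma sin_normSq (x t : ℝ) :
    ‖Complex.sin (Real.pi * x + Real.pi * t * Complex.I)‖ ^ 2 = MM x t := by
  rw [sin_re_im, ← Complex.normSq_eq_norm_sq, Complex.normSq_add_mul_I]
  unfold MM
  have e1 := Real.sin_sq_add_cos_sq (Real.pi * x)
  have e2 := Real.cosh_sq (Real.pi * t)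
  have e3 : Real.cos (Real.pi * x) ^ 2 = 1 - Real.sin (Real.pi * x) ^ 2 := by linarith only [e1]
  rw [mul_pow, mul_pow, e2, e3]
  ring

lemma ct_eq {x t : ℝ} (h : 0 < Real.sin (Real.pi * x)) :
    ct x t = (PP x t : ℂ) - (QQ x t : ℂ) * Complex.I := by
  have hM := MM_pos (t := t) h
  have hsin : Complex.sin (Real.pi * x + Real.pi * t * Complex.I) ≠ 0 := by
    intro h0
    have := sin_normSq x t
    rw [h0] at this
    simp at this
    linarith only [hM, this]
  unfold ct
  rw [div_eq_iff hsin]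
  rw [cos_re_im, sin_re_im]
  have e1 := Real.sin_sq_add_cos_sq (Real.pi * x)
  have e2 := Real.cosh_sq (Real.pi * t)
  unfold PP QQ
  have hMM : MM x t = Real.sin (Real.pi * x) ^ 2 + Real.sinh (Real.pi * t) ^ 2 := rfl
  set s := Real.sin (Real.pi * x)
  set c := Real.cos (Real.pi * x)
  set sh := Real.sinh (Real.pi * t)
  set ch := Real.cosh (Real.pi * t)
  set M := MM x t
  have hM0 : M ≠ 0 := hM.ne'
  have r1 : c * ch = s * c / M * (s * ch) + sh * ch / M * (c * sh) := by
    field_simp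
    rw [hMM]
  have r2 : -(s * sh) = s * c / M * (c * sh) - sh * ch / M * (s * ch) := by
    field_simp
    have hc2 : c ^ 2 = 1 - s ^ 2 := by linarith only [e1]
    rw [hMM, hc2, e2]
    ring
  have r1' : ((c * ch : ℝ) : ℂ) = ((s * c / M * (s * ch) + sh * ch / M * (c * sh) : ℝ) : ℂ) := by
    rw [r1]
  have r2' : ((-(s * sh) : ℝ) : ℂ) = ((s * c / M * (c * sh) - sh * ch / M * (s * ch) : ℝ) : ℂ) := by
    rw [r2]
  have e3 : ((c * ch : ℝ) : ℂ) - ((s * sh : ℝ) : ℂ) * Complex.I =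
      ((c * ch : ℝ) : ℂ) + ((-(s * sh) : ℝ) : ℂ) * Complex.I := by push_cast; ring
  rw [e3, r1', r2']
  push_cast
  have hI : Complex.I ^ 2 = -1 := Complex.I_sq
  ring_nf
  rw [hI]
  ring

/-- second order remainder -/
lemma ct_diff {x t a b L2 : ℝ} (hL : 0 < L2)
    (hs : ∀ τ ∈ Set.Icc (0 : ℝ) 1, 0 < Real.sin (Real.pi * (x + τ * a)))
    (hM : ∀ τ ∈ Set.Icc (0 : ℝ) 1, L2 ≤ MM (x + τ * a) (t + τ * b)) :
    ∀ τ ∈ Set.Icc (0 : ℝ) 1, ‖ct (x + τ * a) (t + τ * b) - ct x t‖ ≤
      ‖((Real.pi * a : ℝ) : ℂ) + ((Real.pi * b : ℝ) : ℂ) * Complex.I‖ / L2 * τ := by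
  have hsin : ∀ τ ∈ Set.Icc (0 : ℝ) 1,
      Complex.sin (Real.pi * ((x + τ * a : ℝ) : ℂ) + Real.pi * ((t + τ * b : ℝ) : ℂ) * Complex.I) ≠ 0 := by
    intro τ hτ h0
    have := sin_normSq (x + τ * a) (t + τ * b)
    rw [h0] at this
    simp at this
    have := hM τ hτ
    linarith
  set w : ℂ := ((Real.pi * a : ℝ) : ℂ) + ((Real.pi * b : ℝ) : ℂ) * Complex.I with hw
  have hd : ∀ τ ∈ Set.Icc (0 : ℝ) 1, HasDerivAt (fun τ : ℝ => ct (x + τ * a) (t + τ * b))
      (-w / Complex.sin (Real.pi * ((x + τ * a : ℝ) : ℂ) + Real.pi * ((t + τ * b : ℝ) : ℂ) * Complex.I) ^ 2)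
      τ := by
    intro τ hτ
    have hz : HasDerivAt (fun τ : ℝ => (Real.pi * ((x + τ * a : ℝ) : ℂ) +
        Real.pi * ((t + τ * b : ℝ) : ℂ) * Complex.I)) w τ := by
      have h1 : HasDerivAt (fun τ : ℝ => (τ : ℂ)) 1 τ := Complex.ofRealCLM.hasDerivAt
      have h2 := ((h1.mul_const (a : ℂ)).const_add (x : ℂ)).const_mul (Real.pi : ℂ)
      have h3 := (((h1.mul_const (b : ℂ)).const_add (t : ℂ)).const_mul (Real.pi : ℂ)).mul_const Complex.I
      have h4 := h2.add h3
      refine (h4.congr_deriv ?_).congr_of_eventuallyEq ?_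
      · rw [hw]; push_cast; ring
      · refine Filter.Eventually.of_forall fun τ => ?_
        simp only [Pi.add_apply]
        push_cast; ring
    have hc := (Complex.hasDerivAt_cos _).comp τ hz
    have hs' := (Complex.hasDerivAt_sin _).comp τ hz
    have hq := hc.div hs' (hsin τ hτ)
    refine hq.congr_deriv ?_
    have := hsin τ hτ
    simp only [Function.comp]
    rw [div_left_inj' (pow_ne_zero 2 this)]
    have h1 := Complex.sin_sq_add_cos_sq (Real.pi * ((x + τ * a : ℝ) : ℂ) +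
        Real.pi * ((t + τ * b : ℝ) : ℂ) * Complex.I)
    linear_combination (-w) * h1
  intro τ hτ
  have key := norm_image_sub_le_of_norm_deriv_le_segment' (a := 0) (b := 1)
    (f := fun τ : ℝ => ct (x + τ * a) (t + τ * b)) (C := ‖w‖ / L2)
    (fun τ hτ => (hd τ hτ).hasDerivWithinAt) (fun τ hτ => by
      have hτ' : τ ∈ Set.Icc (0 : ℝ) 1 := ⟨hτ.1, hτ.2.le⟩
      rw [norm_div, norm_neg, norm_pow]
      have h1 := sin_normSq (x + τ * a) (t + τ * b)
      rw [h1]
      have := hM τ hτ'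
      gcongr) τ hτ
  simpa using key

lemma ln_second {x t a b L2 : ℝ} (hL : 0 < L2)
    (hs : ∀ τ ∈ Set.Icc (0 : ℝ) 1, 0 < Real.sin (Real.pi * (x + τ * a)))
    (hM : ∀ τ ∈ Set.Icc (0 : ℝ) 1, L2 ≤ MM (x + τ * a) (t + τ * b)) :
    |lnA (x + a) (t + b) - lnA x t - Real.pi * (a * PP x t + b * QQ x t)| ≤
      Real.pi ^ 2 * (a ^ 2 + b ^ 2) / L2 / 2 ∧
    |lnB (x + a) (t + b) - lnB x t - Real.pi * (b * PP x t - a * QQ x t)| ≤
      Real.pi ^ 2 * (a ^ 2 + b ^ 2) / L2 / 2 := by
  have hct := ct_diff hL hs hM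
  set w : ℂ := ((Real.pi * a : ℝ) : ℂ) + ((Real.pi * b : ℝ) : ℂ) * Complex.I with hw
  have hw2 : ‖w‖ ^ 2 = Real.pi ^ 2 * (a ^ 2 + b ^ 2) := by
    rw [hw, ← Complex.normSq_eq_norm_sq, Complex.normSq_add_mul_I]; ring
  have h0 : (0 : ℝ) ∈ Set.Icc (0 : ℝ) 1 := ⟨le_rfl, zero_le_one⟩
  have hs0 : 0 < Real.sin (Real.pi * x) := by simpa using hs 0 h0
  have hprod : ∀ τ ∈ Set.Icc (0 : ℝ) 1, ‖w * (ct (x + τ * a) (t + τ * b) - ct x t)‖ ≤
      Real.pi ^ 2 * (a ^ 2 + b ^ 2) / L2 * τ := by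
    intro τ hτ
    rw [norm_mul]
    calc ‖w‖ * ‖ct (x + τ * a) (t + τ * b) - ct x t‖ ≤ ‖w‖ * (‖w‖ / L2 * τ) :=
          mul_le_mul_of_nonneg_left (hct τ hτ) (norm_nonneg _)
      _ = ‖w‖ ^ 2 / L2 * τ := by ring
      _ = _ := by rw [hw2]
  have hform : ∀ τ ∈ Set.Icc (0 : ℝ) 1, w * (ct (x + τ * a) (t + τ * b) - ct x t) =
      ((Real.pi * (a * PP (x + τ * a) (t + τ * b) + b * QQ (x + τ * a) (t + τ * b)) -
        Real.pi * (a * PP x t + b * QQ x t) : ℝ) : ℂ) +
      ((Real.pi * (b * PP (x + τ * a) (t + τ * b) - a * QQ (x + τ * a) (t + τ * b)) -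
        Real.pi * (b * PP x t - a * QQ x t) : ℝ) : ℂ) * Complex.I := by
    intro τ hτ
    rw [ct_eq (hs τ hτ), ct_eq hs0, hw]
    push_cast
    have hI : Complex.I ^ 2 = -1 := Complex.I_sq
    ring_nf
    rw [hI]
    ring
  constructor
  · have key := image_norm_le_of_norm_deriv_right_le_deriv_boundary
      (f := fun τ => lnA (x + τ * a) (t + τ * b) - lnA x t - τ * (Real.pi * (a * PP x t + b * QQ x t)))
      (f' := fun τ => Real.pi * (a * PP (x + τ * a) (t + τ * b) + b * QQ (x + τ * a) (t + τ * b)) -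
        Real.pi * (a * PP x t + b * QQ x t))
      (a := 0) (b := 1) (B := fun τ => Real.pi ^ 2 * (a ^ 2 + b ^ 2) / L2 * τ ^ 2 / 2)
      (B' := fun τ => Real.pi ^ 2 * (a ^ 2 + b ^ 2) / L2 * τ)
    have hd : ∀ τ ∈ Set.Icc (0 : ℝ) 1, HasDerivAt
        (fun τ => lnA (x + τ * a) (t + τ * b) - lnA x t - τ * (Real.pi * (a * PP x t + b * QQ x t)))
        (Real.pi * (a * PP (x + τ * a) (t + τ * b) + b * QQ (x + τ * a) (t + τ * b)) -
        Real.pi * (a * PP x t + b * QQ x t)) τ := fun τ hτ => by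
      have := ((lnA_line (t := t) (b := b) (hs τ hτ)).sub_const (lnA x t)).sub
        ((hasDerivAt_id τ).mul_const (Real.pi * (a * PP x t + b * QQ x t)))
      exact this.congr_deriv (by simp)
    have h2 := key (fun τ hτ => (hd τ hτ).continuousAt.continuousWithinAt)
      (fun τ hτ => (hd τ ⟨hτ.1, hτ.2.le⟩).hasDerivWithinAt) (by simp)
      (fun τ => by
        have := ((hasDerivAt_pow 2 τ).const_mul (Real.pi ^ 2 * (a ^ 2 + b ^ 2) / L2)).div_const 2
        refine this.congr_deriv ?_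
        push_cast
        ring)
      (fun τ hτ => by
        have hτ' : τ ∈ Set.Icc (0 : ℝ) 1 := ⟨hτ.1, hτ.2.le⟩
        have h3 := hprod τ hτ'
        rw [hform τ hτ'] at h3
        refine le_trans ?_ h3
        have := Complex.abs_re_le_norm (((Real.pi * (a * PP (x + τ * a) (t + τ * b) +
          b * QQ (x + τ * a) (t + τ * b)) - Real.pi * (a * PP x t + b * QQ x t) : ℝ) : ℂ) +
          ((Real.pi * (b * PP (x + τ * a) (t + τ * b) - a * QQ (x + τ * a) (t + τ * b)) -
          Real.pi * (b * PP x t - a * QQ x t) : ℝ) : ℂ) * Complex.I)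
        simp only [Complex.add_re, Complex.ofReal_re, Complex.mul_re, Complex.I_re, mul_zero,
          Complex.ofReal_im, Complex.I_im, zero_mul, sub_zero, add_zero] at this
        rw [Real.norm_eq_abs]
        exact this)
      (Set.right_mem_Icc.2 zero_le_one)
    simpa [Real.norm_eq_abs] using h2
  · have key := image_norm_le_of_norm_deriv_right_le_deriv_boundary
      (f := fun τ => lnB (x + τ * a) (t + τ * b) - lnB x t - τ * (Real.pi * (b * PP x t - a * QQ x t)))
      (f' := fun τ => Real.pi * (b * PP (x + τ * a) (t + τ * b) - a * QQ (x + τ * a) (t + τ * b)) -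
        Real.pi * (b * PP x t - a * QQ x t))
      (a := 0) (b := 1) (B := fun τ => Real.pi ^ 2 * (a ^ 2 + b ^ 2) / L2 * τ ^ 2 / 2)
      (B' := fun τ => Real.pi ^ 2 * (a ^ 2 + b ^ 2) / L2 * τ)
    have hd : ∀ τ ∈ Set.Icc (0 : ℝ) 1, HasDerivAt
        (fun τ => lnB (x + τ * a) (t + τ * b) - lnB x t - τ * (Real.pi * (b * PP x t - a * QQ x t)))
        (Real.pi * (b * PP (x + τ * a) (t + τ * b) - a * QQ (x + τ * a) (t + τ * b)) -
        Real.pi * (b * PP x t - a * QQ x t)) τ := fun τ hτ => by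
      have := ((lnB_line (t := t) (b := b) (hs τ hτ)).sub_const (lnB x t)).sub
        ((hasDerivAt_id τ).mul_const (Real.pi * (b * PP x t - a * QQ x t)))
      exact this.congr_deriv (by simp)
    have h2 := key (fun τ hτ => (hd τ hτ).continuousAt.continuousWithinAt)
      (fun τ hτ => (hd τ ⟨hτ.1, hτ.2.le⟩).hasDerivWithinAt) (by simp)
      (fun τ => by
        have := ((hasDerivAt_pow 2 τ).const_mul (Real.pi ^ 2 * (a ^ 2 + b ^ 2) / L2)).div_const 2
        refine this.congr_deriv ?_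
        push_cast
        ring)
      (fun τ hτ => by
        have hτ' : τ ∈ Set.Icc (0 : ℝ) 1 := ⟨hτ.1, hτ.2.le⟩
        have h3 := hprod τ hτ'
        rw [hform τ hτ'] at h3
        refine le_trans ?_ h3
        have := Complex.abs_im_le_norm (((Real.pi * (a * PP (x + τ * a) (t + τ * b) +
          b * QQ (x + τ * a) (t + τ * b)) - Real.pi * (a * PP x t + b * QQ x t) : ℝ) : ℂ) +
          ((Real.pi * (b * PP (x + τ * a) (t + τ * b) - a * QQ (x + τ * a) (t + τ * b)) -
          Real.pi * (b * PP x t - a * QQ x t) : ℝ) : ℂ) * Complex.I)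
        simp only [Complex.add_im, Complex.ofReal_re, Complex.mul_im, Complex.I_re, mul_zero,
          Complex.ofReal_im, Complex.I_im, zero_mul, zero_add, mul_one, add_zero] at this
        rw [Real.norm_eq_abs]
        exact this)
      (Set.right_mem_Icc.2 zero_le_one)
    simpa [Real.norm_eq_abs] using h2

end Pool.Agent.Work.NumIs

end

section

/-!
# Verified numerics for the kernel, part 5: `log` and the inverse
-/

namespace Pool.Agent.Work.NumIs

open Finset

/-- `∑ W ^ i / (2 i + 1)`, numerator over `45045 * S ^ 12`, `S = 2 ^ 40`, `W = U ^ 2` -/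
def logN (W : ℕ) : ℕ :=
  Nat.add 140619163448983870062584047216033176242445603336343625490450725246324869975136342358319188412494995840894404112363761328325454064473540811621840977920 (Nat.mul W (
  Nat.add 38772481919474932473683626367625223293060532479330791045152350238457824044582870537364124979501269539010086127170803613040640 (Nat.mul W (
  Nat.add 19243107206611478932296750550881495000455765041911084804452897844870377509557790715156865441211613184 (Nat.mul W (
  Nat.add 11369660861848903160868519417280680649349858876394607995512535905318008258560 (Nat.mul W (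
  Nat.add 7314815694841169105609442587744996513377942377594880 (Nat.mul W (
  Nat.add 4950551231321906470421790720 (Nat.mul W 3465)))))))))))

/-- lower bound of `2 artanh (a / b) * D` -/
def logC (a b : ℕ) : ℕ :=
  let U := Nat.div (Nat.mul 1099511627776 a) b
  Nat.div (Nat.mul (Nat.mul 2 U) (logN (Nat.mul U U))) 2249906615183741921001344755456530819879129653381498007847211603941197919602181477733107014599919933454310465797820181253207265031576652985949455646720

lemma artanh_bounds {v : ℝ} (h0 : 0 ≤ v) (h1 : v ≤ 3 / 17) :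
    2 * (v + v ^ 3 / 3 + v ^ 5 / 5 + v ^ 7 / 7 + v ^ 9 / 9 + v ^ 11 / 11 + v ^ 13 / 13) ≤
      Real.log ((1 + v) / (1 - v)) ∧
    Real.log ((1 + v) / (1 - v)) ≤
      2 * (v + v ^ 3 / 3 + v ^ 5 / 5 + v ^ 7 / 7 + v ^ 9 / 9 + v ^ 11 / 11 + v ^ 13 / 13) +
      1 / 70000000000 := by
  have k1 := Real.sum_range_le_log_div h0 (by linarith only [h1] : v < 1) 7
  have k2 := Real.log_div_le_sum_range_add h0 (by linarith only [h1] : v < 1) 7
  have e : ∑ i ∈ range 7, v ^ (2 * i + 1) / (2 * (i : ℝ) + 1) =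
      (v + v ^ 3 / 3 + v ^ 5 / 5 + v ^ 7 / 7 + v ^ 9 / 9 + v ^ 11 / 11 + v ^ 13 / 13) := by
    simp only [sum_range_succ, sum_range_zero]
    norm_num
  rw [e] at k1 k2
  have h3 : v ^ (2 * 7 + 1) / (1 - v ^ 2) ≤ 1 / 140000000000 := by
    have a1 : v ^ (2 * 7 + 1) ≤ (3 / 17 : ℝ) ^ (2 * 7 + 1) := by gcongr
    have a2 : v ^ 2 ≤ (3 / 17 : ℝ) ^ 2 := by gcongr
    rw [div_le_iff₀ (by nlinarith only [a2])]
    nlinarith only [a1, a2]
  constructor <;> linarith only [k1, k2, h3]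

lemma logN_cast (U : ℕ) :
    ((2 * U * logN (U * U) : ℕ) : ℝ) / ((2249906615183741921001344755456530819879129653381498007847211603941197919602181477733107014599919933454310465797820181253207265031576652985949455646720 : ℕ) : ℝ) =
      2 * (((U : ℝ) / (16 * DR)) + ((U : ℝ) / (16 * DR)) ^ 3 / 3 + ((U : ℝ) / (16 * DR)) ^ 5 / 5 +
        ((U : ℝ) / (16 * DR)) ^ 7 / 7 + ((U : ℝ) / (16 * DR)) ^ 9 / 9 +
        ((U : ℝ) / (16 * DR)) ^ 11 / 11 + ((U : ℝ) / (16 * DR)) ^ 13 / 13) * DR := by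
  have e : logN (U * U) = 140619163448983870062584047216033176242445603336343625490450725246324869975136342358319188412494995840894404112363761328325454064473540811621840977920 + U * U * (38772481919474932473683626367625223293060532479330791045152350238457824044582870537364124979501269539010086127170803613040640 + U * U * (19243107206611478932296750550881495000455765041911084804452897844870377509557790715156865441211613184 + U * U * (11369660861848903160868519417280680649349858876394607995512535905318008258560 + U * U * (7314815694841169105609442587744996513377942377594880 + U * U * (4950551231321906470421790720 + U * U * 3465))))) := rfl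
  rw [e]
  unfold DR
  push_cast
  field_simp
  ring

lemma logC_spec {a b : ℕ} (hb : 0 < b) (hab : 17 * a ≤ 3 * b) :
    (logC a b : ℝ) ≤ Real.log (((b : ℝ) + a) / (b - a)) * DR ∧
    Real.log (((b : ℝ) + a) / (b - a)) * DR ≤ (logC a b : ℝ) + 3 := by
  have hD := DR_pos
  have hb' : (0 : ℝ) < b := by exact_mod_cast hb
  have ha' : (0 : ℝ) ≤ a := Nat.cast_nonneg _
  have hab' : 17 * (a : ℝ) ≤ 3 * b := by exact_mod_cast hab
  set u : ℝ := (a : ℝ) / b with hu
  have hu0 : 0 ≤ u := by rw [hu]; positivity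
  have hu1 : u ≤ 3 / 17 := by rw [hu, div_le_iff₀ hb']; linarith only [hab']
  have hS : ((1099511627776 : ℕ) : ℝ) = 16 * DR := by unfold DR; norm_num
  have q1 := ndiv_le (1099511627776 * a) b
  have q2 := lt_ndiv (1099511627776 * a) hb
  set U := 1099511627776 * a / b with hU
  have hq : ((1099511627776 * a : ℕ) : ℝ) / (b : ℝ) = u * (16 * DR) := by
    rw [Nat.cast_mul, hS, hu]; ring
  rw [hq] at q1 q2
  set v : ℝ := (U : ℝ) / (16 * DR) with hv
  have hv0 : 0 ≤ v := by rw [hv]; positivity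
  have hvu : v ≤ u := by rw [hv, div_le_iff₀ (by positivity)]; exact q1
  have huv : u ≤ v + 1 / (16 * DR) := by
    rw [hv, ← add_div, le_div_iff₀ (by positivity)]; exact q2.le
  have hv1 := hvu.trans hu1
  obtain ⟨k1, k2⟩ := artanh_bounds hv0 hv1
  have n1 := ndiv_le (2 * U * logN (U * U)) 2249906615183741921001344755456530819879129653381498007847211603941197919602181477733107014599919933454310465797820181253207265031576652985949455646720
  have n2 := lt_ndiv (2 * U * logN (U * U)) (b := 2249906615183741921001344755456530819879129653381498007847211603941197919602181477733107014599919933454310465797820181253207265031576652985949455646720) (by norm_num)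
  rw [logN_cast, ← hv] at n1 n2
  have hl : logC a b = 2 * U * logN (U * U) / 2249906615183741921001344755456530819879129653381498007847211603941197919602181477733107014599919933454310465797820181253207265031576652985949455646720 := rfl
  rw [← hl] at n1 n2
  set P := 2 * (v + v ^ 3 / 3 + v ^ 5 / 5 + v ^ 7 / 7 + v ^ 9 / 9 + v ^ 11 / 11 + v ^ 13 / 13)
  have hba : ((b : ℝ) + a) / (b - a) = (1 + u) / (1 - u) := by
    have : (b : ℝ) - a ≠ 0 := by nlinarith only [hb', hab']
    have h1u : 1 - u ≠ 0 := by linarith only [hu1]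
    rw [div_eq_div_iff this h1u, hu]
    field_simp
  rw [hba]
  have hpos : 0 < (1 + v) / (1 - v) := div_pos (by linarith only [hv0]) (by linarith only [hu1, hvu])
  have hmono : Real.log ((1 + v) / (1 - v)) ≤ Real.log ((1 + u) / (1 - u)) := by
    apply Real.log_le_log hpos
    apply div_le_div₀ (by linarith only [hu0]) (by linarith only [hvu]) (by linarith only [hu1]) (by linarith only [hvu])
  have hup : Real.log ((1 + u) / (1 - u)) ≤ Real.log ((1 + v) / (1 - v)) + 3 * (u - v) := by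
    have hposu : 0 < (1 + u) / (1 - u) := div_pos (by linarith only [hu0]) (by linarith only [hu1])
    have h5 : Real.log ((1 + u) / (1 - u)) - Real.log ((1 + v) / (1 - v)) =
        Real.log (((1 + u) / (1 - u)) / ((1 + v) / (1 - v))) := (Real.log_div hposu.ne' hpos.ne').symm
    have h6 := Real.log_le_sub_one_of_pos (div_pos hposu hpos)
    have h7 : ((1 + u) / (1 - u)) / ((1 + v) / (1 - v)) - 1 ≤ 3 * (u - v) := by
      have d1 : 0 < 1 - u := by linarith only [hu1]
      have d2 : 0 < 1 + v := by linarith only [hv0]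
      have d3 : 0 < 1 - v := by linarith only [hu1, hvu]
      have e1 : ((1 + u) / (1 - u)) / ((1 + v) / (1 - v)) - 1 =
          2 * (u - v) / ((1 - u) * (1 + v)) := by
        field_simp
        ring
      rw [e1, div_le_iff₀ (by positivity)]
      have d4 : (2 / 3 : ℝ) ≤ (1 - u) * (1 + v) := by nlinarith only [hu0, hu1, hv0, hvu, d1]
      nlinarith only [hvu, d4]
    linarith only [h5, h6, h7]
  constructor
  · refine n1.trans ?_
    gcongr
    exact k1.trans hmono
  · have h8 : 3 * (u - v) * DR ≤ 1 / 5 := by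
      have : u - v ≤ 1 / (16 * DR) := by linarith only [huv]
      calc 3 * (u - v) * DR ≤ 3 * (1 / (16 * DR)) * DR := by gcongr
        _ = 3 / 16 := by field_simp
        _ ≤ 1 / 5 := by norm_num
    have h9 : (1 : ℝ) / 70000000000 * DR ≤ 1 := by unfold DR; norm_num
    have h10 : Real.log ((1 + u) / (1 - u)) * DR ≤ (P + 1 / 70000000000 + 3 * (u - v)) * DR := by
      gcongr
      linarith only [k2, hup]
    linarith only [n2, h8, h9, h10]

/-- bounds of `log 2` -/
lemma log_two_bounds : (195103586505167 : ℝ) ≤ Real.log 2 * SR ∧ Real.log 2 * SR ≤ 195103586505169 := by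
  have k1 := Real.sum_range_le_log_div (x := 1 / 3) (by norm_num) (by norm_num) 16
  have k2 := Real.log_div_le_sum_range_add (x := 1 / 3) (by norm_num) (by norm_num) 16
  have e : ((1 : ℝ) + 1 / 3) / (1 - 1 / 3) = 2 := by norm_num
  rw [e] at k1 k2
  simp only [sum_range_succ, sum_range_zero] at k1 k2
  unfold SR
  norm_num at k1 k2
  constructor
  · linarith only [k1]
  · linarith only [k2]

/-- one step of the binary search of `lg2` -/
def l2s (k P m e : ℕ) (c : ℕ → ℕ → ℕ) : ℕ :=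
  c (Nat.shiftRight m (Nat.mul k (Nat.sub 1 (Nat.sub P m))))
    (Nat.add e (Nat.mul k (Nat.sub 1 (Nat.sub P m))))

/-- `Nat.log2` for numbers below `2 ^ 256` (the kernel evaluates `Nat.log2` slowly) -/
def lg2 (m : ℕ) : ℕ :=
  l2s 128 340282366920938463463374607431768211456 m 0 fun m e =>
  l2s 64 18446744073709551616 m e fun m e =>
  l2s 32 4294967296 m e fun m e =>
  l2s 16 65536 m e fun m e =>
  l2s 8 256 m e fun m e =>
  l2s 4 16 m e fun m e =>
  l2s 2 4 m e fun m e =>
  l2s 1 2 m e fun _ e => e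

lemma l2s_spec {M : ℕ} (k : ℕ) {P m e : ℕ} {c : ℕ → ℕ → ℕ} {r : ℕ} (hP : P = 2 ^ k)
    (h0 : m = M / 2 ^ e) (h1 : 1 ≤ m) (h2 : m < 2 ^ (2 * k))
    (hc : ∀ m' e', m' = M / 2 ^ e' → 1 ≤ m' → m' < 2 ^ k → c m' e' = r) :
    l2s k P m e c = r := by
  unfold l2s
  rcases lt_or_ge m P with hb | hb
  · have e1 : Nat.mul k (Nat.sub 1 (Nat.sub P m)) = 0 := by
      change k * (1 - (P - m)) = 0
      have : 1 - (P - m) = 0 := by omega
      rw [this, mul_zero]
    rw [e1]
    exact hc m e h0 h1 (hP ▸ hb)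
  · have e1 : Nat.mul k (Nat.sub 1 (Nat.sub P m)) = k := by
      change k * (1 - (P - m)) = k
      have : 1 - (P - m) = 1 := by omega
      rw [this, mul_one]
    rw [e1]
    have h3 : 2 ^ k ≤ m := hP ▸ hb
    have h4 : Nat.shiftRight m k = m / 2 ^ k := Nat.shiftRight_eq_div_pow m k
    refine hc _ _ ?_ ?_ ?_
    · rw [h4, h0, Nat.div_div_eq_div_mul, ← pow_add]
      rfl
    · rw [h4]
      exact (Nat.one_le_div_iff (by positivity)).2 h3
    · rw [h4, Nat.div_lt_iff_lt_mul (by positivity), ← pow_add, ← two_mul]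
      exact h2

lemma lg2_eq {m : ℕ} (h0 : m ≠ 0) (h : m < 2 ^ 256) : lg2 m = Nat.log2 m := by
  unfold lg2
  refine l2s_spec (M := m) 128 (by norm_num) (by simp) (Nat.one_le_iff_ne_zero.2 h0) h
    fun m1 e1 a1 b1 c1 => ?_
  refine l2s_spec (M := m) 64 (by norm_num) a1 b1 c1 fun m2 e2 a2 b2 c2 => ?_
  refine l2s_spec (M := m) 32 (by norm_num) a2 b2 c2 fun m3 e3 a3 b3 c3 => ?_
  refine l2s_spec (M := m) 16 (by norm_num) a3 b3 c3 fun m4 e4 a4 b4 c4 => ?_
  refine l2s_spec (M := m) 8 (by norm_num) a4 b4 c4 fun m5 e5 a5 b5 c5 => ?_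
  refine l2s_spec (M := m) 4 (by norm_num) a5 b5 c5 fun m6 e6 a6 b6 c6 => ?_
  refine l2s_spec (M := m) 2 (by norm_num) a6 b6 c6 fun m7 e7 a7 b7 c7 => ?_
  refine l2s_spec (M := m) 1 (by norm_num) a7 b7 c7 fun m8 e a8 b8 c8 => ?_
  have h8 : m / 2 ^ e = 1 := by omega
  have h9 : 2 ^ e ≤ m := (Nat.one_le_div_iff (by positivity)).1 h8.ge
  have h10 : m < 2 ^ (e + 1) := by
    have h11 : m / 2 ^ e < 2 := by omega
    rw [Nat.div_lt_iff_lt_mul (by positivity)] at h11
    rw [pow_succ]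
    omega
  refine le_antisymm ((Nat.le_log2 h0).2 h9) ?_
  have := (Nat.log2_lt h0).2 h10
  omega

attribute [irreducible] lg2

/-- signed `(p - q)` with `|log (m / D) * D - (p - q)| ≤ 6` -/
def logM (m : ℕ) : ℕ × ℕ :=
  let e := lg2 m
  let p := Nat.pow 2 e
  cnd (Nat.ble (Nat.mul 7 p) (Nat.mul 5 m))
    (let V := logC (Nat.sub (Nat.mul 2 p) m) (Nat.add (Nat.mul 2 p) m)
     let L := Nat.div (Nat.mul (Nat.add e 1) 195103586505167) 4096
     (Nat.sub L (Nat.add V 1714777615768), Nat.sub (Nat.add V 1714777615768) L))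
    (let V := logC (Nat.sub m p) (Nat.add m p)
     let L := Nat.add (Nat.div (Nat.mul e 195103586505167) 4096) V
     (Nat.sub L 1714777615768, Nat.sub 1714777615768 L))


lemma logM_spec {m : ℕ} (hm : 0 < m) (hm2 : m < 2 ^ 200) :
    |Real.log ((m : ℝ) / DR) * DR - (((logM m).1 : ℝ) - (logM m).2)| ≤ 6 := by
  have hD := DR_pos
  have hS := SR_pos
  have h0 : m ≠ 0 := hm.ne'
  have h1 := Nat.log2_self_le h0
  have h2 := Nat.lt_log2_self (n := m)
  have he400 : Nat.log2 m < 400 := lt_trans ((Nat.log2_lt h0).2 hm2) (by norm_num)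
  unfold logM
  simp only [lg2_eq h0 (lt_trans hm2 (by norm_num)), cnd_eq]
  set e := Nat.log2 m
  have hpow : Nat.pow 2 e = 2 ^ e := rfl
  rw [hpow]
  set p : ℕ := 2 ^ e with hp
  have hp0 : 0 < p := by positivity
  have hp0' : (0 : ℝ) < p := by exact_mod_cast hp0
  have hm' : (0 : ℝ) < m := by exact_mod_cast hm
  have hm2p : m < 2 * p := by rw [pow_succ] at h2; omega
  have hpr : (p : ℝ) = 2 ^ e := by rw [hp]; push_cast; rfl
  obtain ⟨l1, l2⟩ := log_two_bounds
  have hK : |36 * (Real.log 2 * DR) - 1714777615768| ≤ 3 / 2 := by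
    rw [SR_DR] at l1 l2
    rw [abs_le]; constructor <;> linarith only [l1, l2]
  have hE : ∀ k : ℕ, k ≤ 400 →
      |(k : ℝ) * (Real.log 2 * DR) - ((k * 195103586505167 / 4096 : ℕ) : ℝ)| ≤ 3 / 2 := by
    intro k hk
    have a1 := ndiv_le (k * 195103586505167) 4096
    have a2 := lt_ndiv (k * 195103586505167) (b := 4096) (by norm_num)
    have hk' : (k : ℝ) ≤ 400 := by exact_mod_cast hk
    have hk0 : (0 : ℝ) ≤ k := Nat.cast_nonneg _
    push_cast at a1 a2
    rw [SR_DR] at l1 l2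
    have b1 : (k : ℝ) * (Real.log 2 * DR) ≤ k * 195103586505169 / 4096 := by
      rw [le_div_iff₀ (by norm_num)]; nlinarith only [l2]
    have b2 : (k : ℝ) * 195103586505167 / 4096 ≤ (k : ℝ) * (Real.log 2 * DR) := by
      rw [div_le_iff₀ (by norm_num)]; nlinarith only [l1]
    rw [abs_le]; constructor <;> linarith only [a1, b2, hk', a2, b1]
  have h36 : DR = 2 ^ 36 := by unfold DR; norm_num
  rcases hb : Nat.ble (Nat.mul 7 p) (Nat.mul 5 m) with _ | _
  · simp only [cond_false]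
    have h7 : 5 * m < 7 * p := by
      by_contra hc
      have := Nat.ble_eq_true_of_le (not_lt.1 hc)
      change Nat.ble (7 * p) (5 * m) = false at hb
      rw [hb] at this; exact absurd this (by decide)
    have hsp : ((m - p : ℕ) : ℝ) = m - p := Nat.cast_sub h1
    obtain ⟨c1, c2⟩ := logC_spec (a := m - p) (b := m + p) (by omega) (by omega)
    have hlog : Real.log (((m + p : ℕ) + ((m - p : ℕ) : ℝ)) / (((m + p : ℕ) : ℝ) - ((m - p : ℕ) : ℝ))) =
        Real.log m - e * Real.log 2 := by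
      rw [hsp]
      push_cast
      have e1 : ((m : ℝ) + p + (m - p)) / (m + p - (m - p)) = m / p := by
        have : (m : ℝ) + p - (m - p) = 2 * p := by ring
        rw [this]
        have : (m : ℝ) + p + (m - p) = 2 * m := by ring
        rw [this, mul_div_mul_left _ _ (by norm_num)]
      rw [e1, Real.log_div hm'.ne' hp0'.ne', hpr, Real.log_pow]
    rw [hlog] at c1 c2
    have c : Real.log ((m : ℝ) / DR) * DR = (Real.log m - e * Real.log 2) * DR +
        e * (Real.log 2 * DR) - 36 * (Real.log 2 * DR) := by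
      rw [Real.log_div hm'.ne' hD.ne', h36, Real.log_pow]
      push_cast; ring
    have k := sub_sub_cast (e * 195103586505167 / 4096 + logC (m - p) (m + p)) 1714777615768
    change |_ - (((e * 195103586505167 / 4096 + logC (m - p) (m + p) - 1714777615768 : ℕ) : ℝ) -
      ((1714777615768 - (e * 195103586505167 / 4096 + logC (m - p) (m + p)) : ℕ) : ℝ))| ≤ _
    rw [k, c]
    have hEe := abs_le.1 (hE e he400.le)
    have hKK := abs_le.1 hK
    push_cast
    rw [abs_le]
    constructor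
    · linarith only [c1, hEe, hKK, hEe.1, hEe.2, hKK.1, hKK.2]
    · linarith only [c2, hEe, hKK, hEe.1, hEe.2, hKK.1, hKK.2]
  · simp only [cond_true]
    have h7 : 7 * p ≤ 5 * m := Nat.le_of_ble_eq_true hb
    have hsp : ((2 * p - m : ℕ) : ℝ) = 2 * p - m := by rw [Nat.cast_sub hm2p.le]; push_cast; ring
    obtain ⟨c1, c2⟩ := logC_spec (a := 2 * p - m) (b := 2 * p + m) (by omega) (by omega)
    have hlog : Real.log (((2 * p + m : ℕ) + ((2 * p - m : ℕ) : ℝ)) /
        (((2 * p + m : ℕ) : ℝ) - ((2 * p - m : ℕ) : ℝ))) =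
        ((e + 1 : ℕ) : ℝ) * Real.log 2 - Real.log m := by
      rw [hsp]
      push_cast
      have e1 : (2 * (p : ℝ) + m + (2 * p - m)) / (2 * p + m - (2 * p - m)) = 2 * p / m := by
        have : 2 * (p : ℝ) + m - (2 * p - m) = 2 * m := by ring
        rw [this]
        have : 2 * (p : ℝ) + m + (2 * p - m) = 2 * (2 * p) := by ring
        rw [this, mul_div_mul_left _ _ (by norm_num)]
      rw [e1, Real.log_div (by positivity) hm'.ne', Real.log_mul (by norm_num) hp0'.ne', hpr, Real.log_pow]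
      ring
    rw [hlog] at c1 c2
    have c : Real.log ((m : ℝ) / DR) * DR = -((((e + 1 : ℕ) : ℝ) * Real.log 2 - Real.log m) * DR) +
        ((e + 1 : ℕ) : ℝ) * (Real.log 2 * DR) - 36 * (Real.log 2 * DR) := by
      rw [Real.log_div hm'.ne' hD.ne', h36, Real.log_pow]
      push_cast; ring
    have k := sub_sub_cast ((e + 1) * 195103586505167 / 4096)
      (logC (2 * p - m) (2 * p + m) + 1714777615768)
    change |_ - ((((e + 1) * 195103586505167 / 4096 - (logC (2 * p - m) (2 * p + m) + 1714777615768) : ℕ) : ℝ) -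
      (((logC (2 * p - m) (2 * p + m) + 1714777615768) - (e + 1) * 195103586505167 / 4096 : ℕ) : ℝ))| ≤ _
    rw [k, c]
    have hEe := abs_le.1 (hE (e + 1) (by omega))
    have hKK := abs_le.1 hK
    push_cast at hEe c1 c2 ⊢
    rw [abs_le]
    constructor
    · linarith only [hKK, hEe, c2, hEe.1, hEe.2, hKK.1, hKK.2]
    · linarith only [hKK, hEe, c1, hEe.1, hEe.2, hKK.1, hKK.2]

/-- the remainder of the logarithm -/
lemma log_second {t : ℝ} (ht : |t| < 1) : |Real.log (1 + t) - t| ≤ t ^ 2 / (2 * (1 - |t|)) := by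
  have h1t : 0 < 1 + t := by have := (abs_lt.1 ht).1; linarith only [this]
  have hup : Real.log (1 + t) ≤ t := by
    have := Real.log_le_sub_one_of_pos h1t
    linarith only [this]
  rw [abs_of_nonpos (by linarith only [hup])]
  rcases le_total 0 t with h | h
  · rw [abs_of_nonneg h] at ht ⊢
    have h2 := Real.le_log_one_add_of_nonneg h
    have h3 : t - 2 * t / (t + 2) ≤ t ^ 2 / (2 * (1 - t)) := by
      have e : t - 2 * t / (t + 2) = t ^ 2 / (t + 2) := by field_simp; ring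
      rw [e]
      apply div_le_div_of_nonneg_left (sq_nonneg t) (by linarith only [ht]) (by linarith only [h])
    linarith only [h2, h3]
  · rw [abs_of_nonpos h] at ht ⊢
    have hs : 0 ≤ Real.log (1 + t)⁻¹ := by
      rw [Real.log_inv]
      linarith only [hup, h]
    have h4 := Real.self_le_sinh_iff.2 hs
    rw [Real.sinh_log (inv_pos.2 h1t), Real.log_inv, inv_inv] at h4
    have e : ((1 + t)⁻¹ - (1 + t)) / 2 + t = t ^ 2 / (2 * (1 - -t)) := by
      have : 1 - -t = 1 + t := by ring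
      rw [this]
      field_simp
      ring
    linarith only [h4, e]

namespace A

/-- logarithm of a positive number -/
def log (a : A) : Option A :=
  let n := a.nf
  let T := n.tot
  let l := logM n.p
  cond (Nat.ble (Nat.add T 1) n.p) (cond (Nat.ble n.p 1267650600228229401496703205376)
    (some (n.app l.1 l.2 6 (Nat.div 4722366482869645213696 n.p) 0 1
      (Nat.add (Nat.div (Nat.mul 68719476736 (Nat.mul T T)) (Nat.mul (Nat.mul 2 n.p) (Nat.sub n.p T))) 1))) none) none

lemma Encl.log {a b : A} {ε : ℕ → ℝ} {x : ℝ} (hε : ∀ i, |ε i| ≤ 1) (hx : a.Encl ε x)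
    (h : a.log = some b) : b.Encl ε (Real.log x) := by
  have hD := DR_pos
  have hn := nf_normal a
  have hx := hx.nf
  unfold A.log at h
  set n := a.nf
  simp only at h
  rcases h1 : Nat.ble (Nat.add n.tot 1) n.p with _ | _
  · rw [h1] at h; exact absurd h (by simp)
  rw [h1, cond_true] at h
  rcases h2 : Nat.ble n.p 1267650600228229401496703205376 with _ | _
  · rw [h2] at h; exact absurd h (by simp)
  rw [h2, cond_true] at h
  have h := Option.some.inj h
  rw [← h]
  have hTp : n.tot < n.p := Nat.le_of_ble_eq_true h1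
  have hp0 : 0 < n.p := by omega
  have hq : n.q = 0 := hn.resolve_left (by omega)
  have hpB : n.p < 2 ^ 200 := lt_of_le_of_lt (Nat.le_of_ble_eq_true h2) (by norm_num)
  have hp0' : (0 : ℝ) < n.p := by exact_mod_cast hp0
  have hTp' : (n.tot : ℝ) < n.p := by exact_mod_cast hTp
  have hc : ((n.p : ℝ) - n.q) = n.p := by rw [hq]; simp
  refine hx.app hε Real.log (DR / n.p) ?_ ?_ ?_
  · rw [hc]
    exact_mod_cast logM_spec hp0 hpB
  · have k1 := ndiv_le 4722366482869645213696 n.p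
    have k2 := lt_ndiv 4722366482869645213696 hp0
    have hDD : ((4722366482869645213696 : ℕ) : ℝ) = DR * DR := by unfold DR; norm_num
    rw [hDD] at k1 k2
    have e : DR / n.p * DR = DR * DR / n.p := by ring
    change |DR / n.p * DR - (((4722366482869645213696 / n.p : ℕ) : ℝ) - ((0 : ℕ) : ℝ))| ≤ ((1 : ℕ) : ℝ)
    rw [e, Nat.cast_zero, sub_zero, Nat.cast_one, abs_le]
    constructor <;> linarith only [k1, k2]
  · intro δ hδ
    rw [hc]
    have ht : |δ / n.p| < 1 := by
      rw [abs_div, abs_of_pos hp0', div_lt_one hp0']; linarith only [hTp', hδ]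
    have h3 := log_second ht
    have h1t : 0 < 1 + δ / n.p := by have := (abs_lt.1 ht).1; linarith only [this]
    have e : Real.log (((n.p : ℝ) + δ) / DR) * DR - Real.log ((n.p : ℝ) / DR) * DR - DR / n.p * δ =
        (Real.log (1 + δ / n.p) - δ / n.p) * DR := by
      have e1 : ((n.p : ℝ) + δ) / DR = (n.p / DR) * (1 + δ / n.p) := by field_simp
      rw [e1, Real.log_mul (by positivity) h1t.ne']
      ring
    rw [e, abs_mul, abs_of_pos hD]
    have k := lt_ndiv (68719476736 * (n.tot * n.tot)) (b := 2 * n.p * (n.p - n.tot))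
      (Nat.mul_pos (by omega) (by omega))
    change _ ≤ ((68719476736 * (n.tot * n.tot) / (2 * n.p * (n.p - n.tot)) + 1 : ℕ) : ℝ)
    have hsub : ((n.p - n.tot : ℕ) : ℝ) = n.p - n.tot := Nat.cast_sub hTp.le
    rw [Nat.cast_add, Nat.cast_one]
    refine le_trans ?_ k.le
    rw [Nat.cast_mul, DN_cast, Nat.cast_mul, Nat.cast_mul, Nat.cast_mul, hsub]
    have hd : 0 < (n.p : ℝ) - n.tot := by linarith only [hTp']
    have hT0 : (0 : ℝ) ≤ n.tot := Nat.cast_nonneg _
    calc |Real.log (1 + δ / n.p) - δ / n.p| * DR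
        ≤ (δ / n.p) ^ 2 / (2 * (1 - |δ / n.p|)) * DR := by gcongr
      _ ≤ ((n.tot : ℝ) / n.p) ^ 2 / (2 * (1 - (n.tot : ℝ) / n.p)) * DR := by
          have g1 : |δ / n.p| ≤ (n.tot : ℝ) / n.p := by
            rw [abs_div, abs_of_pos hp0']; gcongr
          have g2 : (δ / n.p) ^ 2 ≤ ((n.tot : ℝ) / n.p) ^ 2 := by
            rw [← sq_abs]; gcongr
          have g3 : 0 < 1 - (n.tot : ℝ) / n.p := by
            rw [sub_pos, div_lt_one hp0']; exact hTp'
          gcongr
      _ = DR * ((n.tot : ℝ) * n.tot) / (((2 : ℕ) : ℝ) * n.p * (n.p - n.tot)) := by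
          push_cast
          field_simp

/-- inverse of a positive number -/
def inv0 (n : A) : Option A :=
  let T := n.tot
  cond (Nat.ble (Nat.add T 1) n.p)
    (some (n.app (Nat.div 4722366482869645213696 n.p) 0 1 0 (Nat.div 324518553658426726783156020576256 (Nat.mul n.p n.p)) 1
      (Nat.add (Nat.div (Nat.mul 4722366482869645213696 (Nat.mul T T)) (Nat.mul (Nat.mul n.p n.p) (Nat.sub n.p T))) 1))) none

lemma Encl.inv0 {n b : A} {ε : ℕ → ℝ} {x : ℝ} (hε : ∀ i, |ε i| ≤ 1) (hx : n.Encl ε x)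
    (hn : n.p = 0 ∨ n.q = 0) (h : n.inv0 = some b) : b.Encl ε (x⁻¹) := by
  have hD := DR_pos
  unfold A.inv0 at h
  simp only at h
  rcases h1 : Nat.ble (Nat.add n.tot 1) n.p with _ | _
  · rw [h1] at h; exact absurd h (by simp)
  rw [h1, cond_true] at h
  have h := Option.some.inj h
  rw [← h]
  have hTp : n.tot < n.p := Nat.le_of_ble_eq_true h1
  have hp0 : 0 < n.p := by omega
  have hq : n.q = 0 := hn.resolve_left (by omega)
  have hp0' : (0 : ℝ) < n.p := by exact_mod_cast hp0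
  have hTp' : (n.tot : ℝ) < n.p := by exact_mod_cast hTp
  have hc : ((n.p : ℝ) - n.q) = n.p := by rw [hq]; simp
  have hDD : ((4722366482869645213696 : ℕ) : ℝ) = DR * DR := by unfold DR; norm_num
  have hDDD : ((324518553658426726783156020576256 : ℕ) : ℝ) = DR * DR * DR := by unfold DR; norm_num
  refine hx.app hε (fun x => x⁻¹) (-(DR * DR / (n.p * n.p))) ?_ ?_ ?_
  · have k1 := ndiv_le 4722366482869645213696 n.p
    have k2 := lt_ndiv 4722366482869645213696 hp0
    rw [hDD] at k1 k2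
    have e : (((n.p : ℝ) - n.q) / DR)⁻¹ * DR = DR * DR / n.p := by rw [hc]; field_simp
    change |(((n.p : ℝ) - n.q) / DR)⁻¹ * DR - (((4722366482869645213696 / n.p : ℕ) : ℝ) - ((0 : ℕ) : ℝ))| ≤
      ((1 : ℕ) : ℝ)
    rw [e, Nat.cast_zero, sub_zero, Nat.cast_one, abs_le]
    constructor <;> linarith only [k1, k2]
  · have k1 := ndiv_le 324518553658426726783156020576256 (n.p * n.p)
    have k2 := lt_ndiv 324518553658426726783156020576256 (b := n.p * n.p) (Nat.mul_pos hp0 hp0)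
    rw [hDDD] at k1 k2
    push_cast at k1 k2
    have e : -(DR * DR / (n.p * n.p)) * DR = -(DR * DR * DR / (n.p * n.p)) := by ring
    change |-(DR * DR / (n.p * n.p)) * DR - (((0 : ℕ) : ℝ) - ((324518553658426726783156020576256 / (n.p * n.p) : ℕ) : ℝ))| ≤ ((1 : ℕ) : ℝ)
    rw [e, Nat.cast_zero, zero_sub, Nat.cast_one, abs_le]
    constructor <;> linarith only [k2, k1]
  · intro δ hδ
    rw [hc]
    have hδ' := abs_le.1 hδ
    have hpd : 0 < (n.p : ℝ) + δ := by linarith only [hTp', hδ', hδ'.1]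
    have e : (((n.p : ℝ) + δ) / DR)⁻¹ * DR - ((n.p : ℝ) / DR)⁻¹ * DR - -(DR * DR / (n.p * n.p)) * δ =
        DR * DR * (δ ^ 2) / (n.p * n.p * (n.p + δ)) := by
      field_simp
      ring
    rw [e, abs_of_nonneg (by positivity)]
    have k := lt_ndiv (4722366482869645213696 * (n.tot * n.tot)) (b := n.p * n.p * (n.p - n.tot))
      (Nat.mul_pos (Nat.mul_pos hp0 hp0) (by omega))
    change _ ≤ ((4722366482869645213696 * (n.tot * n.tot) / (n.p * n.p * (n.p - n.tot)) + 1 : ℕ) : ℝ)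
    have hsub : ((n.p - n.tot : ℕ) : ℝ) = n.p - n.tot := Nat.cast_sub hTp.le
    rw [Nat.cast_add, Nat.cast_one]
    refine le_trans ?_ k.le
    rw [Nat.cast_mul, hDD, Nat.cast_mul, Nat.cast_mul, Nat.cast_mul, hsub]
    have hd : 0 < (n.p : ℝ) - n.tot := by linarith only [hTp']
    have g2 : δ ^ 2 ≤ (n.tot : ℝ) * n.tot := by
      rw [← pow_two, ← sq_abs δ]; gcongr
    have g3 : (n.p : ℝ) - n.tot ≤ n.p + δ := by linarith only [hδ', hδ'.1]
    gcongr

/-- inverse of a nonzero number -/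
def inv (a : A) : Option A :=
  let n := a.nf
  cond (Nat.beq n.q 0) n.inv0 (match n.neg.inv0 with
    | some b => some b.neg
    | none => none)

lemma Encl.inv {a b : A} {ε : ℕ → ℝ} {x : ℝ} (hε : ∀ i, |ε i| ≤ 1) (hx : a.Encl ε x)
    (h : a.inv = some b) : b.Encl ε (x⁻¹) := by
  have hn := nf_normal a
  have hx := hx.nf
  unfold A.inv at h
  set n := a.nf
  simp only at h
  rcases hq : Nat.beq n.q 0 with _ | _
  · rw [hq, cond_false] at h
    rcases h1 : n.neg.inv0 with _ | c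
    · rw [h1] at h; exact absurd h (by simp)
    · rw [h1] at h
      have h := Option.some.inj h
      have := (Encl.inv0 hε hx.neg (by exact hn.symm) h1).neg
      rw [← h]
      have e : x⁻¹ = -(-x)⁻¹ := by rw [inv_neg, neg_neg]
      rw [e]
      exact this
  · rw [hq, cond_true] at h
    exact Encl.inv0 hε hx hn h

end A

end Pool.Agent.Work.NumIs

end

section

/-!
# Verified numerics for the kernel, part 9: the nodes `lnA` and `lnB`
-/

namespace Pool.Agent.Work.NumIs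

lemma piN_err' {r : ℕ} (hr : r ≤ 1152921504606846976) : |Real.pi * r - (piN r : ℝ)| ≤ 2 := by
  have h1 := ndiv_le (314159265358979323846 * r) 100000000000000000000
  have h2 := lt_ndiv (314159265358979323846 * r) (b := 100000000000000000000) (by norm_num)
  have h3 := Real.pi_gt_d20
  have h4 := Real.pi_lt_d20
  have hr0 : (0 : ℝ) ≤ r := Nat.cast_nonneg _
  have hr' : (r : ℝ) ≤ 1152921504606846976 := by exact_mod_cast hr
  have h5 : (Real.pi - 3.14159265358979323846) * r ≤ 0.00000000000000000001 * 1152921504606846976 := by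
    have : Real.pi - 3.14159265358979323846 ≤ 0.00000000000000000001 := by linarith only [h4]
    gcongr
  have h6 : 0 ≤ (Real.pi - 3.14159265358979323846) * r := by
    apply mul_nonneg _ hr0
    linarith only [h3]
  change |Real.pi * r - ((314159265358979323846 * r / 100000000000000000000 : ℕ) : ℝ)| ≤ 2
  push_cast at h1 h2
  rw [abs_le]
  constructor <;> linarith only [h3, h4, h6, h1, h5, h2]

namespace A

/-- a function of two variables -/
def app2 (X T : A) (r2 T2 F1 F2 e0 S1p S1q e1 S2p S2q e2 k2 : ℕ) : A :=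
  let g := G.lin S1p S1q S2p S2q X.g T.g
  ⟨F1, F2, Nat.add (Nat.add (Nat.add (Nat.add e0 (Nat.div (Nat.add (Nat.add (Nat.add (Nat.mul (Nat.add S1p S1q) X.r) (Nat.mul e1 X.tot)) (Nat.mul (Nat.add S2p S2q) r2)) (Nat.mul e2 T2)) 68719476736)) k2) g.len) 1, g⟩

lemma app2_spec {X T : A} {ε : ℕ → ℝ} {x t : ℝ} (hε : ∀ i, |ε i| ≤ 1) {c1 c2 : ℝ} {r2 T2 : ℕ}
    (hx : |x * DR - (c1 + X.g.ev ε)| ≤ X.r) (hx' : |x * DR - c1| ≤ X.tot)
    (ht : |t * DR - (c2 + T.g.ev ε)| ≤ r2) (ht' : |t * DR - c2| ≤ T2)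
    (f : ℝ → ℝ → ℝ) (d1 d2 : ℝ) {F1 F2 e0 S1p S1q e1 S2p S2q e2 k2 : ℕ}
    (h0 : |f (c1 / DR) (c2 / DR) * DR - ((F1 : ℝ) - F2)| ≤ e0)
    (h1 : |d1 * DR - ((S1p : ℝ) - S1q)| ≤ e1) (h2 : |d2 * DR - ((S2p : ℝ) - S2q)| ≤ e2)
    (h3 : ∀ a b : ℝ, |a| ≤ (X.tot : ℝ) → |b| ≤ (T2 : ℝ) →
      |f ((c1 + a) / DR) ((c2 + b) / DR) * DR - f (c1 / DR) (c2 / DR) * DR - (d1 * a + d2 * b)| ≤ k2) :
    (app2 X T r2 T2 F1 F2 e0 S1p S1q e1 S2p S2q e2 k2).Encl ε (f x t) := by
  have hD := DR_pos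
  have k2' := h3 _ _ hx' ht'
  have hxx : (c1 + (x * DR - c1)) / DR = x := by field_simp; ring
  have htt : (c2 + (t * DR - c2)) / DR = t := by field_simp; ring
  rw [hxx, htt] at k2'
  have hl := G.lin_err S1p S1q S2p S2q X.g T.g hε
  have kr := lt_ndiv ((S1p + S1q) * X.r + e1 * X.tot + (S2p + S2q) * r2 + e2 * T2)
    (b := 68719476736) (by norm_num)
  rw [DN_cast] at kr
  unfold Encl
  change |f x t * DR - ((F1 : ℝ) - F2 + (G.lin S1p S1q S2p S2q X.g T.g).ev ε)| ≤
    ((e0 + ((S1p + S1q) * X.r + e1 * X.tot + (S2p + S2q) * r2 + e2 * T2) / 68719476736 + k2 +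
      (G.lin S1p S1q S2p S2q X.g T.g).len + 1 : ℕ) : ℝ)
  push_cast at kr ⊢
  set R := ((((S1p + S1q) * X.r + e1 * X.tot + (S2p + S2q) * r2 + e2 * T2) / 68719476736 : ℕ) : ℝ)
  set L := (G.lin S1p S1q S2p S2q X.g T.g).ev ε
  set n := ((G.lin S1p S1q S2p S2q X.g T.g).len : ℝ)
  set T1 := (X.tot : ℝ)
  set G1 := X.g.ev ε
  set G2 := T.g.ev ε
  set ρ1 := x * DR - (c1 + G1) with hρ1
  set u1 := x * DR - c1 with hu1
  set ρ2 := t * DR - (c2 + G2) with hρ2
  set u2 := t * DR - c2 with hu2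
  set S1 : ℝ := (S1p : ℝ) - S1q with hS1
  set S2 : ℝ := (S2p : ℝ) - S2q with hS2
  have e : f x t * DR - ((F1 : ℝ) - F2 + L) =
      (f x t * DR - f (c1 / DR) (c2 / DR) * DR - (d1 * u1 + d2 * u2)) +
      (f (c1 / DR) (c2 / DR) * DR - ((F1 : ℝ) - F2)) +
      (-(L - (S1 / DR * G1 + S2 / DR * G2))) +
      ((d1 * DR - S1) * u1 + S1 * ρ1 + ((d2 * DR - S2) * u2 + S2 * ρ2)) / DR := by
    rw [hρ1, hu1, hρ2, hu2]
    field_simp
    ring
  rw [e]
  have m1 : |((d1 * DR - S1) * u1 + S1 * ρ1 + ((d2 * DR - S2) * u2 + S2 * ρ2)) / DR| ≤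
      (((S1p : ℝ) + S1q) * X.r + e1 * T1 + (S2p + S2q) * r2 + e2 * T2) / DR := by
    rw [abs_div, abs_of_pos hD]
    gcongr
    have a1 : |(d1 * DR - S1) * u1| ≤ e1 * T1 := by
      rw [abs_mul]; exact mul_le_mul h1 hx' (abs_nonneg _) (by positivity)
    have a2 : |S1 * ρ1| ≤ ((S1p : ℝ) + S1q) * X.r := by
      rw [abs_mul]; exact mul_le_mul (abs_pq _ _) hx (abs_nonneg _) (by positivity)
    have a3 : |(d2 * DR - S2) * u2| ≤ e2 * T2 := by
      rw [abs_mul]; exact mul_le_mul h2 ht' (abs_nonneg _) (by positivity)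
    have a4 : |S2 * ρ2| ≤ ((S2p : ℝ) + S2q) * r2 := by
      rw [abs_mul]; exact mul_le_mul (abs_pq _ _) ht (abs_nonneg _) (by positivity)
    have b1 := abs_add_le ((d1 * DR - S1) * u1) (S1 * ρ1)
    have b2 := abs_add_le ((d2 * DR - S2) * u2) (S2 * ρ2)
    have b3 := abs_add_le ((d1 * DR - S1) * u1 + S1 * ρ1) ((d2 * DR - S2) * u2 + S2 * ρ2)
    linarith only [a1, a2, a3, a4, b1, b2, b3]
  have m3 : |-(L - (S1 / DR * G1 + S2 / DR * G2))| ≤ n := by rw [abs_neg]; exact hl
  have s1 := abs_add_le ((f x t * DR - f (c1 / DR) (c2 / DR) * DR - (d1 * u1 + d2 * u2)) +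
      (f (c1 / DR) (c2 / DR) * DR - ((F1 : ℝ) - F2)) +
      (-(L - (S1 / DR * G1 + S2 / DR * G2))))
      (((d1 * DR - S1) * u1 + S1 * ρ1 + ((d2 * DR - S2) * u2 + S2 * ρ2)) / DR)
  have s2 := abs_add_three (f x t * DR - f (c1 / DR) (c2 / DR) * DR - (d1 * u1 + d2 * u2))
      (f (c1 / DR) (c2 / DR) * DR - ((F1 : ℝ) - F2))
      (-(L - (S1 / DR * G1 + S2 / DR * G2)))
  linarith only [h0, kr, k2', m1, m3, s1, s2]

end A

/-- quotient estimate -/
lemma quot_err {n N m M en em : ℝ} (hM : |M - m| ≤ em) (hN : |N - n| ≤ en) (hm : em < m) :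
    |N / M - n / m| ≤ (en + |n| / m * em) / (m - em) := by
  have hem : 0 ≤ em := (abs_nonneg _).trans hM
  have hm0 : 0 < m := by linarith only [hm, hem]
  have hMm := (abs_le.1 hM).1
  have hMpos : 0 < M := by linarith only [hm, hMm]
  have e : N / M - n / m = ((N - n) - n / m * (M - m)) / M := by
    field_simp
    ring
  rw [e, abs_div, abs_of_pos hMpos]
  have h1 : |(N - n) - n / m * (M - m)| ≤ en + |n| / m * em := by
    refine (abs_sub _ _).trans ?_
    rw [abs_mul, abs_div, abs_of_pos hm0]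
    gcongr
  have h0 : 0 ≤ en + |n| / m * em := (abs_nonneg _).trans h1
  gcongr
  linarith only [hMm]

/-- basic numbers at the centre -/
structure LS where
  s : ℕ
  cp : ℕ
  cq : ℕ
  sh : ℕ
  esh : ℕ
  ch : ℕ
  ech : ℕ
  m : ℕ

/-- `LS` is correct for the point `(x, t)`, `t ≥ 0` -/
structure LS.Good (l : LS) (x t : ℝ) : Prop where
  s : |Real.sin (Real.pi * x) * DR - l.s| ≤ 4
  c : |Real.cos (Real.pi * x) * DR - ((l.cp : ℝ) - l.cq)| ≤ 4
  n : l.cp = 0 ∨ l.cq = 0
  sh : |Real.sinh (Real.pi * t) * DR - l.sh| ≤ l.esh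
  ch : |Real.cosh (Real.pi * t) * DR - l.ch| ≤ l.ech
  m : Real.pi * t * DR = l.m
  t0 : 0 ≤ t

def lsD (X T : A) : Option LS :=
  let s4 := scS X.p X.q
  let m := piN (Nat.add T.p T.q)
  let h := A.chsh (ex4 m)
  cnd (Nat.ble (Nat.add T.p T.q) 1152921504606846976)
    (cnd (Nat.ble m 1099511627776)
      (cnd (Nat.ble 1 (expLo m))
        (cnd (Nat.ble (Nat.add 9 (Nat.mul 4 X.tot)) s4.sp)
          (some ⟨s4.sp, s4.cp, s4.cq, h.c, h.d, h.a, h.b, m⟩) none) none) none) none

def LS.M (l : LS) : ℕ := Nat.div (Nat.add (Nat.mul l.s l.s) (Nat.mul l.sh l.sh)) 68719476736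
def LS.eM (l : LS) : ℕ := Nat.add 12 (Nat.div (Nat.add (Nat.mul (Nat.mul 2 l.sh) l.esh) (Nat.mul l.esh l.esh)) 68719476736)

lemma abs_mul_sub {a b A B ea eb : ℝ} (ha : |A - a| ≤ ea) (hb : |B - b| ≤ eb) :
    |A * B - a * b| ≤ ea * (|b| + eb) + |a| * eb := by
  have e : A * B - a * b = (A - a) * (b + (B - b)) + a * (B - b) := by ring
  rw [e]
  refine (abs_add_le _ _).trans ?_
  rw [abs_mul, abs_mul]
  have h1 : |b + (B - b)| ≤ |b| + eb := (abs_add_le _ _).trans (by linarith only [hb])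
  have hea : 0 ≤ ea := (abs_nonneg _).trans ha
  gcongr

lemma LS.Good.M {l : LS} {x t : ℝ} (h : l.Good x t) : |MM x t * DR - l.M| ≤ l.eM := by
  have hD := DR_pos
  have h1 := abs_mul_sub h.s h.s
  have h2 := abs_mul_sub h.sh h.sh
  have a1 := ndiv_le (l.s * l.s + l.sh * l.sh) 68719476736
  have a2 := lt_ndiv (l.s * l.s + l.sh * l.sh) (b := 68719476736) (by norm_num)
  have a3 := lt_ndiv (2 * l.sh * l.esh + l.esh * l.esh) (b := 68719476736) (by norm_num)
  rw [DN_cast] at a1 a2 a3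
  have hM : (l.M : ℝ) = (((l.s * l.s + l.sh * l.sh) / 68719476736 : ℕ) : ℝ) := rfl
  have heM : (l.eM : ℝ) = 12 + (((2 * l.sh * l.esh + l.esh * l.esh) / 68719476736 : ℕ) : ℝ) := by
    change ((12 + (2 * l.sh * l.esh + l.esh * l.esh) / 68719476736 : ℕ) : ℝ) = _
    push_cast; ring
  rw [hM, heM]
  push_cast at a1 a2 a3
  set u := (((l.s * l.s + l.sh * l.sh) / 68719476736 : ℕ) : ℝ)
  set v := (((2 * l.sh * l.esh + l.esh * l.esh) / 68719476736 : ℕ) : ℝ)
  have hs0 : (0 : ℝ) ≤ l.s := Nat.cast_nonneg _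
  have hsh0 : (0 : ℝ) ≤ l.sh := Nat.cast_nonneg _
  rw [abs_of_nonneg hs0] at h1
  rw [abs_of_nonneg hsh0] at h2
  have hs1 : (l.s : ℝ) ≤ DR + 4 := by
    have := (abs_le.1 h.s).1
    have h3 : Real.sin (Real.pi * x) * DR ≤ DR := by
      have := Real.sin_le_one (Real.pi * x)
      nlinarith only [hD, this]
    linarith
  have e : MM x t * DR - u =
      (Real.sin (Real.pi * x) * DR * (Real.sin (Real.pi * x) * DR) - l.s * l.s) / DR +
      (Real.sinh (Real.pi * t) * DR * (Real.sinh (Real.pi * t) * DR) - l.sh * l.sh) / DR +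
      (((l.s : ℝ) * l.s + l.sh * l.sh) / DR - u) := by
    unfold MM
    field_simp
    ring
  rw [e]
  have b1 : |(Real.sin (Real.pi * x) * DR * (Real.sin (Real.pi * x) * DR) - l.s * l.s) / DR| ≤ 9 := by
    rw [abs_div, abs_of_pos hD, div_le_iff₀ hD]
    have : (100 : ℝ) ≤ DR := by unfold DR; norm_num
    linarith only [h1, hs1, this]
  have b2 : |(Real.sinh (Real.pi * t) * DR * (Real.sinh (Real.pi * t) * DR) - l.sh * l.sh) / DR| ≤
      (2 * l.sh * l.esh + l.esh * l.esh) / DR := by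
    rw [abs_div, abs_of_pos hD]
    gcongr
    linarith only [h2]
  have b3 : |((l.s : ℝ) * l.s + l.sh * l.sh) / DR - u| ≤ 1 := by
    rw [abs_le]; constructor <;> linarith only [a1, a2]
  refine (abs_add_three _ _ _).trans ?_
  linarith only [a3, b1, b2, b3]

/-- the value `lnA`, `(p, q, error)` -/
structure R3 where
  p : ℕ
  q : ℕ
  e : ℕ

def R3.Good (r : R3) (v : ℝ) : Prop := |v * DR - ((r.p : ℝ) - r.q)| ≤ r.e

def LS.vA (l : LS) : R3 :=
  let M := l.M
  let eM := l.eM
  let g := logM (Nat.mul 4 M)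
  ⟨Nat.div g.1 2, Nat.div g.2 2, Nat.add 5 (Nat.div (Nat.mul 68719476736 eM) (Nat.mul 2 (Nat.sub M eM)))⟩

lemma LS.Good.vA {l : LS} {x t : ℝ} (h : l.Good x t) (h1 : l.eM < l.M) (h2 : l.M ≤ 2 ^ 100) :
    (l.vA).Good (lnA x t) := by
  have hD := DR_pos
  have hM := h.M
  have hMpos : 0 < l.M := by omega
  have hlog := logM_spec (m := 4 * l.M) (by omega) (by
    have : (2 : ℕ) ^ 200 = 2 ^ 100 * 2 ^ 100 := by norm_num
    have h3 : (4 : ℕ) < 2 ^ 100 := by norm_num
    nlinarith only [h2])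
  unfold R3.Good
  have k := lt_ndiv (68719476736 * l.eM) (b := 2 * (l.M - l.eM)) (by omega)
  have hsub : ((l.M - l.eM : ℕ) : ℝ) = l.M - l.eM := Nat.cast_sub h1.le
  rw [Nat.cast_mul, DN_cast, Nat.cast_mul, hsub] at k
  have p1 := ndiv_le (logM (4 * l.M)).1 2
  have p2 := lt_ndiv (logM (4 * l.M)).1 (b := 2) (by norm_num)
  have q1 := ndiv_le (logM (4 * l.M)).2 2
  have q2 := lt_ndiv (logM (4 * l.M)).2 (b := 2) (by norm_num)
  change |lnA x t * DR - ((((logM (4 * l.M)).1 / 2 : ℕ) : ℝ) - (((logM (4 * l.M)).2 / 2 : ℕ) : ℝ))| ≤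
    ((5 + 68719476736 * l.eM / (2 * (l.M - l.eM)) : ℕ) : ℝ)
  rw [Nat.cast_add]
  push_cast at k p1 p2 q1 q2 hlog ⊢
  set u := ((68719476736 * l.eM / (2 * (l.M - l.eM)) : ℕ) : ℝ)
  have hMr : (0 : ℝ) < l.M := by exact_mod_cast hMpos
  have h1r : (l.eM : ℝ) < l.M := by exact_mod_cast h1
  have hM' := abs_le.1 hM
  have hMt : 0 < MM x t * DR := by linarith only [h1r, hM']
  have hMt0 : 0 < MM x t := pos_of_mul_pos_left hMt hD.le
  -- difference of the logarithms
  have hl1 : Real.log (4 * MM x t) - Real.log (4 * l.M / DR) ≤ l.eM / (l.M - l.eM) := by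
    rw [← Real.log_div (by positivity) (by positivity)]
    refine (Real.log_le_sub_one_of_pos (by positivity)).trans ?_
    have e : 4 * MM x t / (4 * l.M / DR) - 1 = (MM x t * DR - l.M) / l.M := by
      field_simp
    rw [e]
    calc (MM x t * DR - l.M) / l.M ≤ l.eM / l.M := by gcongr; exact hM'.2
      _ ≤ l.eM / (l.M - l.eM) := by
        apply div_le_div_of_nonneg_left (Nat.cast_nonneg _) (by linarith only [h1r])
        have : (0 : ℝ) ≤ l.eM := Nat.cast_nonneg _
        linarith only []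
  have hl2 : Real.log (4 * l.M / DR) - Real.log (4 * MM x t) ≤ l.eM / (l.M - l.eM) := by
    rw [← Real.log_div (by positivity) (by positivity)]
    refine (Real.log_le_sub_one_of_pos (by positivity)).trans ?_
    have e : (4 * l.M / DR) / (4 * MM x t) - 1 = (l.M - MM x t * DR) / (MM x t * DR) := by
      field_simp
    rw [e]
    have : 0 < (l.M : ℝ) - l.eM := by linarith only [h1r]
    calc (l.M - MM x t * DR) / (MM x t * DR) ≤ l.eM / (MM x t * DR) := by
          gcongr; linarith only [hM', hM'.1]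
      _ ≤ l.eM / (l.M - l.eM) := by
        apply div_le_div_of_nonneg_left (Nat.cast_nonneg _) (by linarith only [h1r])
        linarith only [hM', hM'.1]
  have hAA : lnA x t = Real.log (4 * MM x t) / 2 := rfl
  rw [hAA]
  have hE : (l.eM : ℝ) / (l.M - l.eM) * DR / 2 ≤ u + 1 := by
    refine le_trans (le_of_eq ?_) k.le
    have : (l.M : ℝ) - l.eM ≠ 0 := by linarith only [h1r]
    field_simp
  have hlog' := abs_le.1 hlog
  rw [abs_le]
  constructor
  · nlinarith only [hD, p1, q2, hl2, hE, hlog']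
  · nlinarith only [hD, p2, q1, hl1, hE, hlog']


/-- `π P = π s c / M` -/
def LS.vU (l : LS) : R3 :=
  let M := l.M
  let eM := l.eM
  let rp := Nat.div (Nat.mul l.s l.cp) M
  let rq := Nat.div (Nat.mul l.s l.cq) M
  ⟨piN rp, piN rq, Nat.add (Nat.mul 4 (Nat.add (Nat.div (Nat.add (Nat.add 549755813888 48) (Nat.mul (Nat.add (Nat.add rp rq) 1) eM)) (Nat.sub M eM)) 2)) 2⟩

/-- `π Q = π sh ch / M` -/
def LS.vW (l : LS) : R3 :=
  let M := l.M
  let eM := l.eM
  let r := Nat.div (Nat.mul l.sh l.ch) M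
  ⟨piN r, 0, Nat.add (Nat.mul 4 (Nat.add (Nat.div (Nat.add (Nat.add (Nat.mul l.esh (Nat.add l.ch l.ech)) (Nat.mul l.sh l.ech)) (Nat.mul (Nat.add r 1) eM)) (Nat.sub M eM)) 2)) 2⟩

/-- checks -/
def LS.ok (l : LS) : Bool :=
  cnd (Nat.ble (Nat.add l.eM 1) l.M) (cnd (Nat.ble l.M 1267650600228229401496703205376)
    (cnd (Nat.ble (Nat.div (Nat.mul l.s (Nat.add l.cp l.cq)) l.M) 1152921504606846976)
      (Nat.ble (Nat.div (Nat.mul l.sh l.ch) l.M) 1152921504606846976) false) false) false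

lemma LS.ok_spec {l : LS} (h : l.ok = true) : l.eM < l.M ∧ l.M ≤ 2 ^ 100 ∧
    l.s * (l.cp + l.cq) / l.M ≤ 1152921504606846976 ∧ l.sh * l.ch / l.M ≤ 1152921504606846976 := by
  unfold LS.ok at h
  simp only [cnd_eq] at h
  rcases h1 : Nat.ble (Nat.add l.eM 1) l.M with _ | _
  · rw [h1] at h; exact absurd h (by simp)
  rw [h1, cond_true] at h
  rcases h2 : Nat.ble l.M 1267650600228229401496703205376 with _ | _
  · rw [h2] at h; exact absurd h (by simp)
  rw [h2, cond_true] at h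
  rcases h3 : Nat.ble (Nat.div (Nat.mul l.s (Nat.add l.cp l.cq)) l.M) 1152921504606846976 with _ | _
  · rw [h3] at h; exact absurd h (by simp)
  rw [h3, cond_true] at h
  refine ⟨Nat.le_of_ble_eq_true h1, ?_, Nat.le_of_ble_eq_true h3, Nat.le_of_ble_eq_true h⟩
  have : (2 : ℕ) ^ 100 = 1267650600228229401496703205376 := by norm_num
  rw [this]
  exact Nat.le_of_ble_eq_true h2

lemma LS.Good.sle {l : LS} {x t : ℝ} (h : l.Good x t) : (l.s : ℝ) ≤ DR + 4 := by
  have hD := DR_pos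
  have := (abs_le.1 h.s).1
  have h3 : Real.sin (Real.pi * x) * DR ≤ DR := by
    have := Real.sin_le_one (Real.pi * x)
    nlinarith only [hD, this]
  linarith

lemma LS.Good.cle {l : LS} {x t : ℝ} (h : l.Good x t) : |(l.cp : ℝ) - l.cq| ≤ DR + 4 := by
  have hD := DR_pos
  have h3 : |Real.cos (Real.pi * x) * DR| ≤ DR := by
    rw [abs_mul, abs_of_pos hD]
    have := Real.abs_cos_le_one (Real.pi * x)
    nlinarith only [hD, this]
  have e : (l.cp : ℝ) - l.cq = Real.cos (Real.pi * x) * DR -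
    (Real.cos (Real.pi * x) * DR - ((l.cp : ℝ) - l.cq)) := by ring
  rw [e]
  exact (abs_sub _ _).trans (by linarith only [h, h3, h.c])

lemma pi_scale {v rp rq e : ℝ} {Rp Rq : ℕ} (h : |v * DR - (rp - rq)| ≤ e)
    (hp : |Real.pi * rp - (piN Rp : ℝ)| ≤ 2) (hq : |Real.pi * rq - (piN Rq : ℝ)| ≤ 2)
    (h0 : rp = 0 ∧ piN Rp = 0 ∨ rq = 0 ∧ piN Rq = 0) :
    |Real.pi * v * DR - ((piN Rp : ℝ) - piN Rq)| ≤ 4 * e + 2 := by
  have he : 0 ≤ e := (abs_nonneg _).trans h
  have h1 : |Real.pi * (v * DR - (rp - rq))| ≤ 4 * e := by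
    rw [abs_mul, abs_of_pos Real.pi_pos]
    have := Real.pi_lt_d2
    have := Real.pi_pos
    nlinarith [abs_nonneg (v * DR - (rp - rq))]
  have e1 : Real.pi * v * DR - ((piN Rp : ℝ) - piN Rq) =
      Real.pi * (v * DR - (rp - rq)) + ((Real.pi * rp - piN Rp) - (Real.pi * rq - piN Rq)) := by ring
  rw [e1]
  refine (abs_add_le _ _).trans (add_le_add h1 ?_)
  rcases h0 with ⟨a, b⟩ | ⟨a, b⟩
  · rw [a, b]
    have e2 : Real.pi * 0 - ((0 : ℕ) : ℝ) - (Real.pi * rq - piN Rq) = -(Real.pi * rq - piN Rq) := by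
      push_cast; ring
    rw [e2, abs_neg]
    exact hq
  · rw [a, b]
    simpa using hp

lemma LS.Good.vU {l : LS} {x t : ℝ} (h : l.Good x t) (hok : l.ok = true) :
    (l.vU).Good (Real.pi * PP x t) := by
  have hD := DR_pos
  obtain ⟨h1, h2, h3, h4⟩ := LS.ok_spec hok
  have hM := h.M
  have hMpos : 0 < l.M := by omega
  have hMr : (0 : ℝ) < l.M := by exact_mod_cast hMpos
  have h1r : (l.eM : ℝ) < l.M := by exact_mod_cast h1
  have hsub : ((l.M - l.eM : ℕ) : ℝ) = l.M - l.eM := Nat.cast_sub h1.le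
  have hprod := abs_mul_sub h.s h.c
  have hs0 : (0 : ℝ) ≤ l.s := Nat.cast_nonneg _
  rw [abs_of_nonneg hs0] at hprod
  have hen : 4 * (|(l.cp : ℝ) - l.cq| + 4) + l.s * 4 ≤ 8 * DR + 48 := by
    linarith only [h, h.sle, h.cle]
  have hq := quot_err (N := Real.sin (Real.pi * x) * DR * (Real.cos (Real.pi * x) * DR))
    (n := (l.s : ℝ) * ((l.cp : ℝ) - l.cq)) (M := MM x t * DR) (m := l.M) (en := 8 * DR + 48)
    (em := l.eM) hM (hprod.trans hen) h1r
  have eP : Real.sin (Real.pi * x) * DR * (Real.cos (Real.pi * x) * DR) / (MM x t * DR) =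
      PP x t * DR := by
    unfold PP
    have : MM x t * DR ≠ 0 := by
      have := (abs_le.1 hM).1
      have : 0 < MM x t * DR := by linarith only [h1r, this]
      exact this.ne'
    have hMM0 : MM x t ≠ 0 := left_ne_zero_of_mul this
    field_simp
  rw [eP] at hq
  -- the rounded quotient
  have p1 := ndiv_le (l.s * l.cp) l.M
  have p2 := lt_ndiv (l.s * l.cp) hMpos
  have q1 := ndiv_le (l.s * l.cq) l.M
  have q2 := lt_ndiv (l.s * l.cq) hMpos
  push_cast at p1 p2 q1 q2
  set rp := l.s * l.cp / l.M with hrp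
  set rq := l.s * l.cq / l.M with hrq
  have hrpz : l.cp = 0 → rp = 0 := fun h0 => by rw [hrp, h0]; simp
  have hrqz : l.cq = 0 → rq = 0 := fun h0 => by rw [hrq, h0]; simp
  have hr1 : |(l.s : ℝ) * ((l.cp : ℝ) - l.cq) / l.M - ((rp : ℝ) - rq)| ≤ 1 := by
    have e : (l.s : ℝ) * ((l.cp : ℝ) - l.cq) / l.M = (l.s : ℝ) * l.cp / l.M - (l.s : ℝ) * l.cq / l.M := by
      ring
    rw [e]
    rcases h.n with h0 | h0
    · rw [hrpz h0, h0]
      simp only [Nat.cast_zero, mul_zero, zero_div, zero_sub]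
      rw [abs_le]
      constructor <;> linarith only [q2, q1]
    · rw [hrqz h0, h0]
      simp only [Nat.cast_zero, mul_zero, zero_div, sub_zero]
      rw [abs_le]
      constructor <;> linarith only [p1, p2]
  have hn : |(l.s : ℝ) * ((l.cp : ℝ) - l.cq)| / l.M ≤ (rp : ℝ) + rq + 1 := by
    have : |(l.s : ℝ) * ((l.cp : ℝ) - l.cq)| / l.M = |(l.s : ℝ) * ((l.cp : ℝ) - l.cq) / l.M| := by
      rw [abs_div, abs_of_pos hMr]
    rw [this]
    have e : (l.s : ℝ) * ((l.cp : ℝ) - l.cq) / l.M = ((rp : ℝ) - rq) +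
      ((l.s : ℝ) * ((l.cp : ℝ) - l.cq) / l.M - ((rp : ℝ) - rq)) := by ring
    rw [e]
    exact (abs_add_le _ _).trans (add_le_add (A.abs_pq _ _) hr1)
  have k := lt_ndiv (549755813888 + 48 + (rp + rq + 1) * l.eM) (b := l.M - l.eM) (by omega)
  have h8 : ((549755813888 : ℕ) : ℝ) = 8 * DR := by unfold DR; norm_num
  rw [Nat.cast_add, Nat.cast_add, h8, Nat.cast_mul, hsub] at k
  push_cast at k
  have hd : 0 < (l.M : ℝ) - l.eM := by linarith only [h1r]
  have heM0 : (0 : ℝ) ≤ l.eM := Nat.cast_nonneg _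
  have hfin : |PP x t * DR - ((rp : ℝ) - rq)| ≤
      (((549755813888 + 48 + (rp + rq + 1) * l.eM) / (l.M - l.eM) : ℕ) : ℝ) + 2 := by
    have e : PP x t * DR - ((rp : ℝ) - rq) =
      (PP x t * DR - (l.s : ℝ) * ((l.cp : ℝ) - l.cq) / l.M) +
      ((l.s : ℝ) * ((l.cp : ℝ) - l.cq) / l.M - ((rp : ℝ) - rq)) := by ring
    rw [e]
    refine (abs_add_le _ _).trans ?_
    have h5 : (8 * DR + 48 + |(l.s : ℝ) * ((l.cp : ℝ) - l.cq)| / l.M * l.eM) / (l.M - l.eM) ≤
        (8 * DR + 48 + ((rp : ℝ) + rq + 1) * l.eM) / (l.M - l.eM) := by gcongr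
    linarith only [hq, hr1, k, h5]
  have hrle : rp ≤ 1152921504606846976 ∧ rq ≤ 1152921504606846976 := by
    have a1 : rp ≤ l.s * (l.cp + l.cq) / l.M :=
      Nat.div_le_div_right (Nat.mul_le_mul_left _ (Nat.le_add_right _ _))
    have a2 : rq ≤ l.s * (l.cp + l.cq) / l.M :=
      Nat.div_le_div_right (Nat.mul_le_mul_left _ (Nat.le_add_left _ _))
    exact ⟨a1.trans h3, a2.trans h3⟩
  have hps := pi_scale hfin (piN_err' hrle.1) (piN_err' hrle.2) (by
    rcases h.n with h0 | h0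
    · left; rw [hrpz h0]; exact ⟨Nat.cast_zero, piN_zero⟩
    · right; rw [hrqz h0]; exact ⟨Nat.cast_zero, piN_zero⟩)
  unfold R3.Good
  change |Real.pi * PP x t * DR - ((piN rp : ℝ) - piN rq)| ≤
    ((4 * ((549755813888 + 48 + (rp + rq + 1) * l.eM) / (l.M - l.eM) + 2) + 2 : ℕ) : ℝ)
  rw [Nat.cast_add, Nat.cast_mul, Nat.cast_add]
  exact_mod_cast hps

lemma LS.Good.vW {l : LS} {x t : ℝ} (h : l.Good x t) (hok : l.ok = true) :
    (l.vW).Good (Real.pi * QQ x t) := by
  have hD := DR_pos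
  obtain ⟨h1, h2, h3, h4⟩ := LS.ok_spec hok
  have hM := h.M
  have hMpos : 0 < l.M := by omega
  have hMr : (0 : ℝ) < l.M := by exact_mod_cast hMpos
  have h1r : (l.eM : ℝ) < l.M := by exact_mod_cast h1
  have hsub : ((l.M - l.eM : ℕ) : ℝ) = l.M - l.eM := Nat.cast_sub h1.le
  have hprod := abs_mul_sub h.sh h.ch
  have hs0 : (0 : ℝ) ≤ l.sh := Nat.cast_nonneg _
  have hc0 : (0 : ℝ) ≤ l.ch := Nat.cast_nonneg _
  rw [abs_of_nonneg hs0, abs_of_nonneg hc0] at hprod
  have hq := quot_err (N := Real.sinh (Real.pi * t) * DR * (Real.cosh (Real.pi * t) * DR))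
    (n := (l.sh : ℝ) * l.ch) (M := MM x t * DR) (m := l.M)
    (em := l.eM) hM hprod h1r
  rw [abs_of_nonneg (mul_nonneg hs0 hc0)] at hq
  have eP : Real.sinh (Real.pi * t) * DR * (Real.cosh (Real.pi * t) * DR) / (MM x t * DR) =
      QQ x t * DR := by
    unfold QQ
    have : MM x t * DR ≠ 0 := by
      have := (abs_le.1 hM).1
      have : 0 < MM x t * DR := by linarith only [h1r, this]
      exact this.ne'
    have hMM0 : MM x t ≠ 0 := left_ne_zero_of_mul this
    field_simp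
  rw [eP] at hq
  have p1 := ndiv_le (l.sh * l.ch) l.M
  have p2 := lt_ndiv (l.sh * l.ch) hMpos
  push_cast at p1 p2
  set r := l.sh * l.ch / l.M with hr
  have k := lt_ndiv (l.esh * (l.ch + l.ech) + l.sh * l.ech + (r + 1) * l.eM) (b := l.M - l.eM)
    (by omega)
  rw [Nat.cast_add, Nat.cast_add, Nat.cast_mul, Nat.cast_mul, Nat.cast_mul, Nat.cast_add, hsub] at k
  push_cast at k
  have hd : 0 < (l.M : ℝ) - l.eM := by linarith only [h1r]
  have heM0 : (0 : ℝ) ≤ l.eM := Nat.cast_nonneg _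
  have hfin : |QQ x t * DR - ((r : ℝ) - ((0 : ℕ) : ℝ))| ≤
      (((l.esh * (l.ch + l.ech) + l.sh * l.ech + (r + 1) * l.eM) / (l.M - l.eM) : ℕ) : ℝ) + 2 := by
    have e : QQ x t * DR - ((r : ℝ) - ((0 : ℕ) : ℝ)) =
      (QQ x t * DR - (l.sh : ℝ) * l.ch / l.M) + ((l.sh : ℝ) * l.ch / l.M - r) := by
        push_cast; ring
    rw [e]
    refine (abs_add_le _ _).trans ?_
    have h5 : (l.esh * ((l.ch : ℝ) + l.ech) + l.sh * l.ech + (l.sh : ℝ) * l.ch / l.M * l.eM) /
        (l.M - l.eM) ≤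
        (l.esh * ((l.ch : ℝ) + l.ech) + l.sh * l.ech + ((r : ℝ) + 1) * l.eM) / (l.M - l.eM) := by
      gcongr
    have h6 : |(l.sh : ℝ) * l.ch / l.M - r| ≤ 1 := by rw [abs_le]; constructor <;> linarith only [p1, p2]
    linarith only [hq, k, h5, h6]
  have hps := pi_scale (Rq := 0) hfin (piN_err' h4) (by rw [piN_zero]; simp)
    (by right; exact ⟨Nat.cast_zero, piN_zero⟩)
  unfold R3.Good
  change |Real.pi * QQ x t * DR - ((piN r : ℝ) - ((0 : ℕ) : ℝ))| ≤
    ((4 * ((l.esh * (l.ch + l.ech) + l.sh * l.ech + (r + 1) * l.eM) / (l.M - l.eM) + 2) + 2 : ℕ) : ℝ)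
  rw [piN_zero] at hps
  rw [Nat.cast_add, Nat.cast_mul, Nat.cast_add]
  exact_mod_cast hps


/-- the quotient `|c| sh / (s ch)` -/
def LS.bv (l : LS) : ℕ := Nat.div (Nat.mul (Nat.mul (Nat.add l.cp l.cq) l.sh) 68719476736) (Nat.mul l.s l.ch)
def LS.ed (l : LS) : ℕ := Nat.add (Nat.mul 4 (Nat.add l.ch l.ech)) (Nat.mul l.s l.ech)
def LS.en (l : LS) : ℕ := Nat.add (Nat.mul 4 (Nat.add l.sh l.esh)) (Nat.mul (Nat.add l.cp l.cq) l.esh)
def LS.eb (l : LS) : ℕ := Nat.div (Nat.add (Nat.mul 68719476736 l.en) (Nat.mul (Nat.add l.bv 1) l.ed)) (Nat.sub (Nat.mul l.s l.ch) l.ed)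

/-- the value `lnB` -/
def LS.vB (l : LS) : Option R3 :=
  cnd (Nat.ble (Nat.add l.ed 1) (Nat.mul l.s l.ch))
    (match atN l.bv with
      | none => none
      | some r => cnd (Nat.beq l.cq 0) (some ⟨r.1, r.2, Nat.add 15 l.eb⟩) (some ⟨r.2, r.1, Nat.add 15 l.eb⟩)) none

lemma LS.bv_spec (l : LS) (h : 0 < l.s * l.ch) :
    (l.bv : ℝ) ≤ ((l.cp : ℝ) + l.cq) * l.sh * DR / ((l.s : ℝ) * l.ch) ∧
    ((l.cp : ℝ) + l.cq) * l.sh * DR / ((l.s : ℝ) * l.ch) < l.bv + 1 := by
  have v1 := ndiv_le ((l.cp + l.cq) * l.sh * 68719476736) (l.s * l.ch)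
  have v2 := lt_ndiv ((l.cp + l.cq) * l.sh * 68719476736) h
  have hvv : l.bv = (l.cp + l.cq) * l.sh * 68719476736 / (l.s * l.ch) := rfl
  rw [← hvv] at v1 v2
  rw [Nat.cast_mul, DN_cast] at v1 v2
  push_cast at v1 v2
  exact ⟨v1, v2⟩

lemma LS.ed_cast (l : LS) : (l.ed : ℝ) = 4 * ((l.ch : ℝ) + l.ech) + l.s * l.ech := by
  have : l.ed = 4 * (l.ch + l.ech) + l.s * l.ech := rfl
  rw [this]; push_cast; ring

lemma LS.en_cast (l : LS) : (l.en : ℝ) = 4 * ((l.sh : ℝ) + l.esh) + ((l.cp : ℝ) + l.cq) * l.esh := by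
  have : l.en = 4 * (l.sh + l.esh) + (l.cp + l.cq) * l.esh := rfl
  rw [this]; push_cast; ring

lemma LS.eb_spec (l : LS) (h : l.ed < l.s * l.ch) :
    (DR * (l.en : ℝ) + ((l.bv : ℝ) + 1) * l.ed) / ((l.s : ℝ) * l.ch - l.ed) < l.eb + 1 := by
  have k := lt_ndiv (68719476736 * l.en + (l.bv + 1) * l.ed) (b := l.s * l.ch - l.ed) (by omega)
  have hsub : ((l.s * l.ch - l.ed : ℕ) : ℝ) = (l.s : ℝ) * l.ch - l.ed := by
    rw [Nat.cast_sub h.le]; push_cast; ring
  have hvv : l.eb = (68719476736 * l.en + (l.bv + 1) * l.ed) / (l.s * l.ch - l.ed) := rfl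
  rw [hsub, ← hvv, Nat.cast_add, Nat.cast_mul, DN_cast] at k
  push_cast at k
  exact k

lemma arctan_sub_le (x y : ℝ) : |Real.arctan x - Real.arctan y| ≤ |x - y| := by
  have h := Convex.norm_image_sub_le_of_norm_hasDerivWithin_le (f := Real.arctan)
    (f' := fun x => 1 / (1 + x ^ 2)) (C := 1) (s := Set.univ) (x := y) (y := x)
    (fun x _ => (Real.hasDerivAt_arctan x).hasDerivWithinAt) (fun x _ => by
      rw [Real.norm_eq_abs, abs_of_nonneg (by positivity), div_le_one (by positivity)]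
      nlinarith only [sq_nonneg x]) convex_univ (Set.mem_univ _) (Set.mem_univ _)
  simpa [Real.norm_eq_abs] using h

/-- the argument of the arctangent, up to the sign `σ` of the cosine -/
lemma LS.Good.arg {l : LS} {x t : ℝ} (h : l.Good x t) (h1 : l.ed < l.s * l.ch) {σ : ℝ}
    (hσ : σ * ((l.cp : ℝ) - l.cq) = (l.cp : ℝ) + l.cq) (hσ1 : |σ| = 1) :
    |σ * (Real.cos (Real.pi * x) * Real.sinh (Real.pi * t) /
      (Real.sin (Real.pi * x) * Real.cosh (Real.pi * t))) * DR - l.bv| ≤ l.eb + 2 := by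
  have hD := DR_pos
  have hs0 : (0 : ℝ) ≤ l.s := Nat.cast_nonneg _
  have hc0 : (0 : ℝ) ≤ l.ch := Nat.cast_nonneg _
  have hsh0 : (0 : ℝ) ≤ l.sh := Nat.cast_nonneg _
  have hdenpos : 0 < l.s * l.ch := by omega
  have hd := abs_mul_sub h.s h.ch
  have hn := abs_mul_sub h.c h.sh
  rw [abs_of_nonneg hc0, abs_of_nonneg hs0] at hd
  rw [abs_of_nonneg hsh0] at hn
  have hed := l.ed_cast
  have hen := l.en_cast
  rw [← hed] at hd
  have h1r : (l.ed : ℝ) < l.s * l.ch := by exact_mod_cast h1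
  have hq := quot_err hd hn h1r
  have eQ : Real.cos (Real.pi * x) * DR * (Real.sinh (Real.pi * t) * DR) /
      (Real.sin (Real.pi * x) * DR * (Real.cosh (Real.pi * t) * DR)) =
      Real.cos (Real.pi * x) * Real.sinh (Real.pi * t) /
      (Real.sin (Real.pi * x) * Real.cosh (Real.pi * t)) := by
    have : Real.sin (Real.pi * x) * DR * (Real.cosh (Real.pi * t) * DR) ≠ 0 := by
      have := (abs_le.1 hd).1
      have : 0 < Real.sin (Real.pi * x) * DR * (Real.cosh (Real.pi * t) * DR) := by linarith only [h1r, this]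
      exact this.ne'
    have hs1 : Real.sin (Real.pi * x) ≠ 0 := left_ne_zero_of_mul (left_ne_zero_of_mul this)
    have hch := Real.cosh_pos (Real.pi * t)
    field_simp
  rw [eQ] at hq
  set vt := Real.cos (Real.pi * x) * Real.sinh (Real.pi * t) /
      (Real.sin (Real.pi * x) * Real.cosh (Real.pi * t))
  obtain ⟨v1, v2⟩ := l.bv_spec hdenpos
  have k := l.eb_spec h1
  have hden : (0 : ℝ) < (l.s : ℝ) * l.ch := by exact_mod_cast hdenpos
  have hpos : 0 < (l.s : ℝ) * l.ch - l.ed := by linarith only [h1r]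
  have habs := A.abs_pq l.cp l.cq
  have hesh : (0 : ℝ) ≤ l.esh := Nat.cast_nonneg _
  have hed0 : (0 : ℝ) ≤ l.ed := Nat.cast_nonneg _
  have e1 : σ * vt * DR - l.bv = σ * (vt - ((l.cp : ℝ) - l.cq) * l.sh / ((l.s : ℝ) * l.ch)) * DR +
      (((l.cp : ℝ) + l.cq) * l.sh * DR / ((l.s : ℝ) * l.ch) - l.bv) := by
    rw [← hσ]; ring
  rw [e1]
  refine (abs_add_le _ _).trans ?_
  rw [abs_mul, abs_mul, hσ1, one_mul, abs_of_pos hD]
  have a1 : |((l.cp : ℝ) + l.cq) * l.sh * DR / ((l.s : ℝ) * l.ch) - l.bv| ≤ 1 := by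
    rw [abs_le]; constructor <;> linarith only [v1, v2]
  have a2 : |vt - ((l.cp : ℝ) - l.cq) * l.sh / ((l.s : ℝ) * l.ch)| * DR ≤
      (DR * (l.en : ℝ) + ((l.bv : ℝ) + 1) * l.ed) / ((l.s : ℝ) * l.ch - l.ed) := by
    refine (mul_le_mul_of_nonneg_right hq hD.le).trans ?_
    rw [div_mul_eq_mul_div]
    have b1 : |((l.cp : ℝ) - l.cq) * l.sh| / ((l.s : ℝ) * l.ch) * DR ≤ (l.bv : ℝ) + 1 := by
      refine le_trans ?_ v2.le
      rw [abs_mul, abs_of_nonneg hsh0, div_mul_eq_mul_div]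
      gcongr
    have b2 : (4 * ((l.sh : ℝ) + l.esh) + |(l.cp : ℝ) - l.cq| * l.esh +
        |((l.cp : ℝ) - l.cq) * l.sh| / ((l.s : ℝ) * l.ch) * l.ed) * DR =
        DR * (4 * ((l.sh : ℝ) + l.esh) + |(l.cp : ℝ) - l.cq| * l.esh) +
        (|((l.cp : ℝ) - l.cq) * l.sh| / ((l.s : ℝ) * l.ch) * DR) * l.ed := by ring
    rw [b2, hen]
    gcongr
  linarith only [k, a1, a2]

lemma LS.Good.vB {l : LS} {x t : ℝ} (h : l.Good x t) {r : R3} (hr : l.vB = some r) :
    r.Good (lnB x t) := by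
  have hD := DR_pos
  unfold LS.vB at hr
  simp only [cnd_eq] at hr
  rcases h1 : Nat.ble (Nat.add l.ed 1) (Nat.mul l.s l.ch) with _ | _
  · rw [h1] at hr; exact absurd hr (by simp)
  rw [h1, cond_true] at hr
  have h1' : l.ed < l.s * l.ch := Nat.le_of_ble_eq_true h1
  rcases ha : atN l.bv with _ | w
  · rw [ha] at hr; exact absurd hr (by simp)
  rw [ha] at hr
  simp only at hr
  have hat := atN_spec ha
  have hv0 : (l.bv : ℝ) / DR * DR = l.bv := by field_simp
  have hB : lnB x t = Real.arctan (Real.cos (Real.pi * x) * Real.sinh (Real.pi * t) /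
      (Real.sin (Real.pi * x) * Real.cosh (Real.pi * t))) := rfl
  unfold R3.Good
  rw [hB]
  have hE : ((Nat.add 15 l.eb : ℕ) : ℝ) = 15 + l.eb := by
    change ((15 + l.eb : ℕ) : ℝ) = _
    push_cast; ring
  rcases hq0 : Nat.beq l.cq 0 with _ | _
  · rw [hq0, cond_false] at hr
    have hr := Option.some.inj hr
    have hcq : l.cq ≠ 0 := fun h0 => by rw [h0] at hq0; exact absurd hq0 (by decide)
    have hcp : l.cp = 0 := h.n.resolve_right hcq
    have hm := h.arg h1' (σ := -1) (by rw [hcp]; push_cast; ring) (by simp)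
    rw [← hr, hE]
    set vt := Real.cos (Real.pi * x) * Real.sinh (Real.pi * t) /
      (Real.sin (Real.pi * x) * Real.cosh (Real.pi * t))
    have a3 := arctan_sub_le (-1 * vt) ((l.bv : ℝ) / DR)
    have a4 : |-1 * vt - (l.bv : ℝ) / DR| * DR = |-1 * vt * DR - l.bv| := by
      nth_rewrite 2 [← hv0]
      rw [← sub_mul, abs_mul, abs_of_pos hD]
    have e1 : Real.arctan vt * DR - ((w.2 : ℝ) - w.1) =
        -((Real.arctan (-1 * vt) - Real.arctan ((l.bv : ℝ) / DR)) * DR) -
        (Real.arctan ((l.bv : ℝ) / DR) * DR - ((w.1 : ℝ) - w.2)) := by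
      rw [neg_one_mul, Real.arctan_neg]; ring
    rw [e1]
    refine (abs_sub _ _).trans ?_
    rw [abs_neg, abs_mul, abs_of_pos hD]
    have a5 := mul_le_mul_of_nonneg_right a3 hD.le
    linarith only [hat, hm, a4, a5]
  · rw [hq0, cond_true] at hr
    have hr := Option.some.inj hr
    have hcq : l.cq = 0 := Nat.eq_of_beq_eq_true hq0
    have hm := h.arg h1' (σ := 1) (by rw [hcq]; push_cast; ring) (by simp)
    rw [← hr, hE]
    set vt := Real.cos (Real.pi * x) * Real.sinh (Real.pi * t) /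
      (Real.sin (Real.pi * x) * Real.cosh (Real.pi * t))
    have a3 := arctan_sub_le (1 * vt) ((l.bv : ℝ) / DR)
    have a4 : |1 * vt - (l.bv : ℝ) / DR| * DR = |1 * vt * DR - l.bv| := by
      nth_rewrite 2 [← hv0]
      rw [← sub_mul, abs_mul, abs_of_pos hD]
    have e1 : Real.arctan vt * DR - ((w.1 : ℝ) - w.2) =
        (Real.arctan (1 * vt) - Real.arctan ((l.bv : ℝ) / DR)) * DR +
        (Real.arctan ((l.bv : ℝ) / DR) * DR - ((w.1 : ℝ) - w.2)) := by
      rw [one_mul]; ring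
    rw [e1]
    refine (abs_add_le _ _).trans ?_
    rw [abs_mul, abs_of_pos hD]
    have a5 := mul_le_mul_of_nonneg_right a3 hD.le
    linarith only [hat, hm, a4, a5]

end Pool.Agent.Work.NumIs

end
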