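import Mathlib
import Pool.Agent.Work.MP_b30479_gt.TBS.NumI.LnSin

section

/-!
# Verified numerics for the kernel, part 10: affine forms for `lnA` and `lnB`
-/

namespace Pool.Agent.Work.NumIs

lemma lsD_spec {X T : A} (hX : X.p = 0 ∨ X.q = 0) {l : LS} (h : lsD X T = some l) :
    l.Good (((X.p : ℝ) - X.q) / DR) ((l.m : ℝ) / (Real.pi * DR)) ∧
    |((T.p : ℝ) + T.q) - (l.m : ℝ) / Real.pi| ≤ 1 ∧ 9 + 4 * X.tot ≤ l.s := by
  have hD := DR_pos
  have hpi := Real.pi_pos
  unfold lsD at h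
  simp only [cnd_eq] at h
  rcases h1 : Nat.ble (Nat.add T.p T.q) 1152921504606846976 with _ | _
  · rw [h1] at h; exact absurd h (by simp)
  rw [h1, cond_true] at h
  rcases h2 : Nat.ble (piN (Nat.add T.p T.q)) 1099511627776 with _ | _
  · rw [h2] at h; exact absurd h (by simp)
  rw [h2, cond_true] at h
  rcases h3 : Nat.ble 1 (expLo (piN (Nat.add T.p T.q))) with _ | _
  · rw [h3] at h; exact absurd h (by simp)
  rw [h3, cond_true] at h
  rcases h4 : Nat.ble (Nat.add 9 (Nat.mul 4 X.tot)) (scS X.p X.q).sp with _ | _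
  · rw [h4] at h; exact absurd h (by simp)
  rw [h4, cond_true] at h
  have h := Option.some.inj h
  have h4' : 9 + 4 * X.tot ≤ (scS X.p X.q).sp := Nat.le_of_ble_eq_true h4
  obtain ⟨gc, gs, gn, gn'⟩ := scS_good hX
  have hsq : (scS X.p X.q).sq = 0 := gn'.resolve_left (by omega)
  have hm16 : ((piN (Nat.add T.p T.q) : ℕ) : ℝ) ≤ 16 * DR := by
    have := Nat.le_of_ble_eq_true h2
    have h16 : ((1099511627776 : ℕ) : ℝ) = 16 * DR := by unfold DR; norm_num
    rw [← h16]; exact_mod_cast this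
  obtain ⟨g1, g2, g3⟩ := A.chsh_good (by positivity) (ex4_good hm16 (Nat.le_of_ble_eq_true h3))
  have hperr := piN_err' (r := Nat.add T.p T.q) (Nat.le_of_ble_eq_true h1)
  have hl : l.m = piN (Nat.add T.p T.q) := by rw [← h]
  have harg : Real.pi * ((l.m : ℝ) / (Real.pi * DR)) = ((piN (Nat.add T.p T.q) : ℕ) : ℝ) / DR := by
    rw [hl]; field_simp
  refine ⟨⟨?_, ?_, ?_, ?_, ?_, ?_, ?_⟩, ?_, ?_⟩
  · rw [← h]
    change |_ - (((scS X.p X.q).sp : ℕ) : ℝ)| ≤ 4
    rw [hsq] at gs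
    simpa using gs
  · rw [← h]; exact gc
  · rw [← h]; exact gn
  · rw [harg, ← h]; exact g2
  · rw [harg, ← h]; exact g1
  · rw [harg, hl]; field_simp
  · positivity
  · have e : ((Nat.add T.p T.q : ℕ) : ℝ) = (T.p : ℝ) + T.q := by
      change ((T.p + T.q : ℕ) : ℝ) = _
      push_cast; ring
    rw [e, ← hl] at hperr
    have e2 : ((T.p : ℝ) + T.q) - (l.m : ℝ) / Real.pi =
        (Real.pi * ((T.p : ℝ) + T.q) - l.m) / Real.pi := by field_simp
    rw [e2, abs_div, abs_of_pos hpi, div_le_one hpi]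
    have := Real.pi_gt_three
    linarith only [hperr, this]
  · rw [← h]; exact h4'

/-- second order term -/
def lnK (X T : A) (l : LS) : ℕ :=
  let T2 := Nat.add T.tot 1
  let L1 := Nat.sub l.s (Nat.add 4 (Nat.mul 4 X.tot))
  let Lu := Nat.sub l.m (Nat.mul 4 T2)
  Nat.add (Nat.div (Nat.mul 343597383680 (Nat.add (Nat.mul X.tot X.tot) (Nat.mul T2 T2))) (Nat.add (Nat.mul L1 L1) (Nat.mul Lu Lu))) 1

lemma abs_le_abs_sinh (y : ℝ) : |y| ≤ |Real.sinh y| := by
  rcases le_total 0 y with h | h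
  · rw [abs_of_nonneg h, abs_of_nonneg (Real.sinh_nonneg_iff.2 h)]
    exact Real.self_le_sinh_iff.2 h
  · have := Real.self_le_sinh_iff.2 (by linarith only [h] : 0 ≤ -y)
    rw [Real.sinh_neg] at this
    rw [abs_of_nonpos h, abs_of_nonpos (Real.sinh_nonpos_iff.2 h)]
    exact this

lemma lnK_spec {X T : A} {l : LS} {x t σ : ℝ} (h : l.Good x t) (hσ : σ = 1 ∨ σ = -1)
    (hs : 9 + 4 * X.tot ≤ l.s) {a b : ℝ} (ha : |a| ≤ (X.tot : ℝ)) (hb : |b| ≤ ((T.tot + 1 : ℕ) : ℝ)) :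
    |lnA (x + a / DR) (σ * t + b / DR) - lnA x (σ * t) -
      Real.pi * (a / DR * PP x (σ * t) + b / DR * QQ x (σ * t))| * DR ≤ lnK X T l ∧
    |lnB (x + a / DR) (σ * t + b / DR) - lnB x (σ * t) -
      Real.pi * (b / DR * PP x (σ * t) - a / DR * QQ x (σ * t))| * DR ≤ lnK X T l := by
  have hD := DR_pos
  have hpi := Real.pi_pos
  have hpi2 := Real.pi_lt_d2
  set T2 := T.tot + 1 with hT2
  set L1 := l.s - (4 + 4 * X.tot) with hL1
  set Lu := l.m - 4 * T2 with hLu
  have hL1r : (L1 : ℝ) = l.s - (4 + 4 * X.tot) := by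
    rw [hL1, Nat.cast_sub (by omega)]; push_cast; ring
  have hL1pos : 0 < L1 := by omega
  have hL1pos' : (0 : ℝ) < L1 := by exact_mod_cast hL1pos
  have hab : ∀ c : ℝ, ∀ τ ∈ Set.Icc (0 : ℝ) 1, |τ * c| ≤ |c| := by
    intro c τ hτ
    rw [abs_mul, abs_of_nonneg hτ.1]
    have := abs_nonneg c
    nlinarith only [hτ, this, hτ.2]
  have hsin : ∀ τ ∈ Set.Icc (0 : ℝ) 1, (L1 : ℝ) / DR ≤ Real.sin (Real.pi * (x + τ * (a / DR))) := by
    intro τ hτ
    have h1 := Real.abs_sin_sub_sin_le (Real.pi * (x + τ * (a / DR))) (Real.pi * x)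
    have h2 : |Real.pi * (x + τ * (a / DR)) - Real.pi * x| ≤ 4 * X.tot / DR := by
      have e : Real.pi * (x + τ * (a / DR)) - Real.pi * x = Real.pi * (τ * a) / DR := by ring
      rw [e, abs_div, abs_of_pos hD, abs_mul, abs_of_pos hpi]
      have := (hab a τ hτ).trans ha
      gcongr
      linarith only [hpi2]
    have h3 := (abs_le.1 (h1.trans h2)).1
    have h4 := (abs_le.1 h.s).2
    have h5 : ((l.s : ℝ) - 4) / DR ≤ Real.sin (Real.pi * x) := by
      rw [div_le_iff₀ hD]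
      have := (abs_le.1 h.s).1
      linarith only [this]
    have e : (L1 : ℝ) / DR = ((l.s : ℝ) - 4) / DR - 4 * X.tot / DR := by rw [hL1r]; ring
    rw [e]; linarith only [h3, h5]
  have hsinh : ∀ τ ∈ Set.Icc (0 : ℝ) 1, (Lu : ℝ) / DR ≤ |Real.sinh (Real.pi * (σ * t + τ * (b / DR)))| := by
    intro τ hτ
    refine le_trans ?_ (abs_le_abs_sinh _)
    have h1 : Real.pi * (σ * t + τ * (b / DR)) = (σ * (Real.pi * t * DR) + Real.pi * (τ * b)) / DR := by
      field_simp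
    rw [h1, h.m, abs_div, abs_of_pos hD]
    gcongr
    rcases le_total l.m (4 * T2) with hle | hle
    · rw [hLu, Nat.sub_eq_zero_of_le hle]; simp
    · rw [hLu, Nat.cast_sub hle]
      have h2 : |Real.pi * (τ * b)| ≤ 4 * T2 := by
        rw [abs_mul, abs_of_pos hpi]
        have := (hab b τ hτ).trans hb
        have := abs_nonneg (τ * b)
        nlinarith
      have h3 : |σ * (l.m : ℝ)| = l.m := by
        rcases hσ with h0 | h0 <;> rw [h0] <;> simp
      have h4 := abs_sub_abs_le_abs_sub (σ * (l.m : ℝ)) (-(Real.pi * (τ * b)))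
      rw [abs_neg, sub_neg_eq_add, h3] at h4
      push_cast
      linarith only [h2, h4]
  have hLL : 0 < ((L1 : ℝ) ^ 2 + (Lu : ℝ) ^ 2) / DR ^ 2 := by positivity
  have key := ln_second (x := x) (t := σ * t) (a := a / DR) (b := b / DR)
    (L2 := ((L1 : ℝ) ^ 2 + (Lu : ℝ) ^ 2) / DR ^ 2) hLL
    (fun τ hτ => lt_of_lt_of_le (by positivity) (hsin τ hτ)) (fun τ hτ => by
      unfold MM
      have h1 := hsin τ hτ
      have h2 := hsinh τ hτ
      have h3 : ((L1 : ℝ) / DR) ^ 2 ≤ Real.sin (Real.pi * (x + τ * (a / DR))) ^ 2 := by gcongr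
      have h4 : ((Lu : ℝ) / DR) ^ 2 ≤ Real.sinh (Real.pi * (σ * t + τ * (b / DR))) ^ 2 := by
        rw [← sq_abs (Real.sinh _)]; gcongr
      have e : ((L1 : ℝ) ^ 2 + (Lu : ℝ) ^ 2) / DR ^ 2 = ((L1 : ℝ) / DR) ^ 2 + ((Lu : ℝ) / DR) ^ 2 := by
        ring
      rw [e]; linarith only [h3, h4])
  have kk : Real.pi ^ 2 * ((a / DR) ^ 2 + (b / DR) ^ 2) / (((L1 : ℝ) ^ 2 + (Lu : ℝ) ^ 2) / DR ^ 2) / 2 * DR
      ≤ lnK X T l := by
    have k := lt_ndiv (343597383680 * (X.tot * X.tot + T2 * T2)) (b := L1 * L1 + Lu * Lu)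
      (by positivity)
    have h5 : ((343597383680 : ℕ) : ℝ) = 5 * DR := by unfold DR; norm_num
    rw [Nat.cast_mul, h5] at k
    push_cast at k
    have hK : (lnK X T l : ℝ) =
        (((343597383680 * (X.tot * X.tot + T2 * T2)) / (L1 * L1 + Lu * Lu) : ℕ) : ℝ) + 1 := by
      change (((343597383680 * (X.tot * X.tot + T2 * T2)) / (L1 * L1 + Lu * Lu) + 1 : ℕ) : ℝ) = _
      push_cast; ring
    rw [hK]
    refine le_trans ?_ k.le
    have e : Real.pi ^ 2 * ((a / DR) ^ 2 + (b / DR) ^ 2) / (((L1 : ℝ) ^ 2 + (Lu : ℝ) ^ 2) / DR ^ 2) / 2 * DR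
        = (Real.pi ^ 2 * (a ^ 2 + b ^ 2) / 2 * DR) / ((L1 : ℝ) * L1 + Lu * Lu) := by
      have : (L1 : ℝ) * L1 + Lu * Lu ≠ 0 := by positivity
      have : (L1 : ℝ) ^ 2 + Lu ^ 2 ≠ 0 := by positivity
      field_simp
    rw [e]
    have ha2 : a ^ 2 ≤ (X.tot : ℝ) * X.tot := by rw [← pow_two, ← sq_abs a]; gcongr
    have hb2 : b ^ 2 ≤ (T2 : ℝ) * T2 := by rw [← pow_two, ← sq_abs b]; gcongr
    have hp := pi_sq_lt
    have h6 : Real.pi ^ 2 * (a ^ 2 + b ^ 2) / 2 * DR ≤ 5 * DR * ((X.tot : ℝ) * X.tot + T2 * T2) := by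
      have h7 : Real.pi ^ 2 * (a ^ 2 + b ^ 2) ≤ 10 * ((X.tot : ℝ) * X.tot + T2 * T2) :=
        mul_le_mul hp (by linarith only [ha2, hb2]) (by positivity) (by norm_num)
      nlinarith only [hD, h7]
    exact div_le_div_of_nonneg_right h6 (by positivity)
  constructor
  · exact (mul_le_mul_of_nonneg_right key.1 hD.le).trans kk
  · exact (mul_le_mul_of_nonneg_right key.2 hD.le).trans kk

lemma PP_neg (x t : ℝ) : PP x (-t) = PP x t := by
  unfold PP MM; rw [mul_neg, Real.sinh_neg, neg_sq]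
lemma QQ_neg (x t : ℝ) : QQ x (-t) = -QQ x t := by
  unfold QQ MM; rw [mul_neg, Real.sinh_neg, Real.cosh_neg, neg_sq]; ring
lemma lnA_neg (x t : ℝ) : lnA x (-t) = lnA x t := by
  unfold lnA; rw [mul_neg, Real.sinh_neg, neg_sq]
lemma lnB_neg (x t : ℝ) : lnB x (-t) = -lnB x t := by
  unfold lnB
  rw [mul_neg, Real.sinh_neg, Real.cosh_neg, ← Real.arctan_neg]
  congr 1; ring

namespace A

/-- `lnA` of affine forms -/
def lnA (a b : A) : Option A :=
  let X := a.nf
  let T := b.nf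
  match lsD X T with
  | none => none
  | some l =>
    let v := l.vA
    let u := l.vU
    let w := l.vW
    cond l.ok (cond (Nat.beq T.q 0)
      (some (app2 X T (Nat.add T.r 1) (Nat.add T.tot 1) v.p v.q v.e u.p u.q u.e w.p w.q w.e (lnK X T l)))
      (some (app2 X T (Nat.add T.r 1) (Nat.add T.tot 1) v.p v.q v.e u.p u.q u.e w.q w.p w.e (lnK X T l)))) none

/-- `lnB` of affine forms -/
def lnB (a b : A) : Option A :=
  let X := a.nf
  let T := b.nf
  match lsD X T with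
  | none => none
  | some l =>
    let u := l.vU
    let w := l.vW
    cond l.ok (match l.vB with
      | none => none
      | some v => cond (Nat.beq T.q 0)
        (some (app2 X T (Nat.add T.r 1) (Nat.add T.tot 1) v.p v.q v.e w.q w.p w.e u.p u.q u.e (lnK X T l)))
        (some (app2 X T (Nat.add T.r 1) (Nat.add T.tot 1) v.q v.p v.e w.p w.q w.e u.p u.q u.e (lnK X T l)))) none

end A

lemma R3.Good.neg {r : R3} {v : ℝ} (h : r.Good v) : R3.Good ⟨r.q, r.p, r.e⟩ (-v) := by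
  unfold R3.Good at *
  change |(-v) * DR - ((r.q : ℝ) - r.p)| ≤ r.e
  rw [← abs_neg]
  convert h using 2
  ring

/-- the common frame of the two nodes -/
lemma ln_frame {a b : A} {ε : ℕ → ℝ} {x t : ℝ} (hε : ∀ i, |ε i| ≤ 1) (hx : a.Encl ε x)
    (ht : b.Encl ε t) {l : LS} (hl : lsD a.nf b.nf = some l) {σ : ℝ}
    (hσ : σ = 1 ∧ b.nf.q = 0 ∨ σ = -1 ∧ b.nf.p = 0) :
    |x * DR - ((((a.nf.p : ℝ) - a.nf.q) / DR) * DR + a.nf.g.ev ε)| ≤ a.nf.r ∧
    |x * DR - (((a.nf.p : ℝ) - a.nf.q) / DR) * DR| ≤ a.nf.tot ∧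
    |t * DR - (σ * ((l.m : ℝ) / (Real.pi * DR)) * DR + b.nf.g.ev ε)| ≤ ((Nat.add b.nf.r 1 : ℕ) : ℝ) ∧
    |t * DR - σ * ((l.m : ℝ) / (Real.pi * DR)) * DR| ≤ ((Nat.add b.nf.tot 1 : ℕ) : ℝ) := by
  have hD := DR_pos
  have hpi := Real.pi_pos
  have hx := hx.nf
  have ht := ht.nf
  obtain ⟨-, hm, -⟩ := lsD_spec (A.nf_normal a) hl
  have e1 : (((a.nf.p : ℝ) - a.nf.q) / DR) * DR = (a.nf.p : ℝ) - a.nf.q := by field_simp
  have e2 : σ * ((l.m : ℝ) / (Real.pi * DR)) * DR = σ * ((l.m : ℝ) / Real.pi) := by field_simp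
  have hc : |((b.nf.p : ℝ) - b.nf.q) - σ * ((l.m : ℝ) / Real.pi)| ≤ 1 := by
    rcases hσ with ⟨h1, h2⟩ | ⟨h1, h2⟩
    · rw [h1, h2]
      rw [h2] at hm
      simpa using hm
    · rw [h1, h2]
      rw [h2] at hm
      rw [← abs_neg]
      convert hm using 2
      push_cast; ring
  have t1 := hx.tot hε
  have t2 := ht.tot hε
  unfold A.Encl at hx ht
  rw [e1, e2]
  refine ⟨hx, t1, ?_, ?_⟩
  · have e : t * DR - (σ * ((l.m : ℝ) / Real.pi) + b.nf.g.ev ε) =
        (t * DR - ((b.nf.p : ℝ) - b.nf.q + b.nf.g.ev ε)) +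
        (((b.nf.p : ℝ) - b.nf.q) - σ * ((l.m : ℝ) / Real.pi)) := by ring
    rw [e]
    change _ ≤ ((b.nf.r + 1 : ℕ) : ℝ)
    push_cast
    exact (abs_add_le _ _).trans (add_le_add ht hc)
  · have e : t * DR - σ * ((l.m : ℝ) / Real.pi) =
        (t * DR - ((b.nf.p : ℝ) - b.nf.q)) +
        (((b.nf.p : ℝ) - b.nf.q) - σ * ((l.m : ℝ) / Real.pi)) := by ring
    rw [e]
    change _ ≤ ((b.nf.tot + 1 : ℕ) : ℝ)
    push_cast
    exact (abs_add_le _ _).trans (add_le_add t2 hc)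

theorem A.Encl.lnA {a b c : A} {ε : ℕ → ℝ} {x t : ℝ} (hε : ∀ i, |ε i| ≤ 1) (hx : a.Encl ε x)
    (ht : b.Encl ε t) (h : a.lnA b = some c) : c.Encl ε (NumIs.lnA x t) := by
  have hD := DR_pos
  unfold A.lnA at h
  simp only at h
  rcases hl : lsD a.nf b.nf with _ | l
  · rw [hl] at h; exact absurd h (by simp)
  rw [hl] at h
  simp only at h
  rcases hok : l.ok with _ | _
  · rw [hok] at h; exact absurd h (by simp)
  rw [hok, cond_true] at h
  obtain ⟨hg, -, hs⟩ := lsD_spec (A.nf_normal a) hl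
  obtain ⟨o1, o2, -, -⟩ := LS.ok_spec hok
  have gA := hg.vA o1 o2
  have gU := hg.vU hok
  have gW := hg.vW hok
  set x0 := ((a.nf.p : ℝ) - a.nf.q) / DR with hx0
  set t0 := (l.m : ℝ) / (Real.pi * DR) with ht0
  have hDx : ∀ y z : ℝ, (y * DR + z) / DR = y + z / DR := by intro y z; field_simp
  have hDx' : ∀ y : ℝ, y * DR / DR = y := by intro y; field_simp
  rcases hq : Nat.beq b.nf.q 0 with _ | _
  · rw [hq, cond_false] at h
    have hq0 : b.nf.q ≠ 0 := fun h0 => by rw [h0] at hq; exact absurd hq (by decide)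
    have hp : b.nf.p = 0 := (A.nf_normal b).resolve_right hq0
    obtain ⟨f1, f2, f3, f4⟩ := ln_frame hε hx ht hl (σ := -1) (Or.inr ⟨rfl, hp⟩)
    have h := Option.some.inj h
    rw [← h]
    refine A.app2_spec hε f1 f2 f3 f4 NumIs.lnA (Real.pi * PP x0 t0) (-(Real.pi * QQ x0 t0)) ?_ gU
      gW.neg ?_
    · rw [hDx', hDx', neg_one_mul, lnA_neg]; exact gA
    · intro u v hu hv
      have k := (lnK_spec (T := b.nf) hg (Or.inr rfl : (-1 : ℝ) = 1 ∨ (-1 : ℝ) = -1) hs hu hv).1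
      rw [hDx, hDx, hDx', hDx']
      have e : NumIs.lnA (x0 + u / DR) (-1 * t0 + v / DR) * DR - NumIs.lnA x0 (-1 * t0) * DR -
          (Real.pi * PP x0 t0 * u + -(Real.pi * QQ x0 t0) * v) =
          (NumIs.lnA (x0 + u / DR) (-1 * t0 + v / DR) - NumIs.lnA x0 (-1 * t0) -
          Real.pi * (u / DR * PP x0 (-1 * t0) + v / DR * QQ x0 (-1 * t0))) * DR := by
        rw [neg_one_mul, PP_neg, QQ_neg]
        field_simp
      rw [e, abs_mul, abs_of_pos hD]
      exact k
  · rw [hq, cond_true] at h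
    have hq0 : b.nf.q = 0 := Nat.eq_of_beq_eq_true hq
    obtain ⟨f1, f2, f3, f4⟩ := ln_frame hε hx ht hl (σ := 1) (Or.inl ⟨rfl, hq0⟩)
    have h := Option.some.inj h
    rw [← h]
    refine A.app2_spec hε f1 f2 f3 f4 NumIs.lnA (Real.pi * PP x0 t0) (Real.pi * QQ x0 t0) ?_ gU
      gW ?_
    · rw [hDx', hDx', one_mul]; exact gA
    · intro u v hu hv
      have k := (lnK_spec (T := b.nf) hg (Or.inl rfl : (1 : ℝ) = 1 ∨ (1 : ℝ) = -1) hs hu hv).1
      rw [hDx, hDx, hDx', hDx']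
      have e : NumIs.lnA (x0 + u / DR) (1 * t0 + v / DR) * DR - NumIs.lnA x0 (1 * t0) * DR -
          (Real.pi * PP x0 t0 * u + Real.pi * QQ x0 t0 * v) =
          (NumIs.lnA (x0 + u / DR) (1 * t0 + v / DR) - NumIs.lnA x0 (1 * t0) -
          Real.pi * (u / DR * PP x0 (1 * t0) + v / DR * QQ x0 (1 * t0))) * DR := by
        rw [one_mul]
        field_simp
      rw [e, abs_mul, abs_of_pos hD]
      exact k

theorem A.Encl.lnB {a b c : A} {ε : ℕ → ℝ} {x t : ℝ} (hε : ∀ i, |ε i| ≤ 1) (hx : a.Encl ε x)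
    (ht : b.Encl ε t) (h : a.lnB b = some c) : c.Encl ε (NumIs.lnB x t) := by
  have hD := DR_pos
  unfold A.lnB at h
  simp only at h
  rcases hl : lsD a.nf b.nf with _ | l
  · rw [hl] at h; exact absurd h (by simp)
  rw [hl] at h
  simp only at h
  rcases hok : l.ok with _ | _
  · rw [hok] at h; exact absurd h (by simp)
  rw [hok, cond_true] at h
  rcases hb : l.vB with _ | v
  · rw [hb] at h; exact absurd h (by simp)
  rw [hb] at h
  simp only at h
  obtain ⟨hg, -, hs⟩ := lsD_spec (A.nf_normal a) hl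
  have gB := hg.vB hb
  have gU := hg.vU hok
  have gW := hg.vW hok
  set x0 := ((a.nf.p : ℝ) - a.nf.q) / DR with hx0
  set t0 := (l.m : ℝ) / (Real.pi * DR) with ht0
  have hDx : ∀ y z : ℝ, (y * DR + z) / DR = y + z / DR := by intro y z; field_simp
  have hDx' : ∀ y : ℝ, y * DR / DR = y := by intro y; field_simp
  rcases hq : Nat.beq b.nf.q 0 with _ | _
  · rw [hq, cond_false] at h
    have hq0 : b.nf.q ≠ 0 := fun h0 => by rw [h0] at hq; exact absurd hq (by decide)
    have hp : b.nf.p = 0 := (A.nf_normal b).resolve_right hq0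
    obtain ⟨f1, f2, f3, f4⟩ := ln_frame hε hx ht hl (σ := -1) (Or.inr ⟨rfl, hp⟩)
    have h := Option.some.inj h
    rw [← h]
    refine A.app2_spec hε f1 f2 f3 f4 NumIs.lnB (Real.pi * QQ x0 t0) (Real.pi * PP x0 t0) ?_ gW
      gU ?_
    · rw [hDx', hDx', neg_one_mul, lnB_neg]; exact gB.neg
    · intro u v hu hv
      have k := (lnK_spec (T := b.nf) hg (Or.inr rfl : (-1 : ℝ) = 1 ∨ (-1 : ℝ) = -1) hs hu hv).2
      rw [hDx, hDx, hDx', hDx']
      have e : NumIs.lnB (x0 + u / DR) (-1 * t0 + v / DR) * DR - NumIs.lnB x0 (-1 * t0) * DR -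
          (Real.pi * QQ x0 t0 * u + Real.pi * PP x0 t0 * v) =
          (NumIs.lnB (x0 + u / DR) (-1 * t0 + v / DR) - NumIs.lnB x0 (-1 * t0) -
          Real.pi * (v / DR * PP x0 (-1 * t0) - u / DR * QQ x0 (-1 * t0))) * DR := by
        rw [neg_one_mul, PP_neg, QQ_neg]
        field_simp
        ring
      rw [e, abs_mul, abs_of_pos hD]
      exact k
  · rw [hq, cond_true] at h
    have hq0 : b.nf.q = 0 := Nat.eq_of_beq_eq_true hq
    obtain ⟨f1, f2, f3, f4⟩ := ln_frame hε hx ht hl (σ := 1) (Or.inl ⟨rfl, hq0⟩)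
    have h := Option.some.inj h
    rw [← h]
    refine A.app2_spec hε f1 f2 f3 f4 NumIs.lnB (-(Real.pi * QQ x0 t0)) (Real.pi * PP x0 t0) ?_
      gW.neg gU ?_
    · rw [hDx', hDx', one_mul]; exact gB
    · intro u v hu hv
      have k := (lnK_spec (T := b.nf) hg (Or.inl rfl : (1 : ℝ) = 1 ∨ (1 : ℝ) = -1) hs hu hv).2
      rw [hDx, hDx, hDx', hDx']
      have e : NumIs.lnB (x0 + u / DR) (1 * t0 + v / DR) * DR - NumIs.lnB x0 (1 * t0) * DR -
          (-(Real.pi * QQ x0 t0) * u + Real.pi * PP x0 t0 * v) =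
          (NumIs.lnB (x0 + u / DR) (1 * t0 + v / DR) - NumIs.lnB x0 (1 * t0) -
          Real.pi * (v / DR * PP x0 (1 * t0) - u / DR * QQ x0 (1 * t0))) * DR := by
        rw [one_mul]
        field_simp
        ring
      rw [e, abs_mul, abs_of_pos hD]
      exact k

end Pool.Agent.Work.NumIs

end

section

/-!
# Verified numerics for the kernel, part 7: expressions, boxes and the bisection checker

* `E` is a type of expressions in real variables `var 0, var 1, ...` with rational constants, `π`,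
  `+ - * neg ⁻¹ ^2`, `cos (π x)`, `sin (π x)`, `exp`, `log`, `cosh`, `sinh`, `arctan`,
  `lnA x t = log |2 sin π(x + i t)|`, `lnB x t = arg sin π(x + i t)` (`0 < x < 1`) and `let`
  (`lt a b` adds the value of `a` as the next variable, for shared subexpressions of `b`).
* `E.val e xs` is the value at the point `xs : List ℝ`.
* `chk es fuel vs : Bool` bisects the box `vs : List V` until on every piece one of the expressions
  `es` is positive; `chk_sound` says that then at every point of the box one of the `es` is positive.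
-/

namespace Pool.Agent.Work.NumIs

/-- look-up -/
def lkR : List ℝ → ℕ → ℝ
  | [], _ => 0
  | x :: _, 0 => x
  | _ :: t, n + 1 => lkR t n

@[simp] lemma lkR_zero (x : ℝ) (t : List ℝ) : lkR (x :: t) 0 = x := rfl
@[simp] lemma lkR_succ (x : ℝ) (t : List ℝ) (n : ℕ) : lkR (x :: t) (n + 1) = lkR t n := rfl
@[simp] lemma lkR_one (x y : ℝ) (t : List ℝ) : lkR (x :: y :: t) 1 = y := rfl

def lkA : List A → ℕ → A
  | [], _ => ⟨0, 0, 0, G.nil⟩
  | x :: _, 0 => x
  | _ :: t, n + 1 => lkA t n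

/-- expressions -/
inductive E where
  | var : ℕ → E
  | q : ℤ → ℕ → E
  | pi : E
  | add : E → E → E
  | sub : E → E → E
  | mul : E → E → E
  | neg : E → E
  | inv : E → E
  | sq : E → E
  | cosPi : E → E
  | sinPi : E → E
  | exp : E → E
  | log : E → E
  | cosh : E → E
  | sinh : E → E
  | atan : E → E
  | lnA : E → E → E
  | lnB : E → E → E
  | lt : E → E → E

namespace E

/-- the real value -/
noncomputable def val : E → List ℝ → ℝ
  | var i, xs => lkR xs i
  | q n d, _ => (n : ℝ) / d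
  | pi, _ => Real.pi
  | add a b, xs => a.val xs + b.val xs
  | sub a b, xs => a.val xs - b.val xs
  | mul a b, xs => a.val xs * b.val xs
  | neg a, xs => -a.val xs
  | inv a, xs => (a.val xs)⁻¹
  | sq a, xs => (a.val xs) ^ 2
  | cosPi a, xs => Real.cos (Real.pi * a.val xs)
  | sinPi a, xs => Real.sin (Real.pi * a.val xs)
  | exp a, xs => Real.exp (a.val xs)
  | log a, xs => Real.log (a.val xs)
  | cosh a, xs => Real.cosh (a.val xs)
  | sinh a, xs => Real.sinh (a.val xs)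
  | atan a, xs => Real.arctan (a.val xs)
  | lnA a b, xs => NumIs.lnA (a.val xs) (b.val xs)
  | lnB a b, xs => NumIs.lnB (a.val xs) (b.val xs)
  | lt a b, xs => b.val (xs ++ [a.val xs])

end E

namespace A

/-- a rational constant -/
def cst : ℤ → ℕ → A
  | Int.ofNat k, d => ⟨Nat.div (Nat.mul k 68719476736) d, 0, 1, G.nil⟩
  | Int.negSucc k, d => ⟨0, Nat.div (Nat.mul (Nat.add k 1) 68719476736) d, 1, G.nil⟩

lemma cst_aux (k d : ℕ) : |(k : ℝ) / d * DR - ((k * 68719476736 / d : ℕ) : ℝ)| ≤ 1 := by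
  rcases Nat.eq_zero_or_pos d with h | h
  · rw [h]; simp
  · have h1 := ndiv_le (k * 68719476736) d
    have h2 := lt_ndiv (k * 68719476736) h
    rw [Nat.cast_mul, DN_cast] at h1 h2
    have e : (k : ℝ) / d * DR = k * DR / d := by ring
    rw [e, abs_le]
    constructor <;> linarith only [h1, h2]

lemma Encl_cst (n : ℤ) (d : ℕ) (ε : ℕ → ℝ) : (A.cst n d).Encl ε ((n : ℝ) / d) := by
  rcases n with k | k
  · have := cst_aux k d
    change |((Int.ofNat k : ℤ) : ℝ) / d * DR -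
      (((k * 68719476736 / d : ℕ) : ℝ) - ((0 : ℕ) : ℝ) + 0)| ≤ ((1 : ℕ) : ℝ)
    simpa using this
  · have := cst_aux (k + 1) d
    change |((Int.negSucc k : ℤ) : ℝ) / d * DR -
      (((0 : ℕ) : ℝ) - (((k + 1) * 68719476736 / d : ℕ) : ℝ) + 0)| ≤ ((1 : ℕ) : ℝ)
    rw [← abs_neg]
    have e : -(((Int.negSucc k : ℤ) : ℝ) / d * DR -
      (((0 : ℕ) : ℝ) - (((k + 1) * 68719476736 / d : ℕ) : ℝ) + 0)) =
      ((k + 1 : ℕ) : ℝ) / d * DR - (((k + 1) * 68719476736 / d : ℕ) : ℝ) := by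
      rw [Int.cast_negSucc]; push_cast; ring
    rw [e]
    simpa using this

/-- the constant `π` -/
def pi : A := ⟨215888603272, 0, 2, G.nil⟩

lemma Encl_pi (ε : ℕ → ℝ) : (A.pi).Encl ε Real.pi := by
  have h3 := Real.pi_gt_d20
  have h4 := Real.pi_lt_d20
  change |Real.pi * DR - (((215888603272 : ℕ) : ℝ) - ((0 : ℕ) : ℝ) + 0)| ≤ ((2 : ℕ) : ℝ)
  unfold DR
  push_cast
  rw [abs_le]
  constructor <;> linarith only [h3, h4]

/-- square, normalised -/
def sqn (a : A) : A := a.nf.sq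

end A

def op2 (f : A → A → A) (x y : Option A) : Option A :=
  match x with
  | none => none
  | some a => match y with
    | none => none
    | some b => some (f a b)

def op3 (f : A → A → Option A) (x y : Option A) : Option A :=
  match x with
  | none => none
  | some a => match y with
    | none => none
    | some b => f a b

def op1 (f : A → A) (x : Option A) : Option A :=
  match x with
  | none => none
  | some a => some (f a)

def op0 (f : A → Option A) (x : Option A) : Option A :=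
  match x with
  | none => none
  | some a => f a

/-- evaluation with affine forms -/
def E.ev : E → List A → Option A
  | E.var i, xs => some (lkA xs i)
  | E.q n d, _ => some (A.cst n d)
  | E.pi, _ => some A.pi
  | E.add a b, xs => op2 A.add (a.ev xs) (b.ev xs)
  | E.sub a b, xs => op2 A.sub (a.ev xs) (b.ev xs)
  | E.mul a b, xs => op2 A.mul (a.ev xs) (b.ev xs)
  | E.neg a, xs => op1 A.neg (a.ev xs)
  | E.inv a, xs => op0 A.inv (a.ev xs)
  | E.sq a, xs => op1 A.sqn (a.ev xs)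
  | E.cosPi a, xs => op1 A.cosPi (a.ev xs)
  | E.sinPi a, xs => op1 A.sinPi (a.ev xs)
  | E.exp a, xs => op0 A.exp (a.ev xs)
  | E.log a, xs => op0 A.log (a.ev xs)
  | E.cosh a, xs => op0 (A.hyp true) (a.ev xs)
  | E.sinh a, xs => op0 (A.hyp false) (a.ev xs)
  | E.atan a, xs => op0 A.atan (a.ev xs)
  | E.lnA a b, xs => op3 A.lnA (a.ev xs) (b.ev xs)
  | E.lnB a b, xs => op3 A.lnB (a.ev xs) (b.ev xs)
  | E.lt a b, xs => match a.ev xs with
    | none => none
    | some c => b.ev (xs ++ [c])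

lemma op2_some {f : A → A → A} {x y : Option A} {c : A} (h : op2 f x y = some c) :
    ∃ a b, x = some a ∧ y = some b ∧ c = f a b := by
  unfold op2 at h
  rcases x with _ | a
  · simp at h
  · rcases y with _ | b
    · simp at h
    · exact ⟨a, b, rfl, rfl, (Option.some.inj h).symm⟩

lemma op3_some {f : A → A → Option A} {x y : Option A} {c : A} (h : op3 f x y = some c) :
    ∃ a b, x = some a ∧ y = some b ∧ f a b = some c := by
  unfold op3 at h
  rcases x with _ | a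
  · simp at h
  · rcases y with _ | b
    · simp at h
    · exact ⟨a, b, rfl, rfl, h⟩

lemma op1_some {f : A → A} {x : Option A} {c : A} (h : op1 f x = some c) :
    ∃ a, x = some a ∧ c = f a := by
  unfold op1 at h
  rcases x with _ | a
  · simp at h
  · exact ⟨a, rfl, (Option.some.inj h).symm⟩

lemma op0_some {f : A → Option A} {x : Option A} {c : A} (h : op0 f x = some c) :
    ∃ a, x = some a ∧ f a = some c := by
  unfold op0 at h
  rcases x with _ | a
  · simp at h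
  · exact ⟨a, rfl, h⟩

lemma Encl_lk {ε : ℕ → ℝ} : ∀ {as : List A} {xs : List ℝ}, List.Forall₂ (fun a x => a.Encl ε x) as xs →
    ∀ i, (lkA as i).Encl ε (lkR xs i)
  | _, _, List.Forall₂.nil, i => by
    unfold lkA lkR A.Encl
    simp [G.ev]
  | _, _, List.Forall₂.cons h t, 0 => h
  | _, _, List.Forall₂.cons h t, i + 1 => Encl_lk t i

theorem E.ev_sound {ε : ℕ → ℝ} (hε : ∀ i, |ε i| ≤ 1) : ∀ (e : E) {as : List A} {xs : List ℝ} {c : A},
    List.Forall₂ (fun a x => a.Encl ε x) as xs → e.ev as = some c → c.Encl ε (e.val xs)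
  | E.var i, as, xs, c, h, he => by
    have := Option.some.inj he
    rw [← this]; exact Encl_lk h i
  | E.q n d, as, xs, c, h, he => by
    have := Option.some.inj he
    rw [← this]; exact A.Encl_cst n d ε
  | E.pi, as, xs, c, h, he => by
    have := Option.some.inj he
    rw [← this]; exact A.Encl_pi ε
  | E.add a b, as, xs, c, h, he => by
    obtain ⟨u, v, hu, hv, rfl⟩ := op2_some he
    exact (E.ev_sound hε a h hu).add (E.ev_sound hε b h hv)
  | E.sub a b, as, xs, c, h, he => by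
    obtain ⟨u, v, hu, hv, rfl⟩ := op2_some he
    exact (E.ev_sound hε a h hu).sub (E.ev_sound hε b h hv)
  | E.mul a b, as, xs, c, h, he => by
    obtain ⟨u, v, hu, hv, rfl⟩ := op2_some he
    exact (E.ev_sound hε a h hu).mul hε (E.ev_sound hε b h hv)
  | E.neg a, as, xs, c, h, he => by
    obtain ⟨u, hu, rfl⟩ := op1_some he
    exact (E.ev_sound hε a h hu).neg
  | E.inv a, as, xs, c, h, he => by
    obtain ⟨u, hu, hc⟩ := op0_some he
    exact (E.ev_sound hε a h hu).inv hε hc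
  | E.sq a, as, xs, c, h, he => by
    obtain ⟨u, hu, rfl⟩ := op1_some he
    exact ((E.ev_sound hε a h hu).nf).sq hε (A.nf_normal u)
  | E.cosPi a, as, xs, c, h, he => by
    obtain ⟨u, hu, rfl⟩ := op1_some he
    exact (E.ev_sound hε a h hu).cosPi hε
  | E.sinPi a, as, xs, c, h, he => by
    obtain ⟨u, hu, rfl⟩ := op1_some he
    exact (E.ev_sound hε a h hu).sinPi hε
  | E.exp a, as, xs, c, h, he => by
    obtain ⟨u, hu, hc⟩ := op0_some he
    exact (E.ev_sound hε a h hu).exp hε hc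
  | E.log a, as, xs, c, h, he => by
    obtain ⟨u, hu, hc⟩ := op0_some he
    exact (E.ev_sound hε a h hu).log hε hc
  | E.cosh a, as, xs, c, h, he => by
    obtain ⟨u, hu, hc⟩ := op0_some he
    exact (E.ev_sound hε a h hu).hyp hε hc
  | E.sinh a, as, xs, c, h, he => by
    obtain ⟨u, hu, hc⟩ := op0_some he
    exact (E.ev_sound hε a h hu).hyp hε hc
  | E.atan a, as, xs, c, h, he => by
    obtain ⟨u, hu, hc⟩ := op0_some he
    exact (E.ev_sound hε a h hu).atan hε hc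
  | E.lnA a b, as, xs, c, h, he => by
    obtain ⟨u, v, hu, hv, hc⟩ := op3_some he
    exact (E.ev_sound hε a h hu).lnA hε (E.ev_sound hε b h hv) hc
  | E.lnB a b, as, xs, c, h, he => by
    obtain ⟨u, v, hu, hv, hc⟩ := op3_some he
    exact (E.ev_sound hε a h hu).lnB hε (E.ev_sound hε b h hv) hc
  | E.lt a b, as, xs, c, h, he => by
    unfold E.ev at he
    rcases ha : a.ev as with _ | u
    · rw [ha] at he; exact absurd he (by simp)
    · rw [ha] at he
      have h1 := E.ev_sound hε a h ha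
      have h2 : List.Forall₂ (fun a x => a.Encl ε x) (as ++ [u]) (xs ++ [a.val xs]) :=
        List.rel_append h (List.Forall₂.cons h1 List.Forall₂.nil)
      exact E.ev_sound hε b h2 he

/-! ### boxes -/

/-- a range `[p - q + a, p - q + b] / D` of a variable; `k` is a weight for the choice of the
variable to bisect -/
structure V where
  p : ℕ
  q : ℕ
  a : ℕ
  b : ℕ
  k : ℕ

def V.Mem (v : V) (x : ℝ) : Prop :=
  (v.p : ℝ) - v.q + v.a ≤ x * DR ∧ x * DR ≤ (v.p : ℝ) - v.q + v.b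

def G.sh : ℕ → G → G
  | 0, g => g
  | n + 1, g => G.z (G.sh n g)

lemma G.ev_sh : ∀ (n : ℕ) (g : G) (ε : ℕ → ℝ), (G.sh n g).ev ε = g.ev (fun i => ε (i + n))
  | 0, g, ε => rfl
  | n + 1, g, ε => by
    have := G.ev_sh n g (fun i => ε (i + 1))
    simp only [G.sh, G.ev, this]
    congr 1

def V.aff (i : ℕ) (v : V) : A :=
  let m := Nat.div (Nat.add v.a v.b) 2
  ⟨Nat.sub (Nat.add v.p m) v.q, Nat.sub v.q (Nat.add v.p m), 0, G.sh i (G.c (Nat.sub v.b m) 0 G.nil)⟩

def mkEnv : ℕ → List V → List A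
  | _, [] => []
  | i, v :: t => V.aff i v :: mkEnv (i + 1) t

noncomputable def V.noise (v : V) (x : ℝ) : ℝ :=
  (x * DR - ((v.p : ℝ) - v.q + ((v.a + v.b) / 2 : ℕ))) / ((v.b - (v.a + v.b) / 2 : ℕ) : ℝ)

lemma V.noise_spec {v : V} {x : ℝ} (h : v.Mem x) : |v.noise x| ≤ 1 ∧
    ((v.b - (v.a + v.b) / 2 : ℕ) : ℝ) * v.noise x =
      x * DR - ((v.p : ℝ) - v.q + ((v.a + v.b) / 2 : ℕ)) := by
  obtain ⟨h1, h2⟩ := h
  have hab : v.a ≤ v.b := by
    have : (v.a : ℝ) ≤ v.b := by linarith only [h1, h2]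
    exact_mod_cast this
  set m := (v.a + v.b) / 2 with hm
  have hmb : m ≤ v.b := by omega
  have hma : v.a ≤ m := by omega
  have hmm : 2 * m ≤ v.a + v.b := by omega
  have c1 : ((v.b - m : ℕ) : ℝ) = v.b - m := Nat.cast_sub hmb
  have c2 : 2 * (m : ℝ) ≤ v.a + v.b := by exact_mod_cast hmm
  have c3 : (v.a : ℝ) ≤ m := by exact_mod_cast hma
  have hb : |x * DR - ((v.p : ℝ) - v.q + m)| ≤ ((v.b - m : ℕ) : ℝ) := by
    rw [c1, abs_le]; constructor <;> linarith only [h1, c2, h2]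
  unfold V.noise
  rcases Nat.eq_zero_or_pos (v.b - m) with h0 | h0
  · rw [h0, Nat.cast_zero] at hb
    have : |x * DR - ((v.p : ℝ) - v.q + m)| = 0 := le_antisymm hb (abs_nonneg _)
    rw [abs_eq_zero] at this
    rw [← hm, h0, this]; simp
  · have h0' : (0 : ℝ) < ((v.b - m : ℕ) : ℝ) := by exact_mod_cast h0
    rw [← hm]
    constructor
    · rw [abs_div, abs_of_pos h0', div_le_one h0']; exact hb
    · rw [mul_div_cancel₀]; exact h0'.ne'

lemma V.aff_spec {v : V} {x : ℝ} (h : v.Mem x) {ε : ℕ → ℝ} {i : ℕ} (hi : ε i = v.noise x) :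
    (V.aff i v).Encl ε x := by
  obtain ⟨-, h2⟩ := V.noise_spec h
  have k := sub_sub_cast (v.p + (v.a + v.b) / 2) v.q
  unfold V.aff A.Encl
  change |x * DR - (((v.p + (v.a + v.b) / 2 - v.q : ℕ) : ℝ) - ((v.q - (v.p + (v.a + v.b) / 2) : ℕ) : ℝ) +
    (G.sh i (G.c (v.b - (v.a + v.b) / 2) 0 G.nil)).ev ε)| ≤ ((0 : ℕ) : ℝ)
  rw [k, G.ev_sh]
  simp only [G.ev, zero_add, hi, Nat.cast_zero, sub_zero, add_zero]
  rw [h2]
  push_cast
  have e : x * DR - ((v.p : ℝ) + ((v.a + v.b) / 2 : ℕ) - v.q +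
      (x * DR - ((v.p : ℝ) - v.q + ((v.a + v.b) / 2 : ℕ)))) = 0 := by ring
  rw [e]; simp

noncomputable def eps : List V → List ℝ → ℕ → ℝ
  | v :: _, x :: _, 0 => v.noise x
  | _ :: vs, _ :: xs, n + 1 => eps vs xs n
  | _, _, _ => 0

lemma eps_le : ∀ {vs : List V} {xs : List ℝ}, List.Forall₂ V.Mem vs xs → ∀ i, |eps vs xs i| ≤ 1
  | _, _, List.Forall₂.nil, i => by unfold eps; simp
  | _, _, List.Forall₂.cons h t, 0 => by unfold eps; exact (V.noise_spec h).1
  | _, _, List.Forall₂.cons h t, i + 1 => by unfold eps; exact eps_le t i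

lemma mkEnv_spec : ∀ {vs : List V} {xs : List ℝ} {ε : ℕ → ℝ} {i : ℕ}, List.Forall₂ V.Mem vs xs →
    (∀ n, ε (n + i) = eps vs xs n) → List.Forall₂ (fun a x => a.Encl ε x) (mkEnv i vs) xs
  | _, _, ε, i, List.Forall₂.nil, hε => List.Forall₂.nil
  | v :: vs, x :: xs, ε, i, List.Forall₂.cons h t, hε => by
    refine List.Forall₂.cons (V.aff_spec h ?_) (mkEnv_spec t ?_)
    · have := hε 0
      rw [zero_add] at this
      rw [this]; rfl
    · intro n
      have := hε (n + 1)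
      rw [← Nat.add_assoc, Nat.add_right_comm]
      rw [this]; rfl

/-! ### the checker -/

def posA (a : A) : Bool := Nat.ble (Nat.add (Nat.add a.q a.tot) 1) a.p

lemma posA_spec {a : A} {ε : ℕ → ℝ} {x : ℝ} (hε : ∀ i, |ε i| ≤ 1) (h : a.Encl ε x)
    (hp : posA a = true) : 0 < x := by
  have h1 := h.tot hε
  have h2 := Nat.le_of_ble_eq_true hp
  have h3 : ((a.q + a.tot + 1 : ℕ) : ℝ) ≤ a.p := by exact_mod_cast h2
  push_cast at h3
  have h4 := (abs_le.1 h1).1
  have h5 : 0 < x * DR := by linarith only [h3, h4]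
  exact (mul_pos_iff_of_pos_right DR_pos).1 h5

def posO : Option A → Bool
  | none => false
  | some a => posA a

def tryE (env : List A) : List E → Bool
  | [] => false
  | e :: es => cond (posO (e.ev env)) true (tryE env es)

lemma tryE_spec {env : List A} {ε : ℕ → ℝ} {xs : List ℝ} (hε : ∀ i, |ε i| ≤ 1)
    (henv : List.Forall₂ (fun a x => a.Encl ε x) env xs) :
    ∀ {es : List E}, tryE env es = true → ∃ e ∈ es, 0 < e.val xs
  | [], h => absurd h (by simp [tryE])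
  | e :: es, h => by
    unfold tryE at h
    rcases h1 : posO (e.ev env) with _ | _
    · rw [h1, cond_false] at h
      obtain ⟨e', he', hp⟩ := tryE_spec hε henv h
      exact ⟨e', List.mem_cons_of_mem _ he', hp⟩
    · rcases h2 : e.ev env with _ | c
      · rw [h2] at h1; exact absurd h1 (by simp [posO])
      · rw [h2] at h1
        exact ⟨e, List.mem_cons_self, posA_spec hε (E.ev_sound hε e henv h2) h1⟩

def V.left (v : V) : V := ⟨v.p, v.q, v.a, Nat.div (Nat.add v.a v.b) 2, v.k⟩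
def V.right (v : V) : V := ⟨v.p, v.q, Nat.div (Nat.add v.a v.b) 2, v.b, v.k⟩

lemma V.split {v : V} {x : ℝ} (h : v.Mem x) : v.left.Mem x ∨ v.right.Mem x := by
  rcases le_total (x * DR) ((v.p : ℝ) - v.q + (((v.a + v.b) / 2 : ℕ) : ℝ)) with h1 | h1
  · left; exact ⟨h.1, h1⟩
  · right; exact ⟨h1, h.2⟩

def setL : ℕ → List V → List V
  | _, [] => []
  | 0, v :: t => v.left :: t
  | i + 1, v :: t => v :: setL i t

def setR : ℕ → List V → List V
  | _, [] => []
  | 0, v :: t => v.right :: t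
  | i + 1, v :: t => v :: setR i t

lemma set_split : ∀ {i : ℕ} {vs : List V} {xs : List ℝ}, List.Forall₂ V.Mem vs xs →
    List.Forall₂ V.Mem (setL i vs) xs ∨ List.Forall₂ V.Mem (setR i vs) xs
  | i, _, _, List.Forall₂.nil => by
    left; cases i <;> exact List.Forall₂.nil
  | 0, _, _, List.Forall₂.cons h t => by
    rcases V.split h with h1 | h1
    · left; exact List.Forall₂.cons h1 t
    · right; exact List.Forall₂.cons h1 t
  | i + 1, _, _, List.Forall₂.cons h t => by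
    rcases set_split (i := i) t with h1 | h1
    · left; exact List.Forall₂.cons h h1
    · right; exact List.Forall₂.cons h h1

/-- index of the variable with the largest score `|g i| + k / 16 * width` -/
def best : List V → G → ℕ → ℕ → ℕ → ℕ
  | [], _, _, bi, _ => bi
  | v :: t, G.nil, i, bi, bs =>
    let s := Nat.div (Nat.mul (Nat.sub v.b v.a) v.k) 16
    cond (Nat.ble s bs) (best t G.nil (Nat.add i 1) bi bs) (best t G.nil (Nat.add i 1) i s)
  | v :: t, G.z g, i, bi, bs =>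
    let s := Nat.div (Nat.mul (Nat.sub v.b v.a) v.k) 16
    cond (Nat.ble s bs) (best t g (Nat.add i 1) bi bs) (best t g (Nat.add i 1) i s)
  | v :: t, G.c p q g, i, bi, bs =>
    let s := Nat.add (Nat.div (Nat.mul (Nat.sub v.b v.a) v.k) 16) (Nat.add p q)
    cond (Nat.ble s bs) (best t g (Nat.add i 1) bi bs) (best t g (Nat.add i 1) i s)

def gradO : Option A → G
  | none => G.nil
  | some a => a.g

def grad1 (env : List A) : List E → G
  | [] => G.nil
  | e :: _ => gradO (e.ev env)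

/-- the checker: bisect until one of the expressions is positive -/
def chk (es : List E) : ℕ → List V → Bool
  | 0, _ => false
  | n + 1, vs =>
    cond (tryE (mkEnv 0 vs) es) true
      (cond (chk es n (setL (best vs (grad1 (mkEnv 0 vs) es) 0 0 0) vs))
        (chk es n (setR (best vs (grad1 (mkEnv 0 vs) es) 0 0 0) vs)) false)

theorem chk_sound {es : List E} : ∀ {n : ℕ} {vs : List V}, chk es n vs = true →
    ∀ {xs : List ℝ}, List.Forall₂ V.Mem vs xs → ∃ e ∈ es, 0 < e.val xs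
  | 0, vs, h, xs, hx => absurd h (by simp [chk])
  | n + 1, vs, h, xs, hx => by
    unfold chk at h
    rcases h1 : tryE (mkEnv 0 vs) es with _ | _
    · rw [h1, cond_false] at h
      set i := best vs (grad1 (mkEnv 0 vs) es) 0 0 0
      rcases h2 : chk es n (setL i vs) with _ | _
      · rw [h2] at h; exact absurd h (by simp)
      · rw [h2, cond_true] at h
        rcases set_split (i := i) hx with h3 | h3
        · exact chk_sound h2 h3
        · exact chk_sound h h3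
    · have he := eps_le hx
      exact tryE_spec he (mkEnv_spec hx (fun n => rfl)) h1

/-! ### interface -/

/-- the range `[lo / N, hi / N]` -/
def V.of (N : ℕ) (lo hi : ℤ) (k : ℕ := 4) : V :=
  let l := (lo * 68719476736) / (N : ℤ)
  let h := -((-(hi * 68719476736)) / (N : ℤ))
  ⟨l.toNat, (-l).toNat, 0, (h - l).toNat, k⟩

lemma V.of_mem {N : ℕ} (hN : 0 < N) {lo hi : ℤ} {k : ℕ} {x : ℝ} (h1 : (lo : ℝ) / N ≤ x)
    (h2 : x ≤ (hi : ℝ) / N) : (V.of N lo hi k).Mem x := by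
  have hD := DR_pos
  have hN' : (0 : ℤ) < N := by exact_mod_cast hN
  have hNr : (0 : ℝ) < N := by exact_mod_cast hN
  set l := (lo * 68719476736) / (N : ℤ) with hl
  set h := -((-(hi * 68719476736)) / (N : ℤ)) with hh
  have a1 : l * N ≤ lo * 68719476736 := Int.ediv_mul_le _ hN'.ne'
  have a2 : hi * 68719476736 ≤ h * N := by
    have := Int.ediv_mul_le (-(hi * 68719476736)) hN'.ne'
    rw [hh]; linarith only [this]
  have b1 : (l : ℝ) * N ≤ lo * DR := by
    have : ((l * N : ℤ) : ℝ) ≤ ((lo * 68719476736 : ℤ) : ℝ) := by exact_mod_cast a1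
    unfold DR; push_cast at this; exact this
  have b2 : (hi : ℝ) * DR ≤ h * N := by
    have : ((hi * 68719476736 : ℤ) : ℝ) ≤ ((h * N : ℤ) : ℝ) := by exact_mod_cast a2
    unfold DR; push_cast at this; exact this
  have c1 : (l : ℝ) ≤ x * DR := by
    rw [div_le_iff₀ hNr] at h1
    have : (l : ℝ) * N ≤ (x * DR) * N := by nlinarith only [b1, h1, hD]
    exact le_of_mul_le_mul_right this hNr
  have c2 : x * DR ≤ (h : ℝ) := by
    rw [le_div_iff₀ hNr] at h2
    have : (x * DR) * N ≤ (h : ℝ) * N := by nlinarith only [b2, h2, hD]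
    exact le_of_mul_le_mul_right this hNr
  have hlh : l ≤ h := by exact_mod_cast c1.trans c2
  have e1 : ((l.toNat : ℕ) : ℝ) - (((-l).toNat : ℕ) : ℝ) = l := by
    have : ((l.toNat : ℕ) : ℤ) - (((-l).toNat : ℕ) : ℤ) = l := by omega
    exact_mod_cast this
  have e2 : (((h - l).toNat : ℕ) : ℝ) = h - l := by
    have : (((h - l).toNat : ℕ) : ℤ) = h - l := by omega
    exact_mod_cast this
  change ((l.toNat : ℕ) : ℝ) - (((-l).toNat : ℕ) : ℝ) + ((0 : ℕ) : ℝ) ≤ x * DR ∧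
    x * DR ≤ ((l.toNat : ℕ) : ℝ) - (((-l).toNat : ℕ) : ℝ) + (((h - l).toNat : ℕ) : ℝ)
  rw [e1, e2, Nat.cast_zero]
  constructor <;> linarith only [c1, c2]

/-- the range between two rational numbers -/
def V.ofQ (lo hi : ℚ) (k : ℕ := 4) : V := V.of (lo.den * hi.den) (lo.num * hi.den) (hi.num * lo.den) k

lemma V.ofQ_mem {lo hi : ℚ} {k : ℕ} {x : ℝ} (h1 : (lo : ℝ) ≤ x) (h2 : x ≤ (hi : ℝ)) :
    (V.ofQ lo hi k).Mem x := by
  have hl : (0 : ℝ) < lo.den := by exact_mod_cast lo.pos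
  have hh : (0 : ℝ) < hi.den := by exact_mod_cast hi.pos
  apply V.of_mem (Nat.mul_pos lo.pos hi.pos)
  · refine le_trans (le_of_eq ?_) h1
    rw [Rat.cast_def lo]
    push_cast
    rw [div_eq_div_iff (by positivity) (by positivity)]
    ring
  · refine le_trans h2 (le_of_eq ?_)
    rw [Rat.cast_def hi]
    push_cast
    rw [div_eq_div_iff (by positivity) (by positivity)]
    ring

/-- the result for boxes `Fin n → ℚ × ℚ` -/
theorem chk_box {n : ℕ} {es : List E} {fuel : ℕ} {b : Fin n → ℚ × ℚ} {k : ℕ}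
    (h : chk es fuel (List.ofFn fun i => V.ofQ (b i).1 (b i).2 k) = true)
    {x : Fin n → ℝ} (hx : ∀ i, ((b i).1 : ℝ) ≤ x i ∧ x i ≤ ((b i).2 : ℝ)) :
    ∃ e ∈ es, 0 < e.val (List.ofFn x) := by
  refine chk_sound h ?_
  rw [List.forall₂_iff_get]
  refine ⟨by simp, fun i h1 h2 => ?_⟩
  simp only [List.get_eq_getElem, List.getElem_ofFn]
  exact V.ofQ_mem (hx _).1 (hx _).2

theorem chk1 {es : List E} {fuel N : ℕ} {l1 h1 : ℤ} {k1 : ℕ}
    (h : chk es fuel [V.of N l1 h1 k1] = true) (hN : 0 < N) {x : ℝ}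
    (a1 : (l1 : ℝ) / N ≤ x) (b1 : x ≤ (h1 : ℝ) / N) : ∃ e ∈ es, 0 < e.val [x] :=
  chk_sound h (List.Forall₂.cons (V.of_mem hN a1 b1) List.Forall₂.nil)

theorem chk2 {es : List E} {fuel N : ℕ} {l1 h1 l2 h2 : ℤ} {k1 k2 : ℕ}
    (h : chk es fuel [V.of N l1 h1 k1, V.of N l2 h2 k2] = true) (hN : 0 < N) {x y : ℝ}
    (a1 : (l1 : ℝ) / N ≤ x) (b1 : x ≤ (h1 : ℝ) / N)
    (a2 : (l2 : ℝ) / N ≤ y) (b2 : y ≤ (h2 : ℝ) / N) : ∃ e ∈ es, 0 < e.val [x, y] :=
  chk_sound h (List.Forall₂.cons (V.of_mem hN a1 b1) (List.Forall₂.cons (V.of_mem hN a2 b2)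
    List.Forall₂.nil))

theorem chk3 {es : List E} {fuel N : ℕ} {l1 h1 l2 h2 l3 h3 : ℤ} {k1 k2 k3 : ℕ}
    (h : chk es fuel [V.of N l1 h1 k1, V.of N l2 h2 k2, V.of N l3 h3 k3] = true) (hN : 0 < N)
    {x y z : ℝ} (a1 : (l1 : ℝ) / N ≤ x) (b1 : x ≤ (h1 : ℝ) / N)
    (a2 : (l2 : ℝ) / N ≤ y) (b2 : y ≤ (h2 : ℝ) / N)
    (a3 : (l3 : ℝ) / N ≤ z) (b3 : z ≤ (h3 : ℝ) / N) : ∃ e ∈ es, 0 < e.val [x, y, z] :=
  chk_sound h (List.Forall₂.cons (V.of_mem hN a1 b1) (List.Forall₂.cons (V.of_mem hN a2 b2)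
    (List.Forall₂.cons (V.of_mem hN a3 b3) List.Forall₂.nil)))

theorem chk4 {es : List E} {fuel N : ℕ} {l1 h1 l2 h2 l3 h3 l4 h4 : ℤ} {k1 k2 k3 k4 : ℕ}
    (h : chk es fuel [V.of N l1 h1 k1, V.of N l2 h2 k2, V.of N l3 h3 k3, V.of N l4 h4 k4] = true)
    (hN : 0 < N) {x y z w : ℝ} (a1 : (l1 : ℝ) / N ≤ x) (b1 : x ≤ (h1 : ℝ) / N)
    (a2 : (l2 : ℝ) / N ≤ y) (b2 : y ≤ (h2 : ℝ) / N)
    (a3 : (l3 : ℝ) / N ≤ z) (b3 : z ≤ (h3 : ℝ) / N)
    (a4 : (l4 : ℝ) / N ≤ w) (b4 : w ≤ (h4 : ℝ) / N) : ∃ e ∈ es, 0 < e.val [x, y, z, w] :=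
  chk_sound h (List.Forall₂.cons (V.of_mem hN a1 b1) (List.Forall₂.cons (V.of_mem hN a2 b2)
    (List.Forall₂.cons (V.of_mem hN a3 b3) (List.Forall₂.cons (V.of_mem hN a4 b4)
      List.Forall₂.nil))))

theorem pos_of_chk {e : E} {xs : List ℝ} (h : ∃ e' ∈ [e], 0 < e'.val xs) :
    0 < e.val xs := by
  obtain ⟨e', he, hp⟩ := h
  simp only [List.mem_singleton] at he
  rwa [he] at hp

end Pool.Agent.Work.NumIs

end
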